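import Pool.Agent.Lib.KC.Defs
import Pool.Agent.Lib.KBE.Blue

/-! Project kc: from the field to the functions. Blueprint. -/

open scoped Classical Topology ContDiff ComplexOrder Matrix ENNReal
open Set MeasureTheory Complex Metric Filter

set_option linter.unusedVariables false

noncomputable section

namespace Pool.Agent.Lib.KC

open Pool.Agent.Lib.SV (E nsq)
open Pool.Agent.Lib.HS32 Pool.Agent.Lib.KH
open MvPolynomial (eval aeval pderiv coeff X C)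

/-- The field, its ring of functions on `O` and the spaces of level `x` and cost `c`. -/
structure Fd {n : ℕ} {M : Mf n} (B : Bs M) (F : Type) [Field F] [Algebra ℂ F] where
  R : Subalgebra ℂ F
  fn : R →ₐ[ℂ] (M.X → ℂ)
  G : ℕ → ℕ → Submodule ℂ F
  ae : ∀ f : R, f ≠ 0 → ∀ᵐ y ∂M.mu B.H, fn f y ≠ 0
  mem : ∀ x c (f : F), f ∈ G x c ↔ ∃ h : f ∈ R, B.Gm x c (fn ⟨f, h⟩)
  sur : ∀ x c u, B.Gm x c u → ∃ f : R, ∀ y ∈ B.O, fn f y = u y

/-- The norm form of an independent family is anisotropic. -/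
def St_NRM : Prop := ∀ (K F : Type) [Field K] [CharZero K] [Field F] [Algebra K F] (w D : ℕ)
  (z : Fin w → F) (θ : F) (B : Polynomial (MvPolynomial (Fin w) K))
  (m : Fin D → MvPolynomial (Option (Fin w)) K), KBE.Hyp K z θ B →
  (∀ f : F, IsAlgebraic K f → f ∈ range (algebraMap K F)) →
  LinearIndependent K (fun l => aeval (fun o : Option (Fin w) => o.elim θ z) (m l)) →
  ∃ (e : ℕ) (Nm : MvPolynomial (Fin w) (MvPolynomial (Fin D) K))
    (A : MvPolynomial (Fin D) (MvPolynomial (Option (Fin w)) K)), 0 < e ∧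
    (∑ l, X l * C (aeval (fun o : Option (Fin w) => o.elim θ z) (m l))) *
      MvPolynomial.map (aeval (fun o : Option (Fin w) => o.elim θ z) :
        MvPolynomial (Option (Fin w)) K →ₐ[K] F).toRingHom A =
      MvPolynomial.eval₂ (MvPolynomial.map (algebraMap K F)) (fun i => C (z i)) Nm ∧
    ∀ l, (X l : MvPolynomial (Fin D) K) ^ e ∈ Ideal.span (range fun μ => coeff μ Nm)

/-- The norm form read on functions. -/
def St_ANI : Prop := ∀ (n : ℕ) (M : Mf n) [M.Cpt] (B : Bs M) (F : Type) [Field F] [Algebra ℂ F]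
  (Φ : Fd B F) (K : IntermediateField ℂ F) (k w D : ℕ) (s : Sx k → Φ.R) (z : Fin w → Φ.R)
  (θ : Φ.R) (P : Polynomial (MvPolynomial (Fin w) K)) (m : Fin D → MvPolynomial (Option (Fin w)) ℂ),
  IntermediateField.adjoin ℂ (range fun i => (s i : F)) = K → KBE.Clo K →
  KBE.Hyp K (fun i => (z i : F)) (θ : F) P → (∀ i, B.Gm 0 1 (Φ.fn (s i))) →
  (∀ i, B.Gm 0 1 (Φ.fn (z i))) → B.Gm 0 1 (Φ.fn θ) →
  LinearIndependent K
    (fun l => ((aeval (fun o : Option (Fin w) => o.elim θ z) (m l) : Φ.R) : F)) →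
  Ani B.O B.p (fun i => Φ.fn (s i)) (fun i => Φ.fn (z i))
    fun l => Φ.fn (aeval (fun o : Option (Fin w) => o.elim θ z) (m l))

/-- The bounded degrees read on functions. -/
def St_DGA : Prop := ∀ (n : ℕ) (M : Mf n) [M.Cpt] (B : Bs M) (F : Type) [Field F] [Algebra ℂ F]
  (Φ : Fd B F) (K : IntermediateField ℂ F) (k w : ℕ) (s : Sx k → Φ.R) (z : Fin w → Φ.R)
  (θ : Φ.R) (P : Polynomial (MvPolynomial (Fin w) K)),
  IntermediateField.adjoin ℂ (range fun i => (s i : F)) = K → KBE.Clo K →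
  KBE.Hyp K (fun i => (z i : F)) (θ : F) P → (∀ i, B.Gm 0 1 (Φ.fn (s i))) →
  (∀ i, B.Gm 0 1 (Φ.fn (z i))) → B.Gm 0 1 (Φ.fn θ) →
  KBE.Deg K Φ.G (fun o : Option (Fin w) => ((o.elim θ z : Φ.R) : F)) →
  ∀ c, ∃ (D a : ℕ) (m : Fin D → M.X → ℂ), (∀ i, B.Gm 0 a (m i)) ∧
    Ani B.O B.p (fun i => Φ.fn (s i)) (fun i => Φ.fn (z i)) m ∧ B.Rt (fun i => Φ.fn (s i)) m c

/-- The certificates read on functions. -/
def St_CUA : Prop := ∀ (n : ℕ) (M : Mf n) [M.Cpt] (B : Bs M) (F : Type) [Field F] [Algebra ℂ F]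
  (Φ : Fd B F) (k l m : ℕ) (s : Sx k → Φ.R), KBE.Cut Φ.G Φ.R s l m →
  ∃ (Q : ℕ) (Ω : M.X → ℂ), B.Gn Q l Ω ∧
    ∀ᵐ y ∂M.mu B.H, Ct B.O (B.Gm Q l) (fun i => Φ.fn (s i)) Ω m fun i => Φ.fn (s i) y

/-- The equation of the base read on functions. -/
def St_EQA : Prop := ∀ (n : ℕ) (M : Mf n) [M.Cpt] (B : Bs M) (F : Type) [Field F] [Algebra ℂ F]
  (Φ : Fd B F) (K : IntermediateField ℂ F) (k : ℕ) (s : Sx k → Φ.R) (t : Fin k → K) (θ : K)
  (P : Polynomial (MvPolynomial (Fin k) ℂ)), KBE.Hyp ℂ t θ P → (θ : F) = s none →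
  (∀ i, (t i : F) = s (some i)) →
  IntermediateField.adjoin ℂ (range fun i => (s i : F)) = K ∧
    ∃ m1 : MvPolynomial (Sx k) ℂ, (∀ y, eval (fun i => Φ.fn (s i) y) m1 = 0) ∧
      ∃ y ∈ B.O, eval (fun i => Φ.fn (s i) y) (pderiv none m1) ≠ 0

end Pool.Agent.Lib.KC
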