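import Pool.Agent.Lib.KC.Trl

/-! Project kc, row ANI: the norm form read on functions. -/

open scoped Classical Topology
open Set MeasureTheory Complex Filter MvPolynomial

noncomputable section

namespace Pool.Agent.Lib.KC

open Pool.Agent.Lib.HS32 Pool.Agent.Lib.KH

namespace ANI

section gd

variable {S S' T F : Type} [CommRing S] [CommRing S'] [CommRing T] [Field F]
  (φ : S →+* F) (j : S →+* S') (ψ : S' →+* T)

/-- The denominators of `f` can be cleared. -/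
def Gd (I : Ideal S') (f : T) : Prop := ∃ q, φ q ≠ 0 ∧ ∃ r ∈ I, ψ r = ψ (j q) * f

variable {φ j ψ} {I : Ideal S'}

theorem Gd.of {r : S'} (h : r ∈ I) : Gd φ j ψ I (ψ r) := ⟨1, by simp, r, h, by simp⟩

theorem Gd.add {f g : T} (hf : Gd φ j ψ I f) (hg : Gd φ j ψ I g) : Gd φ j ψ I (f + g) := by
  obtain ⟨q, hq, r, hr, e⟩ := hf
  obtain ⟨q', hq', r', hr', e'⟩ := hg
  refine ⟨q * q', by simp [hq, hq'], j q' * r + j q * r',
    I.add_mem (I.mul_mem_left _ hr) (I.mul_mem_left _ hr'), ?_⟩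
  simp only [map_add, map_mul, e, e']
  ring

theorem Gd.mul {f g : T} (hf : Gd φ j ψ ⊤ f) (hg : Gd φ j ψ I g) : Gd φ j ψ I (f * g) := by
  obtain ⟨q, hq, r, -, e⟩ := hf
  obtain ⟨q', hq', r', hr', e'⟩ := hg
  refine ⟨q * q', by simp [hq, hq'], r * r', I.mul_mem_left _ hr', ?_⟩
  simp only [map_mul, e, e']
  ring

theorem Gd.poly {K σ : Type} [CommRing K] (ι : MvPolynomial σ K →+* T)
    (h : ∀ a, Gd φ j ψ ⊤ (ι (C a))) (h' : ∀ i, ∃ r, ψ r = ι (X i)) (f : MvPolynomial σ K) :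
    Gd φ j ψ ⊤ (ι f) := by
  induction f using MvPolynomial.induction_on with
  | C a => exact h a
  | add p q hp hq => rw [map_add]; exact hp.add hq
  | mul_X p i hp =>
    obtain ⟨r, hr⟩ := h' i
    rw [map_mul, ← hr]
    exact hp.mul (Gd.of trivial)

end gd

theorem bd {τ : Type} [Fintype τ] (r : MvPolynomial τ ℂ) (R : ℝ) :
    ∃ C, 0 ≤ C ∧ ∀ x : τ → ℂ, ‖x‖ ≤ R → ‖eval x r‖ ≤ C := by
  obtain ⟨C, hC⟩ := (isCompact_closedBall (0 : τ → ℂ) R).exists_bound_of_continuousOn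
    (MvPolynomial.continuous_eval r).continuousOn
  exact ⟨|C|, abs_nonneg _, fun x hx => (hC x (mem_closedBall_zero_iff.2 hx)).trans (le_abs_self _)⟩

/-- The polynomials dominated by a family on bounded sets. -/
def dom {τ α : Type} [Fintype τ] [Inhabited α] (g : α → MvPolynomial τ ℂ) :
    Ideal (MvPolynomial τ ℂ) where
  carrier := {r | ∀ R : ℝ, ∃ C, 0 ≤ C ∧ ∀ x : τ → ℂ, ‖x‖ ≤ R →
    ∃ μ, ‖eval x r‖ ≤ C * ‖eval x (g μ)‖}
  zero_mem' := fun _ => ⟨0, le_rfl, fun _ _ => ⟨default, by simp⟩⟩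
  add_mem' := fun {a b} ha hb R => by
    obtain ⟨C, hC, h⟩ := ha R
    obtain ⟨C', hC', h'⟩ := hb R
    refine ⟨C + C', add_nonneg hC hC', fun x hx => ?_⟩
    obtain ⟨μ, e⟩ := h x hx
    obtain ⟨μ', e'⟩ := h' x hx
    have t := norm_add_le (eval x a) (eval x b)
    rw [map_add]
    rcases le_total ‖eval x (g μ)‖ ‖eval x (g μ')‖ with l | l
    · exact ⟨μ', by nlinarith [mul_le_mul_of_nonneg_left l hC]⟩
    · exact ⟨μ, by nlinarith [mul_le_mul_of_nonneg_left l hC']⟩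
  smul_mem' := fun b a ha R => by
    obtain ⟨C, hC, h⟩ := ha R
    obtain ⟨C', hC', h'⟩ := bd b R
    refine ⟨C' * C, mul_nonneg hC' hC, fun x hx => (h x hx).imp fun μ e => ?_⟩
    rw [smul_eq_mul, map_mul, norm_mul, mul_assoc]
    exact mul_le_mul (h' x hx) e (norm_nonneg _) hC'

theorem cost {Y Z τ : Type} (O : Set Y) (p : Y → ℝ) (hp : ∀ y ∈ O, 0 < p y ∧ p y ≤ 1)
    (N : Z → ℝ) (v : Y → Z → τ → ℂ)
    (hv : ∀ i R, ∃ C, ∀ y ∈ O, ∀ c, N c ≤ R → ‖v y c i‖ * p y ≤ C) (r : MvPolynomial τ ℂ) :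
    ∃ a : ℕ, ∀ R : ℝ, ∃ C, 0 ≤ C ∧ ∀ y ∈ O, ∀ c, N c ≤ R → ‖eval (v y c) r‖ * p y ^ a ≤ C := by
  induction r using MvPolynomial.induction_on with
  | C a => exact ⟨0, fun _ => ⟨‖a‖, norm_nonneg _, fun y _ c _ => by simp⟩⟩
  | add f g hf hg =>
    obtain ⟨a, ha⟩ := hf
    obtain ⟨b, hb⟩ := hg
    refine ⟨a + b, fun R => ?_⟩
    obtain ⟨C, hC, h⟩ := ha R
    obtain ⟨C', hC', h'⟩ := hb R
    refine ⟨C + C', add_nonneg hC hC', fun y hy c hc => ?_⟩
    have p0 := (hp y hy).1.le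
    have a1 := pow_le_pow_of_le_one p0 (hp y hy).2 (Nat.le_add_right a b)
    have a2 := pow_le_pow_of_le_one p0 (hp y hy).2 (Nat.le_add_left b a)
    rw [map_add]
    nlinarith [mul_le_mul_of_nonneg_right (norm_add_le (eval (v y c) f) (eval (v y c) g))
      (pow_nonneg p0 (a + b)), h y hy c hc, h' y hy c hc,
      mul_le_mul_of_nonneg_left a1 (norm_nonneg (eval (v y c) f)),
      mul_le_mul_of_nonneg_left a2 (norm_nonneg (eval (v y c) g))]
  | mul_X f i hf =>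
    obtain ⟨a, ha⟩ := hf
    refine ⟨a + 1, fun R => ?_⟩
    obtain ⟨C, hC, h⟩ := ha R
    obtain ⟨C', h'⟩ := hv i R
    refine ⟨C * |C'|, mul_nonneg hC (abs_nonneg _), fun y hy c hc => ?_⟩
    rw [map_mul, eval_X, norm_mul, pow_succ, mul_mul_mul_comm]
    exact mul_le_mul (h y hy c hc) ((h' y hy c hc).trans (le_abs_self _))
      (mul_nonneg (norm_nonneg _) (hp y hy).1.le) hC

end ANI

open ANI in
theorem cANI (hNRM : St_NRM) : St_ANI := by
  intro n M _ B F _ _ Φ K k w D s z θ P m hK hC hH hs hz hθ hm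
  let h : Option (Fin w) → Φ.R := fun o => o.elim θ z
  have hh : (fun o : Option (Fin w) => o.elim (θ : F) fun i => (z i : F)) = fun o => (h o : F) :=
    funext fun o => by cases o <;> rfl
  have hv : ∀ {τ : Type} (u : τ → Φ.R) (q : MvPolynomial τ ℂ),
      ((aeval u q : Φ.R) : F) = aeval (fun i => (u i : F)) q := fun u q =>
    (comp_aeval_apply u Φ.R.val q)
  have hm' : ∀ l, aeval (fun o => (h o : F)) (map (algebraMap ℂ K) (m l)) =
      ((aeval h (m l) : Φ.R) : F) := fun l => by rw [hv, aeval_map_algebraMap]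
  obtain ⟨e, Nm, A, he, hA, hI⟩ := hNRM K F w D _ _ P (fun l => map (algebraMap ℂ K) (m l)) hH
    (fun f hf => ⟨⟨f, hC f hf⟩, rfl⟩) (by simpa only [hh, hm'] using hm)
  simp only [hh, hm'] at hA
  let φ : MvPolynomial (Sx k) ℂ →+* F := (aeval fun i => (s i : F)).toRingHom
  have hb : ∀ a : K, ∃ q, φ q ≠ 0 ∧ ∃ r, φ r = φ q * a := fun a => by
    obtain ⟨r, q, hr⟩ := (IntermediateField.mem_adjoin_range_iff ℂ _ _).1 (hK.ge a.2)
    by_cases h0 : φ q = 0
    · exact ⟨1, by simp, 0, by rw [hr, show aeval (fun i => (s i : F)) q = 0 from h0]; simp⟩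
    · exact ⟨q, h0, r, by rw [hr]; exact (mul_div_cancel₀ _ h0).symm⟩
  let vl : MvPolynomial (Fin D) Φ.R →+* MvPolynomial (Fin D) F := map Φ.R.val.toRingHom
  have hvl : Function.Injective vl := map_injective _ Subtype.val_injective
  let u₃ : (Sx k ⊕ Fin D) ⊕ Option (Fin w) → MvPolynomial (Fin D) Φ.R :=
    Sum.elim (Sum.elim (fun i => C (s i)) X) fun o => C (h o)
  let ψ₃ : MvPolynomial ((Sx k ⊕ Fin D) ⊕ Option (Fin w)) ℂ →+* MvPolynomial (Fin D) Φ.R :=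
    (aeval u₃).toRingHom
  let j₂ : MvPolynomial (Sx k) ℂ →+* MvPolynomial (Sx k ⊕ Fin D) ℂ := (rename Sum.inl).toRingHom
  let j₃ : MvPolynomial (Sx k ⊕ Fin D) ℂ →+* MvPolynomial ((Sx k ⊕ Fin D) ⊕ Option (Fin w)) ℂ :=
    (rename Sum.inl).toRingHom
  let ψ₂ := (vl.comp ψ₃).comp j₃
  have hj : ∀ q, ψ₂ (j₂ q) = C (φ q) := fun q => by
    refine RingHom.congr_fun (f := ψ₂.comp j₂) (g := C.comp φ) ?_ q
    refine ringHom_ext (fun a => ?_) fun i => ?_ <;> simp [ψ₂, j₂, j₃, ψ₃, vl, φ, u₃]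
  let ι : MvPolynomial (Fin D) K →+* MvPolynomial (Fin D) F := map (algebraMap K F)
  have g₂ : ∀ f, Gd φ j₂ ψ₂ ⊤ (ι f) := Gd.poly ι (fun a => by
    obtain ⟨q, hq, r, hr⟩ := hb a
    exact ⟨q, hq, j₂ r, trivial, by rw [hj, hj, hr, map_mul]; simp [ι]⟩)
    fun l => ⟨X (Sum.inr l), by simp [ψ₂, j₃, ψ₃, vl, u₃, ι]⟩
  obtain ⟨q₁, hq₁, N₁, -, hN₁⟩ : Gd φ (C.comp j₂) (map (σ := Fin w) ψ₂) ⊤ (map ι Nm) :=
    Gd.poly (map ι) (fun a => by
      obtain ⟨q, hq, r, -, hr⟩ := g₂ a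
      exact ⟨q, hq, C r, trivial, by simp only [RingHom.comp_apply, map_C, hr, map_mul]⟩)
      (fun i => ⟨X i, by simp⟩) Nm
  let al : MvPolynomial (Option (Fin w)) K →+* F :=
    (aeval (fun o => (h o : F)) : MvPolynomial (Option (Fin w)) K →ₐ[K] F).toRingHom
  obtain ⟨q₂, hq₂, A₁, -, hA₁⟩ : Gd φ (j₃.comp j₂) (vl.comp ψ₃) ⊤ (map al A) :=
    Gd.poly (map al) (fun a => by
      rw [map_C]
      refine Gd.poly (C.comp al) (fun a => ?_) (fun o => ⟨X (Sum.inr o), ?_⟩) a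
      · obtain ⟨q, hq, r, hr⟩ := hb a
        refine ⟨q, hq, j₃ (j₂ r), trivial, ?_⟩
        exact (hj r).trans (by
          rw [hr, map_mul, ← hj]; simp [al, ψ₂])
      · simp [ψ₃, vl, u₃, al])
      (fun l => ⟨X (Sum.inl (Sum.inr l)), by simp [ψ₃, vl, u₃]⟩) A
  let N' : MvPolynomial (Fin w) (MvPolynomial (Sx k ⊕ Fin D) ℂ) := C (j₂ q₂) * N₁
  have hN' : map ψ₂ N' = C (C (φ (q₂ * q₁))) * map ι Nm := by
    simp only [N', map_mul, map_C, hN₁, RingHom.comp_apply, hj, mul_assoc]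
  have gI : ∀ f ∈ Ideal.span (range fun μ => coeff μ Nm),
      Gd φ j₂ ψ₂ (dom fun μ => coeff μ N') (ι f) := fun f hf => by
    induction hf using Submodule.span_induction with
    | mem f hf =>
      obtain ⟨μ, rfl⟩ := hf
      refine ⟨q₂ * q₁, by simp [hq₁, hq₂], coeff μ N',
        fun R => ⟨1, zero_le_one, fun x _ => ⟨μ, by simp⟩⟩, ?_⟩
      rw [← coeff_map, hN', coeff_C_mul, coeff_map, hj]
    | zero => simpa using Gd.of (φ := φ) (j := j₂) (ψ := ψ₂) (Ideal.zero_mem _)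
    | add a b _ _ ha hb => rw [map_add]; exact ha.add hb
    | smul a b _ hb => rw [smul_eq_mul, map_mul]; exact (g₂ a).mul hb
  choose q₃ hq₃ r₃ hr₃ er₃ using fun l => gI _ (hI l)
  let ev : M.X → (Fin D → ℂ) → MvPolynomial (Fin D) Φ.R →+* ℂ := fun y c =>
    eval₂Hom ((Pi.evalAlgHom ℂ _ y).comp Φ.fn).toRingHom c
  let v : M.X → (Fin D → ℂ) → (Sx k ⊕ Fin D) ⊕ Option (Fin w) → ℂ := fun y c =>
    Sum.elim (Sum.elim (fun i => Φ.fn (s i) y) c) fun o => Φ.fn (h o) y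
  have e₃ : ∀ y c, (ev y c).comp ψ₃ = eval (v y c) := fun y c =>
    ringHom_ext (fun a => by simp [ev, ψ₃]) fun i => by
      rcases i with (i | i) | i <;> simp [ev, ψ₃, u₃, v]
  have e₂ : ∀ y c, (ev y c).comp (ψ₃.comp j₃) = eval (Sum.elim (fun i => Φ.fn (s i) y) c) :=
    fun y c => ringHom_ext (fun a => by simp [ev, ψ₃, j₃]) fun i => by
      rcases i with i | i <;> simp [ev, ψ₃, u₃, j₃]
  have hg : ∀ g, B.Gm 0 1 g → ∃ C, ∀ y ∈ B.O, ‖g y‖ * B.p y ≤ C := fun g ⟨_, C, hC⟩ =>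
    ⟨C + 1, fun y hy => by
      have := hC y hy
      rw [pow_zero, pow_one, one_mul, normSq_eq_norm_sq] at this
      nlinarith [mul_nonneg (sq_nonneg (‖g y‖ - 1)) (B.pos y hy).1.le, (B.pos y hy).2.1,
        mul_nonneg (norm_nonneg (g y)) (B.pos y hy).1.le]⟩
  obtain ⟨a, ha⟩ := cost B.O B.p (fun y hy => ⟨(B.pos y hy).1, (B.pos y hy).2.1⟩) norm v
    (fun i R => by
      rcases i with (i | i) | i
      · exact (hg _ (hs i)).imp fun C hC y hy _ _ => hC y hy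
      · exact ⟨R, fun y hy c hc => (mul_le_of_le_one_right (norm_nonneg _) (B.pos y hy).2.1).trans
          ((norm_le_pi_norm c i).trans hc)⟩
      · exact (hg _ (by cases i; exacts [hθ, hz _])).imp fun C hC y hy _ _ => hC y hy)
    (j₃ (j₂ q₁) * A₁)
  refine ⟨N'.totalDegree, a, e, ∏ l, q₃ l, N', ?_, fun i => degreeOf_le_totalDegree _ _,
    fun R => ?_⟩
  · have h0 : aeval s (∏ l, q₃ l) ≠ 0 := fun h0 => Finset.prod_ne_zero_iff.2
      (fun l _ => hq₃ l) (by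
        rw [← map_prod]
        exact (hv s _).symm.trans (congrArg Subtype.val h0))
    have := ae_neBot.2 B.ne
    obtain ⟨y, hy, hy'⟩ := (B.ae.and (Φ.ae _ h0)).exists
    refine ⟨y, hy, fun h1 => hy' ?_⟩
    exact (comp_aeval_apply s ((Pi.evalAlgHom ℂ _ y).comp Φ.fn) _).trans h1
  · choose C₁ hC₁ h₁ using fun l => (dom fun μ => coeff μ N').mul_mem_left
      (j₂ (∏ l' ∈ Finset.univ.erase l, q₃ l')) (hr₃ l) R
    obtain ⟨C₂, hC₂, h₂⟩ := ha R
    have hS : 0 ≤ ∑ l, C₁ l := Finset.sum_nonneg fun l _ => hC₁ l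
    refine ⟨∑ l, C₁ l + C₂, fun y hy c hsR hcR => ⟨?_, ?_⟩⟩
    · rcases isEmpty_or_nonempty (Fin D) with hD | hD
      · refine ⟨0, ?_⟩
        rw [Subsingleton.elim c 0, norm_zero, zero_pow he.ne', mul_zero]
        positivity
      obtain ⟨l, hl⟩ := Finite.exists_max fun l => ‖c l‖
      have hcl : ‖c‖ = ‖c l‖ := le_antisymm ((pi_norm_le_iff_of_nonneg (norm_nonneg _)).2 hl)
        (norm_le_pi_norm c l)
      obtain ⟨μ, hμ⟩ := h₁ l (Sum.elim (fun i => Φ.fn (s i) y) c)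
        ((pi_norm_le_iff_of_nonneg ((norm_nonneg _).trans hcR)).2 fun i => by
          rcases i with i | i
          exacts [(norm_le_pi_norm (fun i => Φ.fn (s i) y) i).trans hsR,
            (norm_le_pi_norm c i).trans hcR])
      have t : ψ₃ (j₃ (r₃ l)) = ψ₃ (j₃ (j₂ (q₃ l) * X (Sum.inr l) ^ e)) := hvl (by
        refine (er₃ l).trans ?_
        simp [ψ₂, j₃, ψ₃, vl, u₃, ι])
      have t' := congrArg (ev y c) t
      have ej : ∀ q, eval (Sum.elim (fun i => Φ.fn (s i) y) c) (j₂ q) =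
          eval (fun i => Φ.fn (s i) y) q := fun q => eval_rename _ _ _
      have t₂ := ((RingHom.congr_fun (e₂ y c) _).symm.trans t').trans
        (RingHom.congr_fun (e₂ y c) _)
      rw [map_mul, t₂, map_mul, map_pow, eval_X, ← mul_assoc, ej, ej, ← map_mul,
        Finset.prod_erase_mul _ _ (Finset.mem_univ l), norm_mul, norm_pow] at hμ
      refine ⟨μ, ?_⟩
      rw [hcl]
      refine hμ.trans (mul_le_mul_of_nonneg_right ?_ (norm_nonneg _))
      linarith [Finset.single_le_sum (fun l _ => hC₁ l) (Finset.mem_univ l)]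
    · have t : (∑ l, X l * C (aeval h (m l))) * ψ₃ (j₃ (j₂ q₁) * A₁) =
          eval₂ (ψ₃.comp j₃) (fun i => C (z i)) N' := hvl (by
        have a1 : vl (∑ l, X l * C (aeval h (m l))) =
            ∑ l, X l * C ((aeval h (m l) : Φ.R) : F) := by
          simp only [vl, map_sum, map_mul, map_X, map_C]; rfl
        have a2 : vl (ψ₃ (j₃ (j₂ q₁) * A₁)) = C (φ q₁) * (C (φ q₂) * map al A) := by
          rw [map_mul, map_mul, ← hj, ← hj]; exact congrArg _ hA₁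
        have a3 : vl (eval₂ (ψ₃.comp j₃) (fun i => C (z i)) N') =
            eval (fun i => C (z i : F)) (map ψ₂ N') := by
          rw [hom_eval₂, eval_map]; simp only [vl, map_C]; rfl
        rw [map_mul, a1, a2, a3, hN', map_mul, eval_C, eval_map, ← hA, map_mul, map_mul]
        ring)
      have t' := congrArg (ev y c) t
      rw [map_mul, hom_eval₂, e₂, show ev y c (ψ₃ _) = _ from RingHom.congr_fun (e₃ y c) _] at t'
      have t₃ : ev y c (∑ l, X l * C (aeval h (m l))) =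
          cb (fun l => Φ.fn (aeval h (m l))) c y := by
        simp only [ev, cb, map_sum, map_mul, eval₂Hom_X', eval₂Hom_C]; rfl
      have t₄ : (fun i => ev y c (C (z i))) = fun i => Φ.fn (z i) y := by simp [ev]
      rw [t₃, t₄] at t'
      rw [eval_map, ← t', norm_mul, mul_assoc, mul_comm]
      exact mul_le_mul_of_nonneg_right ((h₂ y hy c hcR).trans (by linarith)) (norm_nonneg _)

end Pool.Agent.Lib.KC
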