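import Pool.Agent.Lib.KC.Blue

/-! Project kc: the bottom of the tower against the multiplier. -/

open scoped Classical Topology ContDiff ComplexOrder Matrix ENNReal
open Set MeasureTheory Complex Metric Filter

noncomputable section

namespace Pool.Agent.Lib.KC

open Pool.Agent.Lib.SV (E nsq)
open Pool.Agent.Lib.HS32 Pool.Agent.Lib.KH
open MvPolynomial (eval)

namespace BOT

theorem cb_smul {Y : Type} {D : ℕ} (m : Fin D → Y → ℂ) (r : ℝ) (c : Fin D → ℂ) (y : Y) :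
    normSq (cb m (r • c) y) = r ^ 2 * normSq (cb m c y) := by
  have : cb m (r • c) y = r * cb m c y := by
    simp only [cb, Pi.smul_apply, real_smul, Finset.mul_sum, mul_assoc]
  rw [this, map_mul, normSq_ofReal, sq]

theorem cv_cont {k D : ℕ} (c : Fin D → MvPolynomial (Sx k) ℂ) : Continuous (cv c) :=
  continuous_pi fun l => MvPolynomial.continuous_eval (c l)

variable {n : ℕ} {M : Mf n} {A : An M}

theorem pn0 {D b : ℕ} (m : Fin D → M.X → ℂ) (w : (Sx A.k → ℂ) → Fin D → ℂ) {y : M.X}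
    (hy : y ∈ A.O) : 0 ≤ A.Pn m b w y :=
  mul_nonneg (normSq_nonneg _) (pow_nonneg (A.pos y hy).1.le _)

theorem step (K : Gmk A.toBs) {D b c x : ℕ} {m : Fin D → M.X → ℂ} {u v : M.X → ℂ}
    (hm : ∀ i, A.toBs.Gm 0 b (m i)) (hr : A.toBs.Rt A.s m c) (hu : A.toBs.Gn x c u)
    (hv : A.toBs.Gn x c v) : ∀ᵐ y₀ ∂M.mu A.H, ∃ (w : (Sx A.k → ℂ) → Fin D → ℂ) (C : ℝ),
      A.Un y₀ w ∧ 0 ≤ C ∧ ∀ y ∈ A.bx y₀ 1, normSq (u y) * A.Pn m b w y ≤ C * normSq (v y) := by
  obtain ⟨α, β, -, nb, e⟩ := hr x u v hu hv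
  obtain ⟨a', g⟩ := K.cmb β A.hs hm
  obtain ⟨C, C0, hC⟩ := K.lip hm
  filter_upwards [K.aez ⟨g, nb⟩] with y₀ h0
  have h1 : 0 < ‖cv β (A.s · y₀)‖ := norm_pos_iff.2 fun h => h0.2 (by simp [h, cb])
  obtain ⟨R, hR⟩ := (isCompact_closedBall (A.s · y₀) 1).exists_bound_of_continuousOn
    (cv_cont α).continuousOn
  have R0 : 0 < max R 1 := lt_max_of_lt_right one_pos
  refine ⟨fun s => ‖cv β (A.s · y₀)‖⁻¹ • cv β s, ‖cv β (A.s · y₀)‖⁻¹ ^ 2 * (max R 1 ^ 2 * C),
    ⟨(cv_cont β).fun_const_smul _, ?_⟩, by positivity, fun y hy => ?_⟩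
  · rw [norm_smul, norm_inv, norm_norm, inv_mul_cancel₀ h1.ne']
  have h2 : ‖(max R 1)⁻¹ • cv α (A.s · y)‖ ≤ 2 := by
    rw [norm_smul, norm_inv, Real.norm_of_nonneg R0.le, inv_mul_le_iff₀ R0]
    linarith [hR _ (mem_closedBall_iff_norm.2 hy.2), le_max_left R 1]
  have h3 := mul_le_mul_of_nonneg_left (hC y hy.1 _ _ h2 h2).1 (sq_nonneg (max R 1))
  rw [← mul_assoc, ← cb_smul, smul_inv_smul₀ R0.ne'] at h3
  have h4 := congrArg normSq (e y hy.1)
  rw [map_mul, map_mul] at h4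
  rw [An.Pn, cb_smul]
  calc _ = ‖cv β (A.s · y₀)‖⁻¹ ^ 2 * (normSq (u y) * normSq (cb m (cv β (A.s · y)) y) * A.p y ^ b) := by
        ring
    _ = ‖cv β (A.s · y₀)‖⁻¹ ^ 2 * (normSq (cb m (cv α (A.s · y)) y) * A.p y ^ b) * normSq (v y) := by
        rw [h4]
        ring
    _ ≤ _ := mul_le_mul_of_nonneg_right (mul_le_mul_of_nonneg_left h3 (sq_nonneg _)) (normSq_nonneg _)

end BOT

theorem cBOT (hGMK : St_GMK) : St_BOT := by
  intro n M _ A D b D' b' a Q m m' G Ω hm hr hm' hr' hG G0 hΩ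
  have K := hGMK n M A.toBs
  have g1 : ∀ x i, A.toBs.Gn (x * (i + 1)) (2 * A.c0) fun y => G (x * i) y * G x y := fun x i => by
    rw [mul_add_one, two_mul]
    exact K.nmul (hG _) (hG _)
  have g2 : ∀ x, A.toBs.Gn x (2 * A.c0) (G x) := fun x => ⟨K.mono (by omega) (hG x).1, (hG x).2⟩
  filter_upwards [ae_all_iff.2 fun i => BOT.step K hm hr (g1 a i) (g2 _),
    ae_all_iff.2 fun i => BOT.step K hm hr (g2 _) (g1 Q i),
    BOT.step K hm' hr' (u := G Q) (v := Ω) ⟨K.mono (by omega) (hG Q).1, (hG Q).2⟩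
      ⟨K.mono (by omega) hΩ.1, hΩ.2⟩] with y₀ h1 h2 h3
  choose w C hw C0 hC using h1
  choose w' C' hw' C0' hC' using h2
  obtain ⟨u', C'', hu', C0'', hC''⟩ := h3
  refine ⟨Fin.append (fun i : Fin Q => w i) fun i : Fin a => w' i, u',
    (∏ i ∈ Finset.range Q, C i) * (∏ i ∈ Finset.range a, C' i) * C'' ^ a, fun i => ?_, hu',
    fun y hy => ?_⟩
  · refine Fin.addCases (fun i => ?_) (fun i => ?_) i
    · rw [Fin.append_left]
      exact hw i
    · rw [Fin.append_right]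
      exact hw' i
  have p1 : ∀ i, 0 ≤ ∏ j ∈ Finset.range i, C j := fun i => Finset.prod_nonneg fun j _ => C0 j
  have p2 : ∀ i, 0 ≤ ∏ j ∈ Finset.range i, C' j := fun i => Finset.prod_nonneg fun j _ => C0' j
  have i1 : ∀ i, normSq (G a y) ^ i * ∏ j ∈ Finset.range i, A.Pn m b (w j) y ≤
      (∏ j ∈ Finset.range i, C j) * normSq (G (a * i) y) := fun i => by
    induction i with
    | zero => simp [G0]
    | succ i ih =>
      have a1 := mul_le_mul_of_nonneg_right ih (mul_nonneg (normSq_nonneg (G a y)) (BOT.pn0 (b := b) m (w i) hy.1))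
      have a2 := mul_le_mul_of_nonneg_left (hC i y hy) (p1 i)
      rw [map_mul] at a2
      rw [Finset.prod_range_succ, Finset.prod_range_succ, pow_succ]
      linarith
  have i2 : ∀ i, normSq (G (Q * i) y) * ∏ j ∈ Finset.range i, A.Pn m b (w' j) y ≤
      (∏ j ∈ Finset.range i, C' j) * normSq (G Q y) ^ i := fun i => by
    induction i with
    | zero => simp [G0]
    | succ i ih =>
      have a1 := mul_le_mul_of_nonneg_right ih (mul_nonneg (normSq_nonneg (G Q y)) (C0' i))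
      have a2 := mul_le_mul_of_nonneg_left (hC' i y hy)
        (Finset.prod_nonneg fun j (_ : j ∈ Finset.range i) => BOT.pn0 (b := b) m (w' j) hy.1)
      rw [map_mul] at a2
      rw [Finset.prod_range_succ, Finset.prod_range_succ, pow_succ]
      linarith
  have q0 := pow_nonneg (BOT.pn0 (b := b') m' u' hy.1) a
  have a1 := mul_le_mul_of_nonneg_right (i1 Q) (mul_nonneg
    (Finset.prod_nonneg fun j (_ : j ∈ Finset.range a) => BOT.pn0 (b := b) m (w' j) hy.1) q0)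
  have a2 := mul_le_mul_of_nonneg_right (i2 a) (mul_nonneg (p1 Q) q0)
  have a3 := mul_le_mul_of_nonneg_left (pow_le_pow_left₀
    (mul_nonneg (normSq_nonneg _) (BOT.pn0 m' u' hy.1)) (hC'' y hy) a) (mul_nonneg (p1 Q) (p2 a))
  rw [mul_pow, mul_pow] at a3
  rw [mul_comm Q a] at a2
  simp only [Fin.prod_univ_add, Fin.append_left, Fin.append_right]
  rw [Fin.prod_univ_eq_prod_range fun j => A.Pn m b (w j) y,
    Fin.prod_univ_eq_prod_range fun j => A.Pn m b (w' j) y]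
  linarith

end Pool.Agent.Lib.KC
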