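import Pool.Agent.Lib.KC.Blue
import Pool.Agent.Lib.KB47.Test

/-! Project kc: the cut-off function. -/

open scoped Topology ContDiff ComplexOrder Matrix
open Set Complex Filter

noncomputable section

namespace Pool.Agent.Lib.KC

open Pool.Agent.Lib.SV (E nsq)
open Pool.Agent.Lib.HS32 Pool.Agent.Lib.KH Pool.Agent.Lib.KH.MAX
open Pool.Agent.Lib.KB47 (ct ct_cd ct_b dw_mul dw_comp dw_add lw_add lw_const nsq_rule sq_rule
  log_rule dh dbv_mul)

namespace CHI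

variable {n : ℕ} {z : E n} {τ : Type} [Fintype τ]

theorem prd {ι : Type} (S : Finset ι) {u : ι → E n → ℝ} (hu : ∀ i, ContDiffAt ℝ ∞ (u i) z)
    (hb : ∀ i, 0 ≤ u i z ∧ u i z ≤ 1) (v : E n) :
    ‖dw (fun x => ∏ i ∈ S, u i x) z v‖ ≤ ∑ i ∈ S, ‖dw (u i) z v‖ := by
  classical
  induction S using Finset.induction_on with
  | empty => simp [dw]
  | insert a S ha ih =>
    have h1 : ContDiffAt ℝ ∞ (fun x => ∏ i ∈ S, u i x) z := contDiffAt_prod fun i _ => hu i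
    have p0 : 0 ≤ ∏ i ∈ S, u i z := Finset.prod_nonneg fun i _ => (hb i).1
    have p1 : ∏ i ∈ S, u i z ≤ 1 := Finset.prod_le_one (fun i _ => (hb i).1) fun i _ => (hb i).2
    simp only [Finset.prod_insert ha, Finset.sum_insert ha]
    rw [dw_mul (hu a) h1]
    refine (norm_add_le _ _).trans ?_
    rw [norm_mul, norm_mul, Complex.norm_real, Complex.norm_real, Real.norm_of_nonneg (hb a).1,
      Real.norm_of_nonneg p0]
    linarith [mul_le_of_le_one_left (norm_nonneg (dw (fun x => ∏ i ∈ S, u i x) z v)) (hb a).2,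
      mul_le_of_le_one_left (norm_nonneg (dw (u a) z v)) p1]

theorem lev {s : τ → E n → ℂ} (h : ∀ i, HolN (s i) z) (v : E n) :
    ContDiffAt ℝ ∞ (fun x => Real.log (1 + nsq (s · x))) z ∧
      ∑ i, ‖dh (s i) z v‖ ^ 2 ≤ (1 + nsq (s · z)) ^ 2 *
        lw (fun x => Real.log (1 + nsq (s · x))) z v := by
  obtain ⟨a0, -, a2⟩ := sq_rule h v
  have S0 : 0 ≤ ∑ i, normSq (s i z) := Finset.sum_nonneg fun i _ => normSq_nonneg _
  have c1 : ContDiffAt ℝ ∞ (fun _ : E n => (1 : ℝ)) z := contDiffAt_const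
  obtain ⟨b0, b1⟩ := log_rule (c1.add a0) (by positivity) v
  have e : lw (fun x => ∑ i, normSq (s i x)) z v = ∑ i, ‖dh (s i) z v‖ ^ 2 := by
    rw [(sum_rule Finset.univ (fun i => BHOL.cd_nsq (BHOL.smooth (h i))) v).1]
    exact Finset.sum_congr rfl fun i _ => (nsq_rule (h i) v).1.trans (normSq_eq_norm_sq _)
  have d0 : dw (fun _ : E n => (1 : ℝ)) z v = 0 := by simp [dw]
  rw [lw_add c1 a0, dw_add c1 a0, lw_const, d0, zero_add, zero_add, e] at b1
  rw [e] at a2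
  refine ⟨b0, le_of_le_of_eq ?_ b1.symm⟩
  linarith

/-- The cut-off in the coordinates. -/
def cf (s₀ : τ → ℂ) (ρ : ℝ) (t : τ → ℂ) : ℝ := ∏ i, ct (ρ ^ 2 / 4) (normSq (t i - s₀ i))

variable {s₀ t : τ → ℂ} {ρ : ℝ}

theorem cf_b (h : 0 < ρ) (t : τ → ℂ) : 0 ≤ cf s₀ ρ t ∧ cf s₀ ρ t ≤ 1 :=
  ⟨Finset.prod_nonneg fun _ _ => (ct_b (by positivity) _).1,
    Finset.prod_le_one (fun _ _ => (ct_b (by positivity) _).1)
      fun _ _ => (ct_b (by positivity) _).2.1⟩

theorem cf_one (h : 0 < ρ) (ht : ‖t - s₀‖ ≤ ρ / 2) : cf s₀ ρ t = 1 :=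
  Finset.prod_eq_one fun i _ => (ct_b (by positivity) _).2.2.1 (by
    have := pow_le_pow_left₀ (norm_nonneg _) ((norm_le_pi_norm (t - s₀) i).trans ht) 2
    rw [normSq_eq_norm_sq]
    exact this.trans_eq (by ring))

theorem cf_zero (h : 0 < ρ) (ht : ρ ≤ ‖t - s₀‖) : cf s₀ ρ t = 0 := by
  by_contra h0
  refine ht.not_gt ((pi_norm_lt_iff h).2 fun i => ?_)
  by_contra h1
  refine h0 (Finset.prod_eq_zero (Finset.mem_univ i) ((ct_b (by positivity) _).2.2.2 ?_))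
  have := pow_le_pow_left₀ h.le (not_lt.1 h1) 2
  rw [normSq_eq_norm_sq]
  exact le_trans (by nlinarith) this

theorem sb {f : E n → ℂ} (h : HolN f z) (c : ℂ) (v : E n) :
    HolN (fun x => f x - c) z ∧ dh (fun x => f x - c) z v = dh f z v :=
  ⟨h.mono fun _ hw => hw.sub_const c, by
    simp only [dh, dz_sub (cd_diff (BHOL.smooth h)) (differentiableAt_const c), dz_const, sub_zero]⟩

omit [Fintype τ] in
theorem cf_cd {s : τ → E n → ℂ} (h : ∀ i, HolN (s i) z) (i : τ) :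
    ContDiffAt ℝ ∞ (fun x => ct (ρ ^ 2 / 4) (normSq (s i x - s₀ i))) z :=
  (ct_cd _).contDiffAt.comp z (BHOL.cd_nsq (BHOL.smooth (sb (h i) _ 0).1))

theorem loc (s₀ : τ → ℂ) (h : 0 < ρ) : ∃ C, 0 ≤ C ∧ ∀ (n : ℕ) (s : τ → E n → ℂ) (z v : E n),
    (∀ i, HolN (s i) z) → normSq (dw (fun x => cf s₀ ρ (s · x)) z v) ≤
      {t | ρ / 2 ≤ ‖t - s₀‖ ∧ ‖t - s₀‖ ≤ ρ}.indicator (fun _ => C) (s · z) *
        lw (fun x => Real.log (1 + nsq (s · x))) z v := by
  obtain ⟨D, hD⟩ := (isCompact_Icc (a := (0 : ℝ)) (b := ρ ^ 2)).exists_bound_of_continuousOn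
    ((ct_cd (ρ ^ 2 / 4)).continuous_deriv (by simp)).continuousOn
  have D0 : 0 ≤ D := (norm_nonneg _).trans (hD 0 ⟨le_rfl, by positivity⟩)
  refine ⟨Fintype.card τ * (D * ρ) ^ 2 * (1 + Fintype.card τ * (‖s₀‖ + ρ) ^ 2) ^ 2, by positivity,
    fun n s z v hs => ?_⟩
  have cs : ContinuousAt (fun x => ‖(s · x) - s₀‖) z :=
    ((continuousAt_pi.2 fun i => (hs i).self_of_nhds.continuousAt).sub continuousAt_const).norm
  have cst (c : ℝ) (e : ∀ᶠ x in 𝓝 z, cf s₀ ρ (s · x) = c) :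
      normSq (dw (fun x => cf s₀ ρ (s · x)) z v) = 0 := by
    have e' : (fun x => ((cf s₀ ρ (s · x) : ℝ) : ℂ)) =ᶠ[𝓝 z] fun _ => (c : ℂ) :=
      e.mono fun x hx => congrArg ofReal hx
    simp [dw, dz_congr e']
  by_cases hz : (s · z) ∈ {t : τ → ℂ | ρ / 2 ≤ ‖t - s₀‖ ∧ ‖t - s₀‖ ≤ ρ}
  swap
  · rw [indicator_of_notMem hz, zero_mul]
    rcases not_and_or.1 hz with h1 | h1
    · exact (cst 1 ((cs.eventually (gt_mem_nhds (not_le.1 h1))).mono fun x hx => cf_one h hx.le)).le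
    · exact (cst 0 ((cs.eventually (lt_mem_nhds (not_le.1 h1))).mono fun x hx => cf_zero h hx.le)).le
  rw [indicator_of_mem hz]
  have b1 (i) : ‖s i z - s₀ i‖ ≤ ρ := (norm_le_pi_norm ((s · z) - s₀) i).trans hz.2
  have b2 (i) : ‖dw (fun x => ct (ρ ^ 2 / 4) (normSq (s i x - s₀ i))) z v‖ ≤
      D * ρ * ‖dh (s i) z v‖ := by
    obtain ⟨a1, a2⟩ := sb (hs i) (s₀ i) v
    rw [dw_comp ((ct_cd _).differentiable (by simp) _).hasDerivAt (BHOL.cd_nsq (BHOL.smooth a1)),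
      (nsq_rule a1 v).2, a2, norm_mul, norm_mul, norm_star, Complex.norm_real, ← mul_assoc]
    refine mul_le_mul_of_nonneg_right (mul_le_mul (hD _ ⟨normSq_nonneg _, ?_⟩) (b1 i)
      (norm_nonneg _) D0) (norm_nonneg _)
    rw [normSq_eq_norm_sq]
    exact pow_le_pow_left₀ (norm_nonneg _) (b1 i) 2
  have b3 := (prd Finset.univ (cf_cd (ρ := ρ) (s₀ := s₀) hs)
    (fun i => ⟨(ct_b (by positivity) _).1, (ct_b (by positivity) _).2.1⟩) v).trans
    (Finset.sum_le_sum fun i _ => b2 i)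
  have b4 := (pow_le_pow_left₀ (norm_nonneg _) b3 2).trans
    (sq_sum_le_card_mul_sum_sq (s := Finset.univ))
  have b5 : nsq (s · z) ≤ Fintype.card τ * (‖s₀‖ + ρ) ^ 2 := by
    rw [nsq, ← nsmul_eq_mul]
    refine Finset.sum_le_card_nsmul _ _ _ fun i _ => ?_
    rw [normSq_eq_norm_sq]
    refine pow_le_pow_left₀ (norm_nonneg _) ?_ 2
    linarith [norm_sub_norm_le (s i z) (s₀ i), b1 i, norm_le_pi_norm s₀ i]
  have S0 : 0 ≤ nsq (s · z) := Finset.sum_nonneg fun i _ => normSq_nonneg _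
  have b6 := (lev hs v).2
  have L0 : 0 ≤ lw (fun x => Real.log (1 + nsq (s · x))) z v :=
    le_of_mul_le_mul_left ((mul_zero _).le.trans
      ((Finset.sum_nonneg fun i _ => sq_nonneg _).trans b6)) (by positivity)
  have b7 := b6.trans (mul_le_mul_of_nonneg_right
    (pow_le_pow_left₀ (by positivity) (add_le_add le_rfl b5) 2) L0)
  simp only [mul_pow, ← Finset.mul_sum, Finset.card_univ] at b4
  rw [normSq_eq_norm_sq]
  refine b4.trans ?_
  rw [← mul_pow, ← mul_assoc, mul_assoc _ _ (lw _ z v)]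
  exact mul_le_mul_of_nonneg_left b7 (by positivity)

end CHI

open CHI in
theorem cCHI : St_CHI := by
  intro n M O τ _ s s₀ ρ e₁ _ hs h he
  obtain ⟨C, C0, hC⟩ := loc s₀ h
  have p : KB47.PsK M O fun y => e₁ * Real.log (1 + nsq (s · y)) := by
    have := (KB47.psK_lsq hs one_pos).mul he.le
    simpa only [add_comm _ (1 : ℝ), nsq] using this
  have c (e) (he : e ∈ M.C) (z) (hz : z ∈ e.target) (ho : e.symm z ∈ O) :
      ContDiffAt ℝ ∞ (fun x => cf s₀ ρ (s · (e.symm x))) z :=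
    contDiffAt_prod fun i _ => cf_cd (fun i => hs i e he z hz ho) i
  refine ⟨fun y => cf s₀ ρ (s · y), C / e₁, by positivity, fun y => cf_b h _,
    fun y hy => cf_one h hy, fun y hy => cf_zero h hy, p.sm,
    fun e he z hz ho => cd_ofReal (c e he z hz ho),
    fun x _ => indicator_nonneg (fun _ _ => by positivity) _, p.pos, fun e hc z hz ho v => ?_⟩
  have k := hC n (fun i x => s i (e.symm x)) z v fun i => hs i e hc z hz ho
  have e1 := dbv_mul (A := fun _ => 1) (Eventually.of_forall fun _ => differentiableAt_const _)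
    (c e hc z hz ho) v
  have e2 := mul_rule e₁ (lev (s := fun i x => s i (e.symm x))
    (fun i => hs i e hc z hz ho) v).1 v
  simp only [mul_one, map_one, one_mul] at e1
  refine (e1.trans_le k).trans_eq (Eq.trans ?_ (congrArg (_ * ·) e2.symm))
  rw [← mul_assoc]
  refine congrArg (· * _) ?_
  by_cases hz : ρ / 2 ≤ ‖(s · (e.symm z)) - s₀‖ ∧ ‖(s · (e.symm z)) - s₀‖ ≤ ρ
  · rw [indicator_of_mem (by exact hz), indicator_of_mem (by exact hz),
      div_mul_cancel₀ _ he.ne']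
  · rw [indicator_of_notMem (by exact hz), indicator_of_notMem (by exact hz), zero_mul]

end Pool.Agent.Lib.KC
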