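import Pool.Agent.Lib.KB47.Tra
import Pool.Agent.Lib.KB47.Core
import Pool.Agent.Lib.KB47.Dens

/-! Project kc, row CON: the concentration. -/

open scoped Topology ENNReal
open Set MeasureTheory Complex Filter

noncomputable section

namespace Pool.Agent.Lib.KC

open Pool.Agent.Lib.SV (E nsq)
open Pool.Agent.Lib.HS32 Pool.Agent.Lib.KH Pool.Agent.Lib.KB47.Tra
open Pool.Agent.Lib.KB14 (mn er be)
open Pool.Agent.Lib.KB47 (PsK psK_of psK_log ct ct_b test core)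
open Pool.Agent.Lib.KB47.Cr (mn_b)

theorem cCON (hGMK : St_GMK) (hKRK : St_KRK) (hSOL : St_SOL) (hTEL : St_TEL) (hCST : St_CST) :
    St_CON := by
  intro n M _ A D c₀ Q₀ e κ hQ e0 κ0 S
  have G := hGMK n M A.toBs
  have := G.fin
  obtain ⟨C, c, c0, pk⟩ := S.pk
  obtain ⟨ρw, ρw0, K, pw⟩ := S.pw
  obtain ⟨ρl, ρl0, L, Θ, L0, -, lp⟩ := S.lp
  obtain ⟨ε, hε⟩ : ∃ ε, ε = D.κ0 / 2 := ⟨_, rfl⟩
  have ε0 : 0 < ε := hε ▸ half_pos D.κ0p
  rw [← hε] at pk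
  obtain ⟨K₁, hK₁⟩ : ∃ K₁, K₁ = Real.log (2 + 2 * nsq (A.s · S.y₀)) := ⟨_, rfl⟩
  obtain ⟨K', hK'⟩ : ∃ K', K' = K + ε * K₁ := ⟨_, rfl⟩
  obtain ⟨θ, e₃, e', δ, a, Lv, θ0, θm, f0, f1, e0', e1, δ0, hc⟩ := core (C := C)
    (K := 2 * Real.exp (2 * K')) (θm := min (1 / 4) (κ / (6 * A.c0 + 1))) S.t0 c0
    (by positivity) (by positivity)
  obtain ⟨i, i', ii, pk⟩ := pk δ δ0 Lv
  obtain ⟨j, j1, j2⟩ : ∃ j, i' + Lv ≤ j ∧ (A.c0 : ℝ) * 2 ^ i' / 2 ^ j ≤ κ / 3 := by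
    obtain ⟨j, hj⟩ := pow_unbounded_of_one_lt ((A.c0 : ℝ) * 2 ^ i' / (κ / 3)) one_lt_two
    refine ⟨max j (i' + Lv), le_max_right _ _, ?_⟩
    rw [div_le_comm₀ (by positivity) (by positivity)]
    exact hj.le.trans (pow_le_pow_right₀ one_le_two (le_max_left _ _))
  obtain ⟨ρ₁, ρ₁0, pk⟩ := pk j
  obtain ⟨ρ, ρ0, ρ1, ρ2, ρ3⟩ : ∃ ρ, 0 < ρ ∧ ρ ≤ ρ₁ ∧ ρ ≤ ρw ∧ ρ ≤ ρl :=
    ⟨min ρ₁ (min ρw ρl), by positivity, min_le_left _ _, (min_le_right _ _).trans (min_le_left _ _),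
      (min_le_right _ _).trans (min_le_right _ _)⟩
  have d0 : 0 < ρ ^ 2 / 2 := by positivity
  obtain ⟨Cc, Cc0, ht⟩ := test d0
  obtain ⟨η, η0, hc⟩ := hc (ε⁻¹ * Cc) (by positivity)
  obtain ⟨δ', δ'0, hδ'⟩ : ∃ δ', 0 < δ' ∧ δ' * ((A.k + 1) * L ^ 2) = ρ ^ 2 / 2 :=
    ⟨ρ ^ 2 / 2 / ((A.k + 1) * L ^ 2), by positivity, by field_simp⟩
  have μ0 : 0 ≤ (M.mu A.H).real univ := measureReal_nonneg
  obtain ⟨r, r0, r1, m0, -, hP, hcl, hph, hϖ, hV⟩ := pk ρ ⟨ρ0, ρ1⟩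
    (min 1 (c * η * δ' ^ (A.k + 1) / ((M.mu A.H).real univ + 1))) (by positivity)
  obtain ⟨Ψ, hΨ, ⟨C₂, hΨ2⟩, hΨ3⟩ := pw r ⟨r0, r1.trans (min_le_left _ _)⟩
  have hK := hKRK n M A S.y₀ ρ r r0
  have h0 : A.kr S.y₀ ρ r univ ≠ 0 := ((ENNReal.ofReal_pos.2 c0).trans_le m0).ne'
  have := hK.prob h0
  have hG := G.nmul (G.nmul (G.nmul (G.nmul (G.nmul (S.hg 0) (S.hg i)) (S.hg i')) (S.hg j)) S.hΩ) hQ
  have hO := G.opn hG.1
  have hq := D.hq _ _ _ hG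
  have hae := G.aez hG
  obtain ⟨O, hOd⟩ : ∃ O, O = A.O ∩
    {y | S.g 0 y * S.g i y * S.g i' y * S.g j y * S.Ω y * Q₀ y ≠ 0} := ⟨_, rfl⟩
  rw [← hOd] at hO hq
  have nz : ∀ y ∈ O, y ∈ A.O ∧ 0 < normSq (S.g 0 y) ∧ 0 < normSq (S.g i y) ∧
      0 < normSq (S.g i' y) ∧ 0 < normSq (S.g j y) ∧ 0 < normSq (S.Ω y) ∧ 0 < normSq (Q₀ y) :=
    fun y hy => by simpa only [hOd, mem_inter_iff, mem_ofPred_eq, mul_ne_zero_iff, normSq_pos,
      and_assoc] using hy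
  have sub : O ⊆ A.O := fun y hy => (nz y hy).1
  replace hae : ∀ᵐ y ∂M.mu A.H, y ∈ O := hOd ▸ hae
  have ho {g : M.X → ℂ} (h : HoK M A.O g) : HoK M O g := fun u hu z hz hy => h u hu z hz (sub hy)
  obtain ⟨lam, hl⟩ : ∃ lam : M.X → ℝ, lam = fun y => Real.log (normSq (S.g j y)) / 2 ^ j := ⟨_, rfl⟩
  have pl (u : ℝ) : PsK M O fun y => u * lam y :=
    cgr hO (psK_log (ho (S.hg j).1.1) (fun y hy => normSq_pos.1 (nz y hy).2.2.2.2.1) (u / 2 ^ j))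
      fun y _ => by rw [hl]; ring
  obtain ⟨b, hb⟩ : ∃ b : ℕ → M.X → ℝ, b = fun l y => normSq (S.g l y) * Real.exp (-(2 ^ l * lam y)) :=
    ⟨_, rfl⟩
  have pb (l : ℕ) (h : ∀ y ∈ O, 0 < normSq (S.g l y)) : PsK M O fun y => Real.log (b l y) :=
    cgr hO ((psK_log (ho (S.hg l).1.1) (fun y hy => normSq_pos.1 (h y hy)) 1).add (pl (-2 ^ l)))
      fun y hy => by
        simp only [hb]
        rw [Real.log_mul (h y hy).ne' (Real.exp_pos _).ne', Real.log_exp]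
        ring
  have b0 : ∀ y ∈ O, 0 < b i y ∧ 0 < b i' y := fun y hy => hb ▸
    ⟨mul_pos (nz y hy).2.2.1 (Real.exp_pos _), mul_pos (nz y hy).2.2.2.1 (Real.exp_pos _)⟩
  obtain ⟨Φ, β, Γ, hD, hβ, hf⟩ := ht n M O (Sx A.k) (fun l y => A.s l y - A.s l S.y₀)
    (fun y => S.g i' y * (S.g i y)⁻¹) (b i) (b i') (fun y => Real.exp ((2 ^ i' - 2 ^ i) * lam y))
    (fun y => (2 ^ i' - 2 ^ i - S.x) * lam y + Ψ y + e * Real.log (normSq (Q₀ y))) θ ε e₃ e' hO θ0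
    ε0 f0 e0' (fun l u hu z hz hy => (ho (A.hs l).1 u hu z hz hy).mono fun _ h => h.sub_const _)
    (hdiv hO (ho (S.hg i').1.1) (ho (S.hg i).1.1) fun y hy => normSq_pos.1 (nz y hy).2.2.1)
    (fun y hy => ⟨(b0 y hy).1, (b0 y hy).2, by
      have := (nz y hy).2.2.1
      simp only [hb]
      rw [mul_assoc (normSq (S.g i' y)), ← Real.exp_add, map_mul, map_inv₀, mul_assoc,
        inv_mul_cancel_left₀ this.ne']
      refine congrArg (_ * Real.exp ·) ?_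
      ring⟩) (pb i fun y hy => (nz y hy).2.2.1) (pb i' fun y hy => (nz y hy).2.2.2.1)
    (((pl _).add ((psK_of hΨ.1 hΨ.2).mono fun y hy =>
      ⟨sub hy, normSq_pos.1 (nz y hy).2.2.2.2.2.1⟩)).add
      (psK_log (ho hQ.1.1) (fun y hy => normSq_pos.1 (nz y hy).2.2.2.2.2.2) e))
  obtain ⟨f, hfd⟩ : ∃ f : M.X → ℝ, f = fun y => nsq ((A.s · y) - (A.s · S.y₀)) := ⟨_, rfl⟩
  have fe (y) : ∑ l, normSq (A.s l y - A.s l S.y₀) = f y := hfd ▸ rfl
  simp only [fe] at hf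
  have cf : ContinuousOn f A.O := hfd ▸ continuousOn_finsetSum _ fun l _ =>
    continuous_normSq.comp_continuousOn ((G.cnt (A.hs l)).sub continuousOn_const)
  have hT : MeasurableSet (A.O ∩ f ⁻¹' Iio (ρ ^ 2 / 2))ᶜ :=
    (cf.isOpen_inter_preimage A.opn isOpen_Iio).measurableSet.compl
  obtain ⟨w, hw⟩ : ∃ w : M.X → ℝ,
    w = fun y => Real.exp (S.x * lam y) * (normSq (S.g 0 y) ^ S.x)⁻¹ := ⟨_, rfl⟩
  have ph0 : ∀ y ∈ A.O, 0 ≤ A.ph D.x0 S.x S.θ e ε (S.g 0) S.Ω Q₀ y := fun y hy => by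
    have := (A.pos y hy).2.2
    have := normSq_nonneg (S.g 0 y)
    have := normSq_nonneg (S.Ω y)
    have := normSq_nonneg (Q₀ y)
    have := n0 (A.s · y)
    unfold An.ph
    positivity
  obtain ⟨k1, k2⟩ := hc M.X (A.nu S.y₀ ρ r) S.P S.P' i i' j S.x _ (b i) (b i') w _ _ (by omega) j1
    S.x0 S.xt hP (fun l hl => (hK.nae _).2 (Eventually.of_forall (hcl l hl)))
    (by
      have a1 : ∀ᵐ y ∂A.nu S.y₀ ρ r, y ∈ A.O ∧ ∀ l, S.g l y ≠ 0 := (hK.nae _).2 (by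
        filter_upwards [ae_all_iff.2 fun l => G.aez (S.hg l)] with y hy _
        exact ⟨(hy 0).1, fun l => (hy l).2⟩)
      have a2 : ∀ᵐ y ∂A.nu S.y₀ ρ r, ∀ l, l < j → 0 < S.P l y := ae_all_iff.2 fun l => by
        by_cases hl : l < j
        · exact (hP l hl).1.2.1.mono fun y hy _ => hy.1
        · exact Eventually.of_forall fun y h => (hl h).elim
      filter_upwards [a1, a2] with y h1 h2
      obtain ⟨t1, t2⟩ := hTEL M.X (fun l y => normSq (S.g l y)) S.P S.P' y j S.x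
        (fun l _ => normSq_pos.2 (h1.2 l)) fun l hl => ⟨h2 l hl, S.rel l y h1.1⟩
      refine ⟨?_, ?_, ?_, ph0 y h1.1⟩
      · rw [hb, hl]
        exact t1 i (by omega)
      · rw [hb, hl]
        exact t1 i' (by omega)
      · simp only [hw, hl]
        rw [t2, mul_right_comm, mul_inv_cancel₀ (Real.rpow_pos_of_pos (normSq_pos.2 (h1.2 0)) _).ne',
          one_mul]) hph hT
    (by
      have k := tail hK h0 hT c0 (by positivity : 0 ≤ r ^ 2 / δ' ^ (A.k + 1)) m0 fun y hy h =>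
        k_le δ'0 (by
          have h1 : ρ ^ 2 / 2 ≤ f y := not_lt.1 fun h' => h ⟨hy.1, h'⟩
          have h2 := nsq_le ((A.s · y) - (A.s · S.y₀))
          have h3 := pow_le_pow_left₀ (norm_nonneg _) (lp y ⟨hy.1, hy.2.trans ρ3⟩).2 2
          have h4 := le_nsq (tl (A.s · y) - tl (A.s · S.y₀))
          simp only [Fintype.card_option, Fintype.card_fin, Nat.cast_add, Nat.cast_one] at h2
          rw [hfd, ← hδ'] at h1
          have h5 : (0 : ℝ) < (A.k + 1) * L ^ 2 := by positivity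
          have h6 : δ' * ((A.k + 1) * L ^ 2) ≤
              nsq (tl (A.s · y) - tl (A.s · S.y₀)) * ((A.k + 1) * L ^ 2) := by
            refine (h1.trans h2).trans ((mul_le_mul_of_nonneg_left h3 (by positivity)).trans ?_)
            nlinarith [mul_le_mul_of_nonneg_left h4 h5.le]
          exact (le_of_mul_le_mul_right h6 h5).trans (le_add_of_nonneg_right (by positivity)))
      refine le_of_mul_le_mul_left (k.trans ?_) c0
      have h1 := (le_div_iff₀ (by positivity)).1 (r1.trans (min_le_right _ _))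
      have h2 : r * r ≤ r := mul_le_of_le_one_left r0.le (r1.trans (min_le_left _ _))
      rw [div_mul_eq_mul_div, div_le_iff₀ (by positivity)]
      nlinarith [mul_le_mul_of_nonneg_right h2 μ0]) hV
  obtain ⟨W, hW⟩ : ∃ W : M.X → ℝ, W = fun y => Real.exp ((2 ^ i' - 2 ^ i) * lam y) *
      Real.exp (-(ε * Real.log (f y + 1) + ((2 ^ i' - 2 ^ i - S.x) * lam y + Ψ y +
        e * Real.log (normSq (Q₀ y))))) * A.T y ^ D.x0 := ⟨_, rfl⟩
  obtain ⟨h, hh⟩ : ∃ h : M.X → ℝ, h = fun y => w y * A.ph D.x0 S.x S.θ e ε (S.g 0) S.Ω Q₀ y *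
      kk r (tl (A.s · S.y₀)) (tl (A.s · y)) := ⟨_, rfl⟩
  have W0 : ∀ y ∈ O, 0 ≤ W y := fun y hy => by
    have := (A.pos y (sub hy)).2.2
    rw [hW]
    positivity
  have hb2 : ∀ y ∈ O, y ∈ A.bx S.y₀ ρ → Real.exp (-K') * (r ^ 2)⁻¹ * h y ≤ W y ∧
      W y ≤ Real.exp K' * (r ^ 2)⁻¹ * h y := fun y hy hx => by
    obtain ⟨n1, n2, -, -, -, n3, n4⟩ := nz y hy
    have n5 := n0 (A.s · y)
    have n6 := n0 (tl (A.s · y) - tl (A.s · S.y₀))
    obtain ⟨d, d1, d2⟩ := wid (lam := lam y) (T := A.T y ^ D.x0) (u := 2 ^ i' - 2 ^ i) (x := S.x)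
      (e := e) n2 n3 n4 (by positivity) (by positivity) r0 ε0.le
      (hΨ3 y ⟨hx.1, hx.2.trans ρ2⟩ (normSq_pos.1 n3)) (lg (A.s · y) (A.s · S.y₀))
    have d3 : W y = Real.exp d * ((r ^ 2)⁻¹ * h y) := by
      simp only [hW, hh, hw, hfd]
      rw [d2, An.ph, kk]
      ring
    have d4 : 0 ≤ (r ^ 2)⁻¹ * h y :=
      nonneg_of_mul_nonneg_right (d3 ▸ W0 y hy) (Real.exp_pos d)
    rw [← hK₁, ← hK', abs_le] at d1
    rw [d3, mul_assoc, mul_assoc]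
    exact ⟨mul_le_mul_of_nonneg_right (Real.exp_le_exp.2 d1.1) d4,
      mul_le_mul_of_nonneg_right (Real.exp_le_exp.2 d1.2) d4⟩
  have g1 : ∀ y ∈ O, ∀ v, normSq (Γ y) * Real.exp (-Φ y) * (v * A.T y ^ D.x0) =
      ct (ρ ^ 2 / 2) (f y) ^ 2 * (mn θ e₃ e' (b i y) (b i' y) * v * W y) := fun y hy v => by
    rw [(hf y hy).2.1, hW]
    ring
  have out : ∀ y ∈ O, y ∉ A.bx S.y₀ ρ → 2 * (ρ ^ 2 / 2) < f y := fun y hy hx => by
    have h1 : ρ < ‖(A.s · y) - (A.s · S.y₀)‖ := not_le.1 fun h => hx ⟨sub hy, h⟩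
    have h2 := le_nsq ((A.s · y) - (A.s · S.y₀))
    simp only [hfd]
    nlinarith
  have c1 (t) : ct (ρ ^ 2 / 2) t ^ 2 ≤ 1 := pow_le_one₀ (ct_b d0 t).1 (ct_b d0 t).2.1
  have mb (y) (hy : y ∈ O) := mn_b (b0 y hy).1 (b0 y hy).2 e0' f0 θ0
  have mt := hK.fin
  have gen (v : M.X → ℝ) (v0 : ∀ y ∈ O, 0 ≤ v y) (hv : Jo M A.H A.O (fun y => v y ^ 4) ≠ ⊤) :
      Jo M A.H O (fun y => normSq (Γ y) * Real.exp (-Φ y) * (v y * A.T y ^ D.x0)) ≠ ⊤ := by
    refine ne_top_of_le_ne_top (ENNReal.mul_ne_top ENNReal.ofReal_ne_top (ENNReal.mul_ne_top mt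
      ((k2 v).2 (fin hK h0 r0 hv)))) (up (α := Real.exp K' * (r ^ 2)⁻¹) hK h0 (by positivity)
      hO.measurableSet fun y hy => ⟨fun hx => ?_, fun hx => ?_⟩)
    · have h1 := mul_nonneg (mb y hy).1 (v0 y hy)
      rw [g1 y hy]
      refine (mul_le_of_le_one_left (mul_nonneg h1 (W0 y hy)) (c1 _)).trans
        ((mul_le_mul_of_nonneg_left (hb2 y hy hx).2 h1).trans_eq ?_)
      rw [hh]
      ring
    · rw [g1 y hy, (ct_b d0 _).2.2.2 (out y hy hx).le]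
      simp
  have N1 : ∀ y ∈ O, 1 ≤ A.N y := fun y hy =>
    (le_add_of_nonneg_right (n0 _)).trans (A.hN y (sub hy))
  have N2 : ∀ y ∈ O, 1 ≤ A.N y ^ D.κ0 := fun y hy => Real.one_le_rpow (N1 y hy) D.κ0p.le
  have α0 : 0 < Real.exp (-K') * (r ^ 2)⁻¹ := by positivity
  obtain ⟨F, F1, F2, F3⟩ := hSOL n M A.H O _ _ Φ β Γ hO hq
    (((A.cN.rpow_const fun _ _ => Or.inr D.κ0p.le).mul
      (G.cT.rpow_const fun _ _ => Or.inr D.x0p.le)).mono sub)
    (fun y hy => mul_nonneg (zero_le_one.trans (N2 y hy))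
      (Real.rpow_nonneg (A.pos y (sub hy)).2.2.le _)) (hβ _) hD
    (fun l => gen _ (fun y _ => (D.cϖ l).2 y) (ne_top_of_le_ne_top ENNReal.ofReal_ne_top (D.mom l)))
    (gen _ (fun y hy => zero_le_one.trans (N2 y hy)) D.mN)
    ⟨_, (ENNReal.mul_lt_mul_right (ENNReal.ofReal_pos.2 α0).ne' ENNReal.ofReal_ne_top
      (ENNReal.mul_lt_mul_right h0 mt k1)).trans_le (low hK h0 α0.le hae fun y hy hx => by
        have h1 := mul_nonneg (mb y hy).1 (zero_le_one.trans (N2 y hy))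
        rw [g1 y hy, compl_compl]
        by_cases hy' : y ∈ A.O ∩ f ⁻¹' Iio (ρ ^ 2 / 2)
        · rw [indicator_of_mem hy', (ct_b d0 _).2.2.1 (le_of_lt hy'.2), one_pow, one_mul]
          refine le_trans (le_of_eq ?_) ((mul_le_mul_of_nonneg_left (hb2 y hy hx).1 (mb y hy).1).trans
            (mul_le_mul_of_nonneg_right (le_mul_of_one_le_right (mb y hy).1 (N2 y hy)) (W0 y hy)))
          rw [hh]
          ring
        · rw [indicator_of_notMem hy', mul_zero, zero_mul]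
          exact mul_nonneg (sq_nonneg _) (mul_nonneg h1 (W0 y hy))),
      hϖ.mono fun l hl => by
        refine (up (α := Real.exp (-K') * (r ^ 2)⁻¹ * (2 * Real.exp (2 * K'))) hK h0
          (by positivity) hO.measurableSet fun y hy => ?_).trans (by
            rw [ENNReal.ofReal_mul α0.le, mul_assoc, mul_left_comm (ENNReal.ofReal (2 * _))]
            exact mul_le_mul_right (mul_le_mul_right ((k2 _).1 hl) _) _)
        have g2 : β y * Real.exp (-Φ y) * (D.ϖ l y * A.T y ^ D.x0) = 2 * (ct (ρ ^ 2 / 2) (f y) ^ 2 *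
            er θ e₃ e' (b i y) (b i' y) + ε⁻¹ * (Icc (ρ ^ 2 / 2) (2 * (ρ ^ 2 / 2))).indicator
              (fun _ => Cc) (f y) * mn θ e₃ e' (b i y) (b i' y)) * (D.ϖ l y * W y) := by
          rw [(hf y hy).2.2, hW]
          ring
        rw [g2]
        refine ⟨fun hx => ?_, fun hx => ?_⟩
        · have h1 : 0 ≤ (A.O ∩ f ⁻¹' Iio (ρ ^ 2 / 2))ᶜ.indicator (fun _ => ε⁻¹ * Cc) y :=
            indicator_nonneg (fun _ _ => by positivity) y
          have h2 : ε⁻¹ * (Icc (ρ ^ 2 / 2) (2 * (ρ ^ 2 / 2))).indicator (fun _ => Cc) (f y) ≤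
              (A.O ∩ f ⁻¹' Iio (ρ ^ 2 / 2))ᶜ.indicator (fun _ => ε⁻¹ * Cc) y := by
            by_cases hy' : f y ∈ Icc (ρ ^ 2 / 2) (2 * (ρ ^ 2 / 2))
            · rw [indicator_of_mem hy', indicator_of_mem (s := (A.O ∩ f ⁻¹' Iio (ρ ^ 2 / 2))ᶜ)
                fun h => not_lt.2 hy'.1 h.2]
            · rwa [indicator_of_notMem hy', mul_zero]
          refine (mul_le_mul (mul_le_mul_of_nonneg_left (add_le_add
            (mul_le_of_le_one_left (mb y hy).2.2 (c1 _))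
            (mul_le_mul_of_nonneg_right h2 (mb y hy).1)) zero_le_two)
            (mul_le_mul_of_nonneg_left (hb2 y hy hx).2 ((D.cϖ l).2 y))
            (mul_nonneg ((D.cϖ l).2 y) (W0 y hy)) (mul_nonneg zero_le_two
              (add_nonneg (mb y hy).2.2 (mul_nonneg h1 (mb y hy).1)))).trans_eq ?_
          have h3 : Real.exp K' = Real.exp (-K') * Real.exp (2 * K') := by
            rw [← Real.exp_add]
            exact congrArg _ (by ring)
          rw [hh, h3]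
          ring
        · rw [(ct_b d0 _).2.2.2 (out y hy hx).le,
            indicator_of_notMem fun h => not_lt.2 h.2 (out y hy hx)]
          simp⟩
  obtain ⟨C₁, hC⟩ := hCST M.X O A.T A.p (fun y => normSq (S.g i y)) (fun y => normSq (S.g i' y))
    (fun y => normSq (S.g j y)) S.a A.c0 i i' j S.x θ e₃ e' ii (by omega) S.x0 S.x1 θ0
    (θm.trans (min_le_left _ _)) f0 f1 e0' e1
    (fun y hy => ⟨(A.pos y (sub hy)).2.2, (A.pos y (sub hy)).1, (A.pos y (sub hy)).2.1,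
      (nz y hy).2.2.1, (nz y hy).2.2.2.1, (nz y hy).2.2.2.2.1⟩)
    ((S.hg i).1.2.imp fun _ h y hy => h y (sub hy)) ((S.hg i').1.2.imp fun _ h y hy => h y (sub hy))
    ((S.hg j).1.2.imp fun _ h y hy => h y (sub hy))
  have F4 : Jo M A.H O (fun y => normSq (F y) * A.T y ^ (S.a * (2 ^ i' - 2 ^ i)) * A.p y ^ κ *
      (A.N y ^ (D.κ0 / 2) * normSq (Q₀ y) ^ (-e))) ≠ ⊤ := by
    refine ne_top_of_le_ne_top (ENNReal.mul_ne_top (ENNReal.ofReal_ne_top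
      (r := Real.exp (C₁ + C₂ + ε * K₁))) F3) ?_
    rw [Jo, Jo, ← lintegral_const_mul' _ _ ENNReal.ofReal_ne_top]
    refine setLIntegral_mono' hO.measurableSet fun y hy => ?_
    rw [← ENNReal.ofReal_mul (Real.exp_pos _).le]
    obtain ⟨p0, p1, T0⟩ := A.pos y (sub hy)
    have h1 := hC y hy
    have h2 := hΨ2 y (sub hy) (normSq_pos.1 (nz y hy).2.2.2.2.2.1)
    have h3 := (abs_le.1 (lg (A.s · y) (A.s · S.y₀))).2
    have h4 := Real.log_le_log (add_pos_of_pos_of_nonneg one_pos (n0 _)) (A.hN y (sub hy))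
    have h5 := Real.log_nonpos p0.le p1
    have h6 := (le_div_iff₀ (by positivity)).1 (θm.trans (min_le_right _ _))
    have h7 : (2 * A.c0 * θ + A.c0 * 2 ^ i' / 2 ^ j + S.θ * A.l) ≤ κ := by linarith [S.θl]
    have h8 := (hf y hy).1
    have h9 : ε * Real.log (f y + 1) ≤ ε * (K₁ + Real.log (A.N y)) :=
      mul_le_mul_of_nonneg_left (by rw [hfd, hK₁]; linarith) ε0.le
    have k := fid (Φ := Φ y) (C := C₁ + C₂ + ε * K₁) (x := D.x0) (κ := κ) (k := D.κ0) (e := e)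
      (m := S.a * (2 ^ i' - 2 ^ i)) T0 p0 (one_pos.trans_le (N1 y hy)) (nz y hy).2.2.2.2.2.2 (by
        rw [Nat.cast_mul, Nat.cast_sub (Nat.pow_le_pow_right two_pos ii.le), ← hε,
          eq_sub_of_add_eq S.lev.symm]
        simp only [hb, hl] at h8
        push_cast
        linarith [mul_le_mul_of_nonpos_right h7 h5])
    refine ENNReal.ofReal_le_ofReal ?_
    linarith [mul_le_mul_of_nonneg_left k (normSq_nonneg (F y))]
  subst hOd
  exact ⟨_, _, _, _, F, Nat.mul_pos S.a0 (Nat.sub_pos_of_lt (Nat.pow_lt_pow_right one_lt_two ii)),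
    hG, F1, F2, F4⟩

end Pool.Agent.Lib.KC
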