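import Pool.Agent.Lib.KC.Blue

/-! Project kc: the costs. -/

noncomputable section

namespace Pool.Agent.Lib.KC

namespace CST

theorem one {G T p C l m : ℝ} {a c k k' : ℕ} (T0 : 0 < T) (p0 : 0 < p) (hk : k ≤ k') (m0 : 0 ≤ m)
    (hm : -(l + a * Real.log T) ≤ m) (h : G * (T ^ (a * 2 ^ k) * p ^ c) ≤ C) :
    G * Real.exp (-(2 ^ k * l)) ≤ |C| * Real.exp (2 ^ k' * m - c * Real.log p) := by
  have e : G * Real.exp (-(2 ^ k * l)) = G * (T ^ (a * 2 ^ k) * p ^ c) *
      Real.exp (2 ^ k * -(l + a * Real.log T) - c * Real.log p) := by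
    rw [← Real.exp_log (pow_pos T0 _), ← Real.exp_log (pow_pos p0 _), Real.log_pow, Real.log_pow,
      mul_assoc G, ← Real.exp_add, ← Real.exp_add]
    push_cast
    exact congrArg (fun t => G * Real.exp t) (by ring)
  rw [e]
  refine mul_le_mul (h.trans (le_abs_self C)) (Real.exp_le_exp.2 (sub_le_sub_right ?_ _))
    (Real.exp_pos _).le (abs_nonneg C)
  exact (mul_le_mul_of_nonneg_left hm (by positivity)).trans
    (mul_le_mul_of_nonneg_right (pow_le_pow_right₀ one_le_two hk) m0)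

end CST

theorem cCST : St_CST := by
  intro Y O T p G G' L a c i i' j x θ e₃ e hi hj x0 x1 θ0 θ1 f0 f1 e0 e1 h ⟨C₁, h1⟩ ⟨C₂, h2⟩ ⟨C₃, h3⟩
  refine ⟨θ * Real.log (|C₁| + |C₂| + 1) + 2 ^ i' * (|Real.log C₃| / 2 ^ j), fun y hy => ?_⟩
  obtain ⟨T0, p0, p1, G0, G0', L0⟩ := h y hy
  have π0 : Real.log (p y) ≤ 0 := Real.log_nonpos p0.le p1
  have cπ : 0 ≤ -(c * Real.log (p y)) :=
    neg_nonneg.2 (mul_nonpos_of_nonneg_of_nonpos c.cast_nonneg π0)
  have J0 : (0 : ℝ) < 2 ^ j := by positivity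
  have I0 : (0 : ℝ) < 2 ^ i' := by positivity
  have I1 : (1 : ℝ) ≤ 2 ^ i := one_le_pow₀ one_le_two
  have I2 : (2 : ℝ) ^ i * 2 ≤ 2 ^ i' := by
    rw [← pow_succ]
    exact pow_le_pow_right₀ one_le_two hi
  have k3 := Real.log_le_log (by positivity) (h3 y hy)
  rw [Real.log_mul L0.ne' (by positivity), Real.log_mul (by positivity) (by positivity),
    Real.log_pow, Real.log_pow] at k3
  push_cast at k3
  set l := Real.log (L y) / 2 ^ j with hl
  have k4 : l + a * Real.log (T y) ≤ |Real.log C₃| / 2 ^ j + -(c * Real.log (p y)) / 2 ^ j := by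
    rw [hl, ← add_div, le_div_iff₀ J0, add_mul, div_mul_cancel₀ _ J0.ne']
    linarith [le_abs_self (Real.log C₃)]
  obtain ⟨m, m0, hm, hm'⟩ : ∃ m : ℝ, 0 ≤ m ∧ -(l + a * Real.log (T y)) ≤ m ∧
      (m = 0 ∨ m = -(l + a * Real.log (T y))) :=
    ⟨max 0 _, le_max_left _ _, le_max_right _ _, max_choice _ _⟩
  have a1 := CST.one T0 p0 hi.le m0 hm (h1 y hy)
  have a2 := CST.one T0 p0 le_rfl m0 hm (h2 y hy)
  have a3 : 1 ≤ Real.exp (2 ^ i' * m - c * Real.log (p y)) :=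
    Real.one_le_exp (by linarith [mul_nonneg I0.le m0])
  have g2 : 0 < G' y * Real.exp (-(2 ^ i' * l)) := by positivity
  have a4 := Real.log_le_log (by positivity) (show G y * Real.exp (-(2 ^ i * l)) +
      e₃ * (G' y * Real.exp (-(2 ^ i' * l))) + e ≤
      (|C₁| + |C₂| + 1) * Real.exp (2 ^ i' * m - c * Real.log (p y)) by
    linarith [mul_le_of_le_one_left g2.le f1])
  rw [Real.log_mul (by positivity) (Real.exp_pos _).ne', Real.log_exp] at a4
  have a5 := mul_le_mul_of_nonneg_left a4 θ0.le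
  have b0 : 0 ≤ |Real.log C₃| / 2 ^ j + -(c * Real.log (p y)) / 2 ^ j := by positivity
  have a6 : θ * (2 ^ i' * m) + (2 ^ i' - 2 ^ i - x) * (l + a * Real.log (T y)) ≤
      2 ^ i' * (|Real.log C₃| / 2 ^ j + -(c * Real.log (p y)) / 2 ^ j) := by
    rcases hm' with k | k
    · rw [k, mul_zero, mul_zero, zero_add]
      exact mul_le_mul (by linarith) k4 (by linarith) I0.le
    · have : 0 ≤ (2 ^ i' - 2 ^ i - x - θ * 2 ^ i') * m :=
        mul_nonneg (by linarith [mul_le_mul_of_nonneg_right θ1 I0.le]) m0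
      rw [show l + a * Real.log (T y) = -m by rw [k, neg_neg]]
      linarith [mul_nonneg I0.le b0]
  have a7 := mul_nonneg θ0.le cπ
  have e7 : c * 2 ^ i' / 2 ^ j * Real.log (p y) = -(2 ^ i' * (-(c * Real.log (p y)) / 2 ^ j)) := by
    ring
  linarith

end Pool.Agent.Lib.KC
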