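import Pool.Agent.Lib.KC.Trl

/-! Project kc: the certificates read on functions. -/

open scoped Classical Topology ENNReal
open Set MeasureTheory Filter

noncomputable section

namespace Pool.Agent.Lib.KC

open Pool.Agent.Lib.HS32 Pool.Agent.Lib.KH
open MvPolynomial (eval aeval pderiv coeff X C optionEquivLeft)

namespace CUA

variable {n : ℕ} {M : Mf n} {B : Bs M} {F : Type} [Field F] [Algebra ℂ F] (Φ : Fd B F) {τ : Type}

theorem coe_aeval (s : τ → Φ.R) (d : MvPolynomial τ ℂ) :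
    ((aeval s d : Φ.R) : F) = aeval (fun i => (s i : F)) d :=
  MvPolynomial.comp_aeval_apply s Φ.R.val d

theorem fn_aeval (s : τ → Φ.R) (d : MvPolynomial τ ℂ) (y : M.X) :
    Φ.fn (aeval s d) y = eval (fun i => Φ.fn (s i) y) d := by
  rw [← MvPolynomial.coe_aeval_eq_eval]
  exact MvPolynomial.comp_aeval_apply s ((Pi.evalAlgHom ℂ (fun _ => ℂ) y).comp Φ.fn) d

theorem nz {f : Φ.R} (h : f ≠ 0) : Nz M B.O (Φ.fn f) := by
  haveI := ae_neBot.2 B.ne
  exact (B.ae.and (Φ.ae f h)).exists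

end CUA

theorem cCUA : St_CUA := by
  intro n M _ B F _ _ Φ k l m s h
  obtain ⟨Q, Om, e, h1, h2, h3, h4⟩ := h
  obtain ⟨r, hr⟩ := (Φ.mem _ _ _).1 h1
  refine ⟨Q, Φ.fn ⟨Om, r⟩, ⟨hr, CUA.nz Φ fun h => h2 (congrArg Subtype.val h)⟩, ?_⟩
  filter_upwards [Φ.ae e h3] with y hy
  obtain ⟨J, N, H, d, k1, k2, k3, k4⟩ := h4 ((Pi.evalAlgHom ℂ (fun _ => ℂ) y).comp Φ.fn) hy
  choose rH hH using fun j => (Φ.mem _ _ _).1 (k1 j)
  refine ⟨J, N, fun j => Φ.fn ⟨H j, rH j⟩, d, hH, k2, fun j => ?_, fun i => ?_⟩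
  · obtain ⟨P, p1, p2⟩ := k3 j
    refine ⟨P, p1, fun x _ => ?_⟩
    have : aeval s d * (⟨H j, rH j⟩ : Φ.R) = aeval s P * ⟨Om, r⟩ := Subtype.ext (by
      rw [MulMemClass.coe_mul, MulMemClass.coe_mul, CUA.coe_aeval, CUA.coe_aeval]
      exact p2)
    have := congrFun (congrArg Φ.fn this) x
    rwa [map_mul, map_mul, Pi.mul_apply, Pi.mul_apply, CUA.fn_aeval, CUA.fn_aeval] at this
  · obtain ⟨A, hA⟩ := k4 i
    refine ⟨A, fun x _ => ?_⟩
    have : aeval s (d * (X i - C (Φ.fn (s i) y)) ^ N) * (⟨Om, r⟩ : Φ.R) =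
        ∑ j, aeval s (A j) * ⟨H j, rH j⟩ := Subtype.ext (by
      rw [MulMemClass.coe_mul, AddSubmonoidClass.coe_finset_sum, CUA.coe_aeval]
      simp only [MulMemClass.coe_mul, CUA.coe_aeval]
      exact hA)
    have := congrFun (congrArg Φ.fn this) x
    rw [map_mul, map_sum, Pi.mul_apply, CUA.fn_aeval, Finset.sum_apply] at this
    simp only [map_mul, Pi.mul_apply, CUA.fn_aeval] at this ⊢
    exact this

end Pool.Agent.Lib.KC
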