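import Pool.Agent.Lib.KC.Trl

/-! Project kc, row DGA: the bounded degrees read on functions. -/

open scoped Classical Topology
open Set MeasureTheory Complex Filter

set_option linter.unusedSectionVars false

noncomputable section

namespace Pool.Agent.Lib.KC

open Pool.Agent.Lib.SV (E)
open Pool.Agent.Lib.HS32 Pool.Agent.Lib.KH
open MvPolynomial (eval aeval monomial)

namespace DGA

variable {n : ℕ} {M : Mf n} {B : Bs M} {F : Type} [Field F] [Algebra ℂ F]

theorem gm_congr {x c : ℕ} {u v : M.X → ℂ} (h : ∀ y ∈ B.O, v y = u y) (hu : B.Gm x c u) :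
    B.Gm x c v := by
  obtain ⟨h1, C, h2⟩ := hu
  refine ⟨fun e he z hz ho => ?_, C, fun y hy => h y hy ▸ h2 y hy⟩
  have k : ∀ᶠ w in 𝓝 z, e.symm w ∈ B.O := (e.continuousAt_symm hz).eventually (B.opn.mem_nhds ho)
  filter_upwards [h1 e he z hz ho, k.eventually_nhds] with w a b
  exact a.congr_of_eventuallyEq (b.mono fun t ht => h _ ht)

theorem gm_mono {c c' : ℕ} {u : M.X → ℂ} (h : c ≤ c') (hu : B.Gm 0 c u) : B.Gm 0 c' u := by
  obtain ⟨h1, C, h2⟩ := hu
  refine ⟨h1, C, fun y hy => le_trans ?_ (h2 y hy)⟩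
  obtain ⟨p0, p1, t0⟩ := B.pos y hy
  exact mul_le_mul_of_nonneg_left (mul_le_mul_of_nonneg_left (pow_le_pow_of_le_one p0.le p1 h)
    (pow_nonneg t0.le _)) (normSq_nonneg _)

theorem gm_one : B.Gm 0 0 1 :=
  ⟨fun _ _ _ _ _ => Eventually.of_forall fun _ => differentiableAt_const (1 : ℂ), 1, by simp⟩

theorem gm_mul {c c' : ℕ} {u v : M.X → ℂ} (hu : B.Gm 0 c u) (hv : B.Gm 0 c' v) :
    B.Gm 0 (c + c') (u * v) := by
  obtain ⟨h1, C, h2⟩ := hu
  obtain ⟨h3, C', h4⟩ := hv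
  refine ⟨fun e he z hz ho => ((h1 e he z hz ho).and (h3 e he z hz ho)).mono fun w k =>
    k.1.mul k.2, C * C', fun y hy => ?_⟩
  obtain ⟨p0, -, t0⟩ := B.pos y hy
  have a : ∀ (g : M.X → ℂ) (c : ℕ), 0 ≤ normSq (g y) * (B.T y ^ 0 * B.p y ^ c) := fun g c =>
    mul_nonneg (normSq_nonneg _) (by positivity)
  refine le_trans (le_of_eq ?_) (mul_le_mul (h2 y hy) (h4 y hy) (a v c') ((a u c).trans (h2 y hy)))
  rw [Pi.mul_apply, map_mul]
  ring

theorem gm_pow {u : M.X → ℂ} (hu : B.Gm 0 1 u) (a : ℕ) : B.Gm 0 a (u ^ a) := by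
  induction a with
  | zero => exact gm_one
  | succ a ih => exact pow_succ u a ▸ gm_mul ih hu

theorem gm_prod {τ : Type} {u : τ → M.X → ℂ} (hu : ∀ i, B.Gm 0 1 (u i)) (a : τ → ℕ)
    (S : Finset τ) : B.Gm 0 (∑ i ∈ S, a i) (∏ i ∈ S, u i ^ a i) := by
  induction S using Finset.induction_on with
  | empty => exact gm_one
  | insert i S hi ih =>
    rw [Finset.sum_insert hi, Finset.prod_insert hi]
    exact gm_mul (gm_pow (hu i) _) ih

/-- A common denominator. -/
theorem den {τ J : Type} [Fintype J] (s : τ → F) (κ : J → F)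
    (h : ∀ j, κ j ∈ IntermediateField.adjoin ℂ (range s)) :
    ∃ (d : F) (P : J → MvPolynomial τ ℂ), d ≠ 0 ∧ ∀ j, aeval s (P j) = d * κ j := by
  have key : ∀ j, ∃ p q : MvPolynomial τ ℂ, aeval s q ≠ 0 ∧ aeval s p = aeval s q * κ j := by
    intro j
    obtain ⟨r, t, e⟩ := (IntermediateField.mem_adjoin_range_iff ℂ s _).1 (h j)
    by_cases h0 : aeval s t = 0
    · exact ⟨0, 1, by simp, by simp [e, h0]⟩
    · exact ⟨r, t, h0, by rw [e, mul_div_cancel₀ _ h0]⟩
  choose p q hq hp using key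
  refine ⟨∏ j, aeval s (q j), fun j => p j * ∏ i ∈ Finset.univ.erase j, q i,
    Finset.prod_ne_zero_iff.2 fun j _ => hq j, fun j => ?_⟩
  rw [← Finset.mul_prod_erase _ _ (Finset.mem_univ j), map_mul, map_prod, hp]
  ring

theorem fn_aeval (Φ : Fd B F) {τ : Type} (s : τ → Φ.R) (P : MvPolynomial τ ℂ) (y : M.X) :
    Φ.fn (aeval s P) y = eval (fun i => Φ.fn (s i) y) P := by
  have := MvPolynomial.comp_aeval_apply (f := s) ((Pi.evalAlgHom ℂ _ y).comp Φ.fn) P
  rw [MvPolynomial.aeval_eq_eval] at this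
  exact this

theorem coe_aeval (R : Subalgebra ℂ F) {τ : Type} (s : τ → R) (P : MvPolynomial τ ℂ) :
    ((aeval s P : R) : F) = aeval (fun i => (s i : F)) P :=
  MvPolynomial.comp_aeval_apply (f := s) R.val P

theorem nz (Φ : Fd B F) {f : Φ.R} (h : f ≠ 0) : Nz M B.O (Φ.fn f) := by
  have : (ae (M.mu B.H)).NeBot := ae_neBot.2 B.ne
  exact (B.ae.and (Φ.ae f h)).exists

end DGA

open DGA in
theorem cDGA (hANI : St_ANI) : St_DGA := by
  intro n M _ B F _ _ Φ K k w s z θ P hK hC hH hs hz hθ hD c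
  obtain ⟨N, hN⟩ := hD c
  set h : Option (Fin w) → Φ.R := fun o => o.elim θ z with hh
  have hg : ∀ o, B.Gm 0 1 (Φ.fn (h o)) := fun o => by
    cases o with
    | none => exact hθ
    | some i => exact hz i
  have : Finite {μ : Option (Fin w) →₀ ℕ | μ.degree ≤ N} := Finsupp.finite_of_degree_le N
  let b : {μ : Option (Fin w) →₀ ℕ | μ.degree ≤ N} → F := fun μ =>
    ((aeval h (monomial μ.1 (1 : ℂ)) : Φ.R) : F)
  obtain ⟨κ, a, a1, a2, a3⟩ := exists_linearIndependent' K b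
  have := Finite.of_injective a a1
  let e := (Finite.equivFin κ).symm
  let m : Fin (Nat.card κ) → Φ.R := fun l => aeval h (monomial (a (e l)).1 (1 : ℂ))
  have sp : ∀ p : MvPolynomial (Option (Fin w)) K, p.totalDegree ≤ N →
      ∃ α : Fin (Nat.card κ) → K, ∑ l, α l • (m l : F) = aeval (fun o => (h o : F)) p := by
    intro p hp
    refine (Submodule.mem_span_range_iff_exists_fun K).1 ?_
    rw [show (fun l => (m l : F)) = (b ∘ a) ∘ e from rfl, e.surjective.range_comp, a2, p.as_sum,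
      map_sum]
    refine Submodule.sum_mem _ fun μ hμ => ?_
    have e1 : aeval (fun o => (h o : F)) (monomial μ (p.coeff μ)) =
        p.coeff μ • b ⟨μ, (MvPolynomial.le_totalDegree hμ).trans hp⟩ := by
      simp only [b, coe_aeval]
      simp only [MvPolynomial.aeval_monomial, map_one, one_mul, Algebra.smul_def]
    exact e1 ▸ Submodule.smul_mem _ _ (Submodule.subset_span (mem_range_self _))
  refine ⟨_, N, fun l => Φ.fn (m l), fun l => ?_, hANI n M B F Φ K k w _ s z θ P _ hK hC hH hs hz hθ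
    (a3.comp e e.injective), fun x u v hu hv => ?_⟩
  · refine gm_mono (a (e l)).2 ?_
    simpa only [m, MvPolynomial.aeval_monomial, map_one, one_mul, Finsupp.prod, map_prod, map_pow,
      Finsupp.degree_apply] using gm_prod hg (a (e l)).1 (a (e l)).1.support
  obtain ⟨f, hf⟩ := Φ.sur x c u hu.1
  obtain ⟨g, hg'⟩ := Φ.sur x c v hv.1
  have n0 : ∀ {f : Φ.R} {u : M.X → ℂ}, (∀ y ∈ B.O, Φ.fn f y = u y) → Nz M B.O u → (f : F) ≠ 0 :=
    fun {f u} e1 ⟨y, hy, h0⟩ e2 => h0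
      (by rw [← e1 y hy, show f = 0 from Subtype.ext e2, map_zero]; rfl)
  obtain ⟨p, q, p1, q1, q0, e1⟩ := hN x f ((Φ.mem x c f).2 ⟨f.2, gm_congr hf hu.1⟩) g
    ((Φ.mem x c g).2 ⟨g.2, gm_congr hg' hv.1⟩) (n0 hg' hv.2)
  have p0 : aeval (fun o => (h o : F)) p ≠ 0 := fun e2 =>
    mul_ne_zero (n0 hf hu.2) q0 (by rw [e1, e2, mul_zero])
  obtain ⟨α, hα⟩ := sp p p1
  obtain ⟨β, hβ⟩ := sp q q1
  obtain ⟨d, Q, d0, hQ⟩ := den (fun i => (s i : F)) (Sum.elim (fun l => (α l : F)) fun l => β l)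
    (hK.symm ▸ fun j => j.rec (fun l => (α l).2) fun l => (β l).2)
  have val : ∀ (A : Fin (Nat.card κ) → MvPolynomial (Sx k) ℂ) (γ : Fin (Nat.card κ) → K),
      (∀ l, aeval (fun i => (s i : F)) (A l) = d * γ l) →
      ((∑ l, aeval s (A l) * m l : Φ.R) : F) = d * ∑ l, γ l • (m l : F) := fun A γ k => by
    rw [AddSubmonoidClass.coe_finsetSum, Finset.mul_sum]
    exact Finset.sum_congr rfl fun l _ => by
      rw [MulMemClass.coe_mul, coe_aeval, k, mul_assoc]
      rfl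
  have ev : ∀ (A : Fin (Nat.card κ) → MvPolynomial (Sx k) ℂ) y, cb (fun l => Φ.fn (m l))
      (cv A fun i => Φ.fn (s i) y) y = Φ.fn (∑ l, aeval s (A l) * m l) y := fun A y => by
    simp only [cb, cv, map_sum, map_mul, Finset.sum_apply, Pi.mul_apply, fn_aeval]
  have v1 := val (fun l => Q (.inl l)) α fun l => hQ (.inl l)
  have v2 := val (fun l => Q (.inr l)) β fun l => hQ (.inr l)
  rw [hα] at v1
  rw [hβ] at v2
  refine ⟨fun l => Q (.inl l), fun l => Q (.inr l), ?_, ?_, fun y hy => ?_⟩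
  · simp only [ev]
    exact nz Φ fun e2 => mul_ne_zero d0 p0 (by rw [← v1, e2]; rfl)
  · simp only [ev]
    exact nz Φ fun e2 => mul_ne_zero d0 q0 (by rw [← v2, e2]; rfl)
  · have e2 : f * ∑ l, aeval s (Q (.inr l)) * m l = g * ∑ l, aeval s (Q (.inl l)) * m l :=
      Subtype.ext (by
        rw [MulMemClass.coe_mul, MulMemClass.coe_mul, v1, v2]
        linear_combination d * e1)
    have e3 := congrFun (congrArg Φ.fn e2) y
    rw [map_mul, map_mul, Pi.mul_apply, Pi.mul_apply, hf y hy, hg' y hy] at e3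
    rw [ev, ev, e3]

end Pool.Agent.Lib.KC
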