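import Pool.Agent.Lib.KC.Blue
import Pool.Agent.Lib.KH.All

/-! Project kc: the dominated measures. -/

open scoped Classical Topology ContDiff ComplexOrder Matrix ENNReal
open Set MeasureTheory Complex Metric Filter

noncomputable section

namespace Pool.Agent.Lib.KC

open Pool.Agent.Lib.SV (E nsq)
open Pool.Agent.Lib.HS32 Pool.Agent.Lib.KH

namespace DM

theorem lin {n : ℕ} {a b c : E n → ℝ} {z : E n} (ha : ContDiffAt ℝ ∞ a z) (hb : ContDiffAt ℝ ∞ b z)
    (hc : ContDiffAt ℝ ∞ c z) (q C x : ℝ) :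
    hess (fun w => ((a w + q * (b w - C) - x * c w : ℝ) : ℂ)) z = hess (fun w => (a w : ℂ)) z +
      q • hess (fun w => (b w : ℂ)) z - x • hess (fun w => (c w : ℂ)) z := by
  have a1 := cd_ofReal ha
  have b1 := (cd_ofReal hb).sub (contDiffAt_const (c := (C : ℂ)))
  have c1 := cd_ofReal hc
  simp only [ofReal_sub, ofReal_add, ofReal_mul]
  rw [hess_sub (a1.add (contDiffAt_const.mul b1)) (contDiffAt_const.mul c1),
    hess_add a1 (contDiffAt_const.mul b1), hess_const_mul _ b1, hess_const_mul _ c1,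
    hess_sub (cd_ofReal hb) contDiffAt_const, hess_const, sub_zero, Complex.coe_smul,
    Complex.coe_smul]

theorem ex (c a q x : ℝ) {T : ℝ} (h : 0 < T) : c * Real.exp (-(a + q - x * Real.log T)) =
    c * Real.exp (-a) * (Real.exp (-q) * T ^ x) := by
  rw [Real.rpow_def_of_pos h, mul_assoc, ← Real.exp_add, ← Real.exp_add]
  exact congrArg (fun t => c * Real.exp t) (by ring)

end DM

theorem cDM (hGMK : St_GMK) : St_DM := by
  rintro n M _ B N hN ⟨δ, α, C, hδ, hα, ε, ρ, h, hε, hd⟩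
  obtain ⟨k1, -⟩ := bKIT n M B.H B.O B.kae.toMet B.opn
  have d0 : (0 : ℝ) < B.d := Nat.cast_pos.2 B.d0
  have q0 : 0 < α / 4 := by positivity
  have cρ : ∀ i, ContinuousOn (ρ i) B.O := fun i => (k1 ℝ _ (h i).2.1).1
  have cϖ : ∀ i, ContinuousOn (fun y => Real.exp (-(α / 4 * (ρ i y - C)))) B.O := fun i =>
    Real.continuous_exp.comp_continuousOn
      (continuousOn_const.mul ((cρ i).sub continuousOn_const)).neg
  have mo : ∀ i, Jo M B.H B.O (fun y => Real.exp (-(α / 4 * (ρ i y - C))) ^ 4) ≤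
      ENNReal.ofReal (Real.exp (α * C) * C) := fun i => by
    rw [ENNReal.ofReal_mul (Real.exp_pos _).le]
    refine le_trans (le_of_eq ?_) (mul_le_mul_right (h i).2.2.2.2 _)
    rw [Jo, Jo, ← lintegral_const_mul' _ _ ENNReal.ofReal_ne_top]
    refine lintegral_congr fun y => ?_
    rw [← ENNReal.ofReal_mul (Real.exp_pos _).le, ← Real.exp_add, ← Real.exp_nat_mul]
    exact congrArg (fun t => ENNReal.ofReal (Real.exp t)) (by push_cast; ring)
  have le : ∀ y ∈ B.O, ∀ᶠ i in atTop, N y ^ (α / 4 * δ) ≤ Real.exp (-(α / 4 * (ρ i y - C))) :=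
    fun y hy => (hd y hy).mono fun i hi => by
      rw [Real.rpow_def_of_pos (one_pos.trans_le (hN y hy))]
      exact Real.exp_le_exp.2 (by nlinarith)
  have N0 : ∀ y ∈ B.O, 0 ≤ N y ^ (α / 4 * δ) := fun y hy =>
    Real.rpow_nonneg (zero_le_one.trans (hN y hy)) _
  refine ⟨⟨(1 + α / 4) / B.d, α / 4 * δ, _, fun i y => Real.exp (-(α / 4 * (ρ i y - C))),
    by positivity, by positivity, fun i => ⟨cϖ i, fun y => (Real.exp_pos _).le⟩, mo,
    ne_top_of_le_ne_top ENNReal.ofReal_ne_top (le_trans ?_ ((lintegral_liminf_le' (u := atTop) fun i =>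
      (((cϖ i).pow 4).aemeasurable B.opn.measurableSet).ennreal_ofReal).trans
        (liminf_le_of_frequently_le' (Frequently.of_forall mo)))),
    fun x c g hg ph β Γ mβ hD hf => ?_⟩⟩
  · refine lintegral_mono_ae ((ae_restrict_mem B.opn.measurableSet).mono fun y hy => ?_)
    exact le_liminf_of_le (by isBoundedDefault) ((le y hy).mono fun i hi =>
      ENNReal.ofReal_le_ofReal (pow_le_pow_left₀ (N0 y hy) hi 4))
  have o := (hGMK n M B).opn hg.1
  have aeO := ae_restrict_mem (μ := M.mu B.H) o.measurableSet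
  have e1 : ∀ i (u : M.X → ℝ), Jo M B.H (B.O ∩ {y | g y ≠ 0}) (fun y => u y * Real.exp
      (-(ph y + α / 4 * (ρ i y - C) - (1 + α / 4) / B.d * Real.log (B.T y)))) =
      Jo M B.H (B.O ∩ {y | g y ≠ 0}) fun y => u y * Real.exp (-ph y) *
        (Real.exp (-(α / 4 * (ρ i y - C))) * B.T y ^ ((1 + α / 4) / B.d)) := fun i u =>
    lintegral_congr_ae (aeO.mono fun y hy =>
      congrArg ENNReal.ofReal (DM.ex _ _ _ _ (B.pos y hy.1).2.2))
  have e2 : ∀ i, OnK M (B.O ∩ {y | g y ≠ 0}) fun e z =>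
      M.hs (fun y => ph y + α / 4 * (ρ i y - C) - (1 + α / 4) / B.d * Real.log (B.T y)) e z +
        M.ric B.H e z + (α / 4 * ε i) • B.H e z =
      M.hs ph e z + (α / 4) • (M.hs (ρ i) e z - M.ric B.H e z + ε i • B.H e z) :=
    fun i e he z hz ho => by
      have a := DM.lin (hD.sf e he z hz ho) ((h i).2.1 e he z hz ho.1) (B.sT e he z hz ho.1)
        (α / 4) C ((1 + α / 4) / B.d)
      have b := B.hT e he z hz ho.1
      refine (congrArg (· + _ + _) (a.trans (congrArg (_ - _ • ·) b))).trans ?_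
      rw [smul_smul, div_mul_cancel₀ _ d0.ne']
      change M.hs ph e z + (α / 4) • M.hs (ρ i) e z - _ + _ + _ = _
      module
  obtain ⟨F, hF, hle⟩ := aKH n M B.H _ (fun i => α / 4 * ε i)
    (fun i y => ph y + α / 4 * (ρ i y - C) - (1 + α / 4) / B.d * Real.log (B.T y)) (fun _ => β) Γ
    B.kae (B.cmp x c g hg.1 hg.2) (fun i => ⟨mul_nonneg q0.le (h i).1, fun e he z hz ho =>
      ((hD.sf e he z hz ho).add (contDiffAt_const.mul (((h i).2.1 e he z hz ho.1).sub
        contDiffAt_const))).sub (contDiffAt_const.mul (B.sT e he z hz ho.1)), hD.sg, mβ, hD.b0,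
      fun e he z hz ho => (congrArg Matrix.PosSemidef (e2 i e he z hz ho)).mpr
        ((hD.pos e he z hz ho).add (((h i).2.2.2.1 e he z hz ho.1).smul q0.le)),
      fun e he z hz ho v => (hD.dom e he z hz ho v).trans (mul_le_mul_of_nonneg_left
        ((KHM.nq_up _ (((h i).2.2.2.1 e he z hz ho.1).smul q0.le) v).trans_eq
          (congrArg (nq · v) (e2 i e he z hz ho).symm)) (hD.b0 _ ho)),
      (e1 i _).trans_ne (hf i)⟩) (by simpa using hε.const_mul (α / 4)) fun y hy => by
      have c1 : ContinuousAt (fun y => ph y - (1 + α / 4) / B.d * Real.log (B.T y)) y :=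
        (((bKIT n M B.H _ B.kae.toMet o).1 ℝ _ hD.sf).1.continuousAt (o.mem_nhds hy)).sub
          (continuousAt_const.mul ((k1 ℝ _ B.sT).1.continuousAt (B.opn.mem_nhds hy.1)))
      refine ⟨_, (c1.eventually (gt_mem_nhds (lt_add_one _))).mp
        ((eventually_mem_set.2 (B.opn.mem_nhds hy.1)).mono fun w hw h1 i => le_trans ?_ h1.le)⟩
      nlinarith [(h i).2.2.1 w hw]
  refine ⟨F, hF, le_trans (lintegral_mono_ae (aeO.mono fun y hy => ?_))
    (hle.trans_eq (congrArg (liminf · atTop) (funext fun i => e1 i β)))⟩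
  have T0 := (B.pos y hy.1).2.2
  beta_reduce
  rw [mul_assoc, ENNReal.ofReal_mul (normSq_nonneg _)]
  refine mul_le_mul_right (le_liminf_of_le (by isBoundedDefault) ((le y hy.1).mono fun i hi =>
    ENNReal.ofReal_le_ofReal ?_)) _
  have := DM.ex 1 (ph y) (α / 4 * (ρ i y - C)) ((1 + α / 4) / B.d) T0
  rw [one_mul, one_mul] at this
  rw [this]
  gcongr

end Pool.Agent.Lib.KC
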