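import Pool.Agent.Lib.KC.Blue
import Pool.Agent.Lib.SV.B_FRZ

/-! Project kc: the fillers. -/

open scoped Classical Topology ContDiff ComplexOrder Matrix ENNReal
open Set MeasureTheory Complex Metric Filter

set_option linter.unusedVariables false

noncomputable section

namespace Pool.Agent.Lib.KC

open Pool.Agent.Lib.SV (E nsq)
open Pool.Agent.Lib.HS32 Pool.Agent.Lib.KH

namespace GEN

/-- The bound on the tube. -/
theorem up {A U V T p C al d j c ε : ℝ} (hA : 1 ≤ A) (hU : 0 < U) (hV : 0 < V) (hT : 0 < T)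
    (hp : 0 < p) (hp1 : p ≤ 1) (hC : 0 < C) (hal : 0 ≤ al) (hd : 0 < d) (hj : 0 < j)
    (hc : c ≤ ε * (d * j)) (h1 : Real.log U + j * Real.log T + c * Real.log p ≤
      Real.log C + Real.log V) (h2 : V ≤ C * U) :
    Real.exp (-(1 * Real.log A + (al * Real.log U + -al * Real.log V))) * T ^ (1 / d) ≤
      Real.exp (al * Real.log C + 2 * Real.log C / (d * j)) * p ^ (-ε) := by
  rw [Real.rpow_def_of_pos hT, Real.rpow_def_of_pos hp, ← Real.exp_add, ← Real.exp_add,
    Real.exp_le_exp]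
  have a1 := Real.log_nonneg hA
  have a2 := Real.log_nonpos hp.le hp1
  have a3 := Real.log_le_log hV h2
  rw [Real.log_mul hC.ne' hU.ne'] at a3
  have a4 : al * (Real.log V - Real.log U) ≤ al * Real.log C :=
    mul_le_mul_of_nonneg_left (by linarith) hal
  have a5 : Real.log T * (1 / d) ≤ 2 * Real.log C / (d * j) + Real.log p * -ε := by
    have e : Real.log T * (1 / d) = j * Real.log T / (d * j) := by field_simp
    have e' : Real.log p * -ε = Real.log p * -(ε * (d * j)) / (d * j) := by field_simp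
    rw [e, e', ← add_div]
    refine div_le_div_of_nonneg_right ?_ (by positivity)
    nlinarith [mul_nonneg (neg_nonneg.2 a2) (sub_nonneg.2 hc)]
  linarith

/-- The bound from below. -/
theorem low {A U V T p R C K al d j : ℝ} {x c n : ℕ} (hA : 0 < A) (hR : 0 < R) (hT : 0 < T)
    (hp : 0 < p) (hp1 : p ≤ 1) (hal : 0 ≤ al) (hal1 : al ≤ 1) (hx : al * j = x - 1 / d)
    (h1 : Real.log U + j * Real.log T + c * Real.log p ≤ Real.log C + Real.log V)
    (h2 : A * p ≤ K) (h3 : R * p ≤ K) :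
    T ^ x * p ^ (c + n + 2) ≤ Real.exp (al * Real.log C + (n + 2) * Real.log K) *
      (Real.exp (-(1 * Real.log A + (al * Real.log U + -al * Real.log V +
        (n + 1) * Real.log R))) * T ^ (1 / d)) := by
  have e : T ^ x * p ^ (c + n + 2) = Real.exp (x * Real.log T + (c + n + 2) * Real.log p) := by
    rw [Real.exp_add, Real.exp_nat_mul, Real.exp_log hT,
      show (c + n + 2 : ℝ) = (c + n + 2 : ℕ) by push_cast; ring, Real.exp_nat_mul, Real.exp_log hp]
  rw [e, Real.rpow_def_of_pos hT, ← Real.exp_add, ← Real.exp_add, Real.exp_le_exp]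
  have a2 := Real.log_nonpos hp.le hp1
  have a3 := Real.log_le_log (mul_pos hA hp) h2
  have a4 := Real.log_le_log (mul_pos hR hp) h3
  rw [Real.log_mul hA.ne' hp.ne'] at a3
  rw [Real.log_mul hR.ne' hp.ne'] at a4
  have a5 := mul_le_mul_of_nonneg_left h1 hal
  have a6 := mul_le_mul_of_nonneg_left a4 (by positivity : (0 : ℝ) ≤ n + 1)
  have a7 := mul_nonneg (mul_nonneg (sub_nonneg.2 hal1) (Nat.cast_nonneg (α := ℝ) c))
    (neg_nonneg.2 a2)
  have a8 : al * (j * Real.log T) = x * Real.log T - Real.log T * (1 / d) := by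
    rw [← mul_assoc, hx]; ring
  nlinarith

theorem spl {a b R t : ℝ} {n : ℕ} (hR : 0 < R) :
    Real.exp (-(a + (b + (n + 1) * Real.log R))) * t =
      Real.exp (-(a + b)) * t / R ^ (n + 1) := by
  rw [← add_assoc, neg_add, Real.exp_add, Real.exp_neg (_ * _),
    show (n + 1 : ℝ) = (n + 1 : ℕ) by push_cast; ring, Real.exp_nat_mul, Real.exp_log hR]
  ring

variable {n : ℕ} {M : Mf n}

theorem jle {H : M.Fam (Mat n)} {O O' : Set M.X} {f g : M.X → ℝ} {K : ℝ} (hm : MeasurableSet O')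
    (hs : O' ⊆ O) (hK : 0 ≤ K) (h : ∀ y ∈ O', f y ≤ K * g y) :
    Jo M H O' f ≤ ENNReal.ofReal K * Jo M H O g := by
  unfold Jo
  rw [← lintegral_const_mul' _ _ ENNReal.ofReal_ne_top]
  refine (setLIntegral_mono' hm fun y hy => ?_).trans (lintegral_mono_set hs)
  rw [← ENNReal.ofReal_mul hK]
  exact ENNReal.ofReal_le_ofReal (h y hy)

theorem bd {B : Bs M} {k : ℕ} {z : Fin k → M.X → ℂ} (hz : ∀ i, B.Gm 0 1 (z i)) (a : ℝ)
    (ha : 0 ≤ a) : ∃ K, ∀ y ∈ B.O, (nsq (z · y) + a) * B.p y ≤ K := by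
  choose C hC using fun i => (hz i).2
  refine ⟨∑ i, C i + a, fun y hy => ?_⟩
  rw [add_mul, nsq, Finset.sum_mul]
  refine add_le_add (Finset.sum_le_sum fun i _ => ?_) (mul_le_of_le_one_right ha (B.pos y hy).2.1)
  simpa using hC i y hy

end GEN

open GEN in
theorem cGEN (hGMK : St_GMK) (hPSK : St_PSK) (hHQ0 : St_HQ0) (hSOL : St_SOL) (hCHI : St_CHI)
    (hMS0 : St_MS0) (hREX : St_REX) : St_GEN := by
  intro n M _ B k c z hz hAI x
  have G := hGMK n M B
  have P := hPSK n M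
  rcases Nat.eq_zero_or_pos x with rfl | hx
  · exact ⟨_, G.mono (Nat.zero_le _) G.one.1, G.one.2⟩
  obtain ⟨ε, hε, hne⟩ := B.neg 0 1 _ (G.mono (Nat.zero_le 1) G.one.1) G.one.2
  have hq : Jo M B.H B.O (fun y => B.p y ^ (-ε)) ≠ ⊤ := by
    refine fun h => hne (h ▸ setLIntegral_congr_fun B.opn.measurableSet fun y hy => ?_)
    simp only [ng, map_one, pow_zero, pow_one, one_mul]
    exact ENNReal.ofReal_rpow_of_pos (B.pos y hy).1
  obtain ⟨j, hj, a, u, v, y₀, ρ, C, hu, hv, hy₀, hu0, hv0, hρ, hb⟩ := hAI (x + ⌈c / ε⌉₊)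
  have hd : (1 : ℝ) ≤ B.d := by exact_mod_cast B.d0
  have hx1 : (1 : ℝ) ≤ x := by exact_mod_cast hx
  have hjx : (x : ℝ) + c / ε ≤ j :=
    (add_le_add le_rfl (Nat.le_ceil _)).trans (by exact_mod_cast hj)
  have hce : (0 : ℝ) ≤ c / ε := by positivity
  have hj0 : (0 : ℝ) < j := by linarith
  have hc : (c : ℝ) ≤ ε * (B.d * j) := by
    have h1 : (c : ℝ) ≤ j * ε := (div_le_iff₀ hε).1 (by linarith)
    nlinarith [mul_nonneg (mul_pos hε hj0).le (sub_nonneg.2 hd)]
  have hd1 : 1 / (B.d : ℝ) ≤ 1 := (div_le_one (by linarith)).2 hd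
  have hd0 : 0 < 1 / (B.d : ℝ) := by positivity
  obtain ⟨al, hal⟩ : ∃ al : ℝ, al = (x - 1 / B.d) / j := ⟨_, rfl⟩
  have al0 : 0 ≤ al := hal ▸ div_nonneg (by linarith) hj0.le
  have al1 : al ≤ 1 := hal ▸ (div_le_one hj0).2 (by linarith)
  have alj : al * j = x - 1 / B.d := hal ▸ div_mul_cancel₀ _ hj0.ne'
  have hC : 0 < C := by
    have h := (hb y₀ hy₀).2 (by simp [hρ.le])
    exact (pos_iff_pos_of_mul_pos ((normSq_pos.2 hv0).trans_le h)).2 (normSq_pos.2 hu0)
  have hg : B.Gn (0 + 0) (a + a) fun y => u y * v y :=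
    ⟨G.mul hu hv, y₀, hy₀, mul_ne_zero hu0 hv0⟩
  have ho := G.opn hg.1
  set O := B.O ∩ {y | u y * v y ≠ 0} with hO
  have hs : O ⊆ B.O := inter_subset_left
  have hU : ∀ y ∈ O, u y ≠ 0 := fun y hy => left_ne_zero_of_mul hy.2
  have hV : ∀ y ∈ O, v y ≠ 0 := fun y hy => right_ne_zero_of_mul hy.2
  have hl : ∀ y ∈ O, Real.log (normSq (u y)) + j * Real.log (B.T y) + c * Real.log (B.p y) ≤
      Real.log C + Real.log (normSq (v y)) := fun y hy => by
    have h0 := B.pos y hy.1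
    have h1 := normSq_pos.2 (hU y hy)
    have h := Real.log_le_log (by have := h0.1; have := h0.2.2; positivity) (hb y hy.1).1
    rwa [Real.log_mul h1.ne' (by have := h0.1; have := h0.2.2; positivity),
      Real.log_mul (pow_pos h0.2.2 _).ne' (pow_pos h0.1 _).ne', Real.log_pow, Real.log_pow,
      Real.log_mul hC.ne' (normSq_pos.2 (hV y hy)).ne', ← add_assoc] at h
  have hw : ∀ i, B.Gm 0 1 fun y => z i y - z i y₀ := fun i =>
    G.cgr (G.add (hz i) (G.mono (Nat.zero_le 1) (G.cst (-z i y₀)))) fun y _ => sub_eq_add_neg _ _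
  obtain ⟨χ, D, hD, χ1, χ2, χ3, hda⟩ := hCHI n M O (Fin k) z (z · y₀) ρ 1 ho
    (fun i => P.hom hs (hz i).1) hρ one_pos
  obtain ⟨h, hh⟩ : ∃ h : M.X → ℝ, h = fun y => Real.exp (-(1 * Real.log (1 + nsq (z · y)) +
    (al * Real.log (normSq (u y)) + -al * Real.log (normSq (v y))))) * B.T y ^ (1 / B.d : ℝ) :=
    ⟨_, rfl⟩
  obtain ⟨K, hK⟩ : ∃ K, K = Real.exp (al * Real.log C + 2 * Real.log C / (B.d * j)) := ⟨_, rfl⟩
  have K0 : 0 < K := hK ▸ Real.exp_pos _
  have hA : ∀ y, 1 ≤ 1 + nsq (z · y) := fun y => le_add_of_nonneg_right (SV.nsq_nonneg _)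
  have h0 : ∀ y ∈ O, 0 < h y := fun y hy =>
    hh ▸ mul_pos (Real.exp_pos _) (Real.rpow_pos_of_pos (B.pos y hy.1).2.2 _)
  have h1 : ∀ y ∈ O, ‖(z · y) - (z · y₀)‖ ≤ ρ → h y ≤ K * B.p y ^ (-ε) := fun y hy ht =>
    hh ▸ hK ▸ up (hA y) (normSq_pos.2 (hU y hy)) (normSq_pos.2 (hV y hy)) (B.pos y hy.1).2.2
      (B.pos y hy.1).1 (B.pos y hy.1).2.1 hC al0 (by linarith) hj0 hc (hl y hy) ((hb y hy.1).2 ht)
  have cz : ContinuousOn (fun y => (z · y)) O :=
    continuousOn_pi.2 fun i => (G.cnt (hz i)).mono hs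
  have cn : ContinuousOn (fun y => ‖(z · y) - (z · y₀)‖) O := (cz.sub continuousOn_const).norm
  have cb : ContinuousOn (fun y => B.T y ^ (1 / B.d : ℝ)) O :=
    (G.cT.mono hs).rpow_const fun _ _ => Or.inr hd0.le
  have lg : ∀ {g : M.X → ℂ}, ContinuousOn g B.O → (∀ y ∈ O, g y ≠ 0) →
      ContinuousOn (fun y => Real.log (normSq (g y))) O := fun hg hg' =>
    (continuous_normSq.comp_continuousOn (hg.mono hs)).log fun y hy => (normSq_pos.2 (hg' y hy)).ne'
  have ch : ContinuousOn h O := by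
    rw [hh]
    refine (ContinuousOn.rexp (ContinuousOn.neg ((continuousOn_const.mul (ContinuousOn.log
      (continuousOn_const.add ?_) fun y _ => (one_pos.trans_le (hA y)).ne')).add
      ((continuousOn_const.mul (lg (G.cnt hu) hU)).add
        (continuousOn_const.mul (lg (G.cnt hv) hV)))))).mul cb
    exact continuousOn_finsetSum _ fun i _ =>
      continuous_normSq.comp_continuousOn ((G.cnt (hz i)).mono hs)
  have hy1 : y₀ ∈ O := ⟨hy₀, mul_ne_zero hu0 hv0⟩
  have hn := ho.mem_nhds hy1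
  obtain ⟨W, hW, oW, yW⟩ := mem_nhds_iff.1 (inter_mem hn (inter_mem
    ((cn.continuousAt hn).eventually_lt_const (u := ρ / 2) (by simp [hρ]))
    ((ch.continuousAt hn).eventually_const_lt (half_lt_self (h0 y₀ hy1)))))
  obtain ⟨m, m0, hm⟩ := hMS0 n M B.H B.O k z y₀ B.kae.toMet B.opn (fun i => (hz i).1) hy₀ W
    (oW.mem_nhds yW)
  obtain ⟨L, hL⟩ : ∃ L, L = D * K / ((ρ / 2) ^ 2) ^ (n + 1) := ⟨_, rfl⟩
  have L0 : 0 ≤ L := by rw [hL]; positivity
  obtain ⟨Q, hQ⟩ : ∃ Q, Q = (Jo M B.H B.O fun y => B.p y ^ (-ε)).toReal := ⟨_, rfl⟩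
  have Q0 : 0 ≤ Q := hQ ▸ ENNReal.toReal_nonneg
  have hev : ∀ᶠ r in 𝓝[>] (0 : ℝ), r ^ 2 * (2 / h y₀) * (L * Q) < m := by
    have hc : ContinuousAt (fun r : ℝ => r ^ 2 * (2 / h y₀) * (L * Q)) 0 := by fun_prop
    exact mem_nhdsWithin_of_mem_nhds (hc.eventually_lt_const (by simpa using m0))
  obtain ⟨r, ⟨hr1, hr2⟩, hr⟩ := ((hm.and hev).and self_mem_nhdsWithin).exists
  have r0 : 0 < r ^ 2 := pow_pos hr 2
  have hR : ∀ y, 0 < nsq ((z · y) - (z · y₀)) + r ^ 2 := fun y =>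
    add_pos_of_nonneg_of_pos (SV.nsq_nonneg _) r0
  have hda' := P.da hda (P.add (P.add (P.lg al ho (P.hom hs hu.1) hU)
    (P.lg (-al) ho (P.hom hs hv.1) hV)) (P.smul (a := (n + 1 : ℝ)) (by positivity)
    (P.ls (g := fun i y => z i y - z i y₀) ho (fun i => P.hom hs (hw i).1) r0.le
      fun y _ => hR y)))
  have he : ∀ (t : ℝ) y, t * Real.exp (-(1 * Real.log (1 + nsq (z · y)) +
      (al * Real.log (normSq (u y)) + -al * Real.log (normSq (v y)) + (n + 1) *
        Real.log (nsq (fun i => z i y - z i y₀) + r ^ 2)))) * B.T y ^ (1 / B.d : ℝ) =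
      t * (h y / (nsq ((z · y) - (z · y₀)) + r ^ 2) ^ (n + 1)) := fun t y => by
    rw [mul_assoc, hh]
    exact congrArg _ (spl (hR y))
  have hf : Jo M B.H O (fun y => normSq (χ y : ℂ) *
      (h y / (nsq ((z · y) - (z · y₀)) + r ^ 2) ^ (n + 1))) ≠ ⊤ := by
    refine ne_top_of_le_ne_top (ENNReal.mul_ne_top ENNReal.ofReal_ne_top hq)
      (jle (K := K / (r ^ 2) ^ (n + 1)) ho.measurableSet hs (by positivity) fun y hy => ?_)
    have hp := Real.rpow_pos_of_pos (B.pos y hy.1).1 (-ε)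
    rcases le_total ρ ‖(z · y) - (z · y₀)‖ with ht | ht
    · rw [χ3 y ht]; simp only [ofReal_zero, map_zero, zero_mul]; positivity
    · rw [normSq_ofReal, div_mul_eq_mul_div]
      refine (mul_le_of_le_one_left (div_pos (h0 y hy) (pow_pos (hR y) _)).le
        (mul_le_one₀ (χ1 y).2 (χ1 y).1 (χ1 y).2)).trans ?_
      exact div_le_div₀ (by positivity) (h1 y hy ht) (by positivity)
        (pow_le_pow_left₀ r0.le (le_add_of_nonneg_left (SV.nsq_nonneg _)) _)
  refine Exists.elim (hSOL n M B.H O _ _ _ _ _ ho (hHQ0 n M B _ _ _ hg) cb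
    (fun y hy => Real.rpow_nonneg (B.pos y hy.1).2.2.le _)
    ((measurable_const.indicator (measurableSet_Icc (a := ρ / 2) (b := ρ))).comp_aemeasurable
      (cn.aemeasurable ho.measurableSet)) hda' (fun i => by simpa only [he] using hf)
    (by simpa only [he] using hf) ⟨ENNReal.ofReal (L * Q), ?_, Frequently.of_forall fun i => ?_⟩)
    fun F ⟨hF, nF, fF⟩ => ?_
  rotate_right
  · obtain ⟨K1, k1⟩ := bd hz 1 zero_le_one
    obtain ⟨K2, k2⟩ := bd hw (r ^ 2) r0.le
    have hj' : Jo M B.H O (fun y => normSq (F y) * (B.T y ^ x * B.p y ^ (c + n + 2))) ≠ ⊤ := by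
      refine ne_top_of_le_ne_top (ENNReal.mul_ne_top ENNReal.ofReal_ne_top fF)
        (jle (K := Real.exp (al * Real.log C + (n + 2) * Real.log (max K1 K2))) ho.measurableSet
          Subset.rfl (Real.exp_pos _).le fun y hy => ?_)
      have h := low (n := n) (K := max K1 K2) (one_pos.trans_le (hA y)) (hR y) (B.pos y hy.1).2.2 (B.pos y hy.1).1
        (B.pos y hy.1).2.1 al0 al1 alj (hl y hy)
        (le_max_of_le_left (by rw [add_comm]; exact k1 y hy.1)) (le_max_of_le_right (k2 y hy.1))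
      refine (mul_le_mul_of_nonneg_left h (normSq_nonneg _)).trans_eq ?_
      rw [mul_left_comm, ← mul_assoc (normSq (F y))]
      rfl
    have hae := G.aez hg
    obtain ⟨g, g1, g2⟩ := hREX n M B.H B.O _ F (fun y => B.T y ^ x * B.p y ^ (c + n + 2))
      B.kae.toMet B.opn hg.1.1 (hae.mono fun y hy _ => hy.2) hF ((G.cT.pow _).mul (B.cp.pow _))
      (fun y hy => mul_pos (pow_pos (B.pos y hy).2.2 _) (pow_pos (B.pos y hy).1 _)) hj'
    obtain ⟨y, hy, hy'⟩ := nF
    refine ⟨g, B.l2 _ _ _ g1 fun ht => hj' (ht ▸ ?_), y, hy.1, (g2 y hy.1 hy.2).symm ▸ hy'⟩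
    unfold Jo
    rw [setLIntegral_congr (t := O) (hae.mono fun y hy => propext
      ⟨fun _ => hy, fun _ => hy.1⟩ : B.O =ᵐ[M.mu B.H] O)]
    exact setLIntegral_congr_fun ho.measurableSet fun y hy => by simp only [g2 y hy.1 hy.2]
  · simp only [he]
    refine lt_of_not_ge fun hle => ?_
    have hy := h0 y₀ hy1
    have h2 := (hr1.trans (jle (K := r ^ 2 * (2 / h y₀)) oW.measurableSet
      (hW.trans inter_subset_left) (by positivity) fun y hy' => ?_)).trans
      (mul_le_mul_right hle _)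
    · rw [← ENNReal.ofReal_mul (by positivity), ENNReal.ofReal_le_ofReal_iff (by positivity)] at h2
      exact h2.not_gt hr2
    · obtain ⟨-, a1, a2⟩ := hW hy'
      rw [χ2 y (le_of_lt a1), ofReal_one, map_one, one_mul, ← mul_div_assoc, mul_assoc]
      refine div_le_div_of_nonneg_right (le_mul_of_one_le_right r0.le ?_) (pow_pos (hR y) _).le
      rw [div_mul_eq_mul_div, one_le_div hy]
      have : h y₀ / 2 < h y := a2
      linarith
  · simp only [he]
    rw [ENNReal.ofReal_mul L0, hQ, ENNReal.ofReal_toReal hq]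
    refine jle ho.measurableSet hs L0 fun y hy => ?_
    have hp := Real.rpow_pos_of_pos (B.pos y hy.1).1 (-ε)
    by_cases ht : ρ / 2 ≤ ‖(z · y) - (z · y₀)‖ ∧ ‖(z · y) - (z · y₀)‖ ≤ ρ
    · rw [Function.comp_apply, indicator_of_mem (by exact ht), hL, div_mul_eq_mul_div, mul_assoc,
        mul_div_assoc]
      refine mul_le_mul_of_nonneg_left (div_le_div₀ (by positivity) (h1 y hy ht.2) (by positivity)
        (pow_le_pow_left₀ (by positivity) ?_ _)) hD
      exact ((pow_le_pow_left₀ (by positivity) ht.1 2).trans (SV.FRZ.norm_sq_le _)).trans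
        (le_add_of_nonneg_right r0.le)
    · rw [Function.comp_apply, indicator_of_notMem (by exact ht), zero_mul]
      positivity

end Pool.Agent.Lib.KC
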