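import Pool.Agent.Lib.KC.Blue
import Pool.Agent.Lib.KH.All

/-! Row HQ0: the theorem of Hörmander for the flat measure. -/

open scoped Classical Topology ContDiff ComplexOrder Matrix ENNReal
open Set MeasureTheory Complex Metric Filter

noncomputable section

namespace Pool.Agent.Lib.KC

open Pool.Agent.Lib.SV (E nsq)
open Pool.Agent.Lib.HS32 Pool.Agent.Lib.KH

namespace HQ0

variable {n : ℕ} {M : Mf n}

theorem sub {O O' : Set M.X} {p : M.Ch → E n → Prop} (h : O' ⊆ O) (hp : OnK M O p) :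
    OnK M O' p := fun e he z hz ho => hp e he z hz (h ho)

theorem smul {O : Set M.X} {f : M.X → ℝ} (c : ℝ) (hf : SmK M O f) :
    SmK M O (fun y => c * f y) ∧
      OnK M O fun e z => M.hs (fun y => c * f y) e z = c • M.hs f e z := by
  refine ⟨fun e he z hz ho => contDiffAt_const.mul (hf e he z hz ho), fun e he z hz ho => ?_⟩
  have h1 : M.lc (fun y => c * f y) e = fun w => (c : ℂ) * M.lc f e w :=
    funext fun w => by simp [Mf.lc]
  have h2 : ContDiffAt ℝ ∞ (M.lc f e) z := cd_ofReal (hf e he z hz ho)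
  change hess (M.lc (fun y => c * f y) e) z = c • hess (M.lc f e) z
  rw [h1, hess_const_mul _ h2, Complex.coe_smul]

theorem core [M.Cpt] (B : Bs M) {x c : ℕ} {g : M.X → ℂ} (hg : B.Gn x c g) {q x0 : ℝ}
    (hx : x0 * B.d = 1 + q) {ε : ℕ → ℝ} {r : ℕ → M.X → ℝ} {a : ℕ → M.X → ℝ} {b : M.X → ℝ}
    (e0 : ∀ i, 0 ≤ ε i) (lim : Tendsto ε atTop (𝓝 0)) (sm : ∀ i, SmK M B.O (r i))
    (r0 : ∀ i, ∀ y ∈ B.O, r i y ≤ 0)
    (pos : ∀ i, OnK M B.O fun e z =>
      (M.hs (r i) e z - q • M.ric B.H e z + ε i • B.H e z).PosSemidef)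
    (ha : ∀ i, ∀ y ∈ B.O, a i y = Real.exp (-r i y) * B.T y ^ x0)
    (hb : ∀ y ∈ B.O, ∀ᶠ i in atTop, b y ≤ a i y) :
    HQ M B.H (B.O ∩ {y | g y ≠ 0}) a b := by
  intro ph β Γ mβ hD fin
  have hC := B.cmp x c g hg.1 hg.2
  obtain ⟨k1, -, -, -, -, k6⟩ := bKIT n M B.H _ B.kae.toMet hC.1
  have hO : MeasurableSet (B.O ∩ {y | g y ≠ 0}) := hC.1.measurableSet
  obtain ⟨l1, l2⟩ := smul (-x0) (sub (O' := B.O ∩ {y | g y ≠ 0}) inter_subset_left B.sT)
  obtain ⟨m1, m2⟩ := k6 ph _ hD.sf l1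
  have ex : ∀ i, ∀ y ∈ B.O ∩ {y | g y ≠ 0},
      Real.exp (-(ph y + -x0 * Real.log (B.T y) + r i y)) = Real.exp (-ph y) * a i y :=
    fun i y hy => by
    rw [ha i y hy.1, Real.rpow_def_of_pos (B.pos y hy.1).2.2, ← Real.exp_add, ← Real.exp_add]
    congr 1
    ring
  have jo : ∀ (i : ℕ) (w : M.X → ℝ), Jo M B.H (B.O ∩ {y | g y ≠ 0})
      (fun y => w y * Real.exp (-(ph y + -x0 * Real.log (B.T y) + r i y))) =
      Jo M B.H (B.O ∩ {y | g y ≠ 0}) fun y => w y * Real.exp (-ph y) * a i y := fun i w =>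
    setLIntegral_congr_fun hO fun y hy => by
      beta_reduce
      rw [ex i y hy, mul_assoc]
  have hdat : ∀ i, Dat M B.H (B.O ∩ {y | g y ≠ 0}) (ε i)
      (fun y => ph y + -x0 * Real.log (B.T y) + r i y) β Γ := fun i => by
    obtain ⟨s1, s2⟩ := k6 _ (r i) m1 (sub inter_subset_left (sm i))
    have e1 : ∀ e ∈ M.C, ∀ z ∈ e.target, e.symm z ∈ B.O ∩ {y | g y ≠ 0} →
        M.hs (fun y => ph y + -x0 * Real.log (B.T y) + r i y) e z + M.ric B.H e z +
          ε i • B.H e z =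
        M.hs ph e z + (M.hs (r i) e z - q • M.ric B.H e z + ε i • B.H e z) :=
      fun e he z hz ho => by
      rw [s2 e he z hz ho, m2 e he z hz ho, l2 e he z hz ho, B.hT e he z hz ho.1, smul_smul,
        neg_mul, hx]
      module
    refine ⟨e0 i, s1, hD.sg, mβ, hD.b0, fun e he z hz ho => ?_, fun e he z hz ho v => ?_,
      ne_of_eq_of_ne (jo i _) (fin i)⟩
    · exact (congrArg Matrix.PosSemidef (e1 e he z hz ho)).mpr
        ((hD.pos e he z hz ho).add (pos i e he z hz ho.1))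
    · rw [e1 e he z hz ho]
      exact (hD.dom e he z hz ho v).trans
        (mul_le_mul_of_nonneg_left (KHM.nq_up _ (pos i e he z hz ho.1) v) (hD.b0 _ ho))
  have hlb : Lb M (B.O ∩ {y | g y ≠ 0}) fun i y => ph y + -x0 * Real.log (B.T y) + r i y :=
    fun y hy => by
    have hn := hC.1.mem_nhds hy
    have c1 := (k1 ℝ _ m1).1.continuousAt hn
    refine ⟨ph y + -x0 * Real.log (B.T y) + 1, ?_⟩
    filter_upwards [hn, c1.eventually (gt_mem_nhds (lt_add_one _))] with w hw h1 i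
    linarith [r0 i w hw.1]
  obtain ⟨F, hF, hle⟩ := aKH n M B.H _ ε _ (fun _ => β) Γ B.kae hC hdat lim hlb
  refine ⟨F, hF, le_trans (setLIntegral_mono' hO fun y hy => ?_) (hle.trans (le_of_eq ?_))⟩
  · beta_reduce
    rw [mul_assoc, ENNReal.ofReal_mul (normSq_nonneg _)]
    refine mul_le_mul_right (le_liminf_of_le (h := (hb y hy.1).mono fun i hi => ?_)) _
    rw [ex i y hy]
    exact ENNReal.ofReal_le_ofReal (mul_le_mul_of_nonneg_left hi (Real.exp_pos _).le)
  · exact congrArg (liminf · atTop) (funext fun i => jo i β)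

end HQ0

theorem cHQ0 : St_HQ0 := by
  intro n M _ B x c g hg
  have d0 : (B.d : ℝ) ≠ 0 := Nat.cast_ne_zero.2 B.d0.ne'
  refine HQ0.core B hg (q := 0) (x0 := 1 / B.d) (ε := fun _ => 0) (r := fun _ _ => 0)
    (by rw [one_div_mul_cancel d0, add_zero]) (fun _ => le_rfl) tendsto_const_nhds
    (fun _ _ _ _ _ _ => contDiffAt_const) (fun _ _ _ => le_rfl) (fun _ e he z hz ho => ?_)
    (fun _ _ _ => by rw [neg_zero, Real.exp_zero, one_mul])
    fun _ _ => Eventually.of_forall fun _ => le_rfl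
  have h := (HQ0.smul (O := B.O) 0 B.sT).2 e he z hz ho
  simp only [zero_mul, zero_smul] at h
  beta_reduce
  rw [h, zero_smul, zero_smul, sub_zero, add_zero]
  exact Matrix.PosSemidef.zero

end Pool.Agent.Lib.KC
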