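import Pool.Agent.Lib.KC.Blue

/-! Project kc: the concentrating measures. -/

open scoped Classical Topology ENNReal
open Set MeasureTheory Complex Filter

noncomputable section

namespace Pool.Agent.Lib.KC

open Pool.Agent.Lib.SV (E nsq)
open Pool.Agent.Lib.HS32 Pool.Agent.Lib.KH

theorem cKRK (hGMK : St_GMK) : St_KRK := by
  intro n M _ A y₀ ρ r r0
  have G := hGMK n M A.toBs
  have fin := G.fin
  have cs : ContinuousOn (fun y => (A.s · y)) A.O := continuousOn_pi.2 fun i => G.cnt (A.hs i)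
  have ms : MeasurableSet (A.bx y₀ ρ) := by
    have o := ((cs.sub (continuousOn_const (c := (A.s · y₀)))).norm).isOpen_inter_preimage A.opn
      (isOpen_Ioi (a := ρ))
    refine (congrArg MeasurableSet (Set.ext fun y => ?_)).mp
      (A.opn.measurableSet.diff o.measurableSet)
    exact ⟨fun h => ⟨h.1, le_of_not_gt (b := ρ) fun k => h.2 ⟨h.1, k⟩⟩,
      fun h => ⟨h.1, fun k => lt_irrefl ρ (lt_of_lt_of_le k.2 h.2)⟩⟩
  have q0 : ∀ v : E A.k, 0 ≤ nsq v := fun v => Finset.sum_nonneg fun _ _ => normSq_nonneg _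
  have k0 : ∀ t, 0 < kk r (tl (A.s · y₀)) t := fun t =>
    div_pos (by positivity) (pow_pos (add_pos_of_nonneg_of_pos (q0 _) (by positivity)) _)
  have ck : ContinuousOn (fun y => kk r (tl (A.s · y₀)) (tl (A.s · y))) A.O :=
    continuousOn_const.div (((continuousOn_finsetSum _ fun i _ => continuous_normSq.comp_continuousOn
      ((G.cnt (A.hs (some i))).sub continuousOn_const)).add continuousOn_const).pow _) fun y _ =>
      (pow_pos (add_pos_of_nonneg_of_pos (q0 _) (by positivity)) _).ne'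
  have mk := ((ck.mono inter_subset_left).aemeasurable (μ := M.mu A.H) ms).ennreal_ofReal
  have it : ∀ f : M.X → ℝ≥0∞, ∫⁻ y, f y ∂A.kr y₀ ρ r = ∫⁻ y in A.bx y₀ ρ,
      f y * ENNReal.ofReal (kk r (tl (A.s · y₀)) (tl (A.s · y))) ∂M.mu A.H := fun f =>
    (lintegral_withDensity_eq_lintegral_mul_non_measurable₀ _ mk
      (ae_of_all _ fun _ => ENNReal.ofReal_lt_top) f).trans (lintegral_congr fun y => mul_comm _ _)
  have ae : ∀ q : M.X → Prop,
      (∀ᵐ y ∂A.kr y₀ ρ r, q y) ↔ ∀ᵐ y ∂M.mu A.H, y ∈ A.bx y₀ ρ → q y := fun q =>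
    ((ae_withDensity_iff' mk).trans (eventually_congr (.of_forall fun y =>
      ⟨fun h => h (ENNReal.ofReal_pos.2 (k0 _)).ne', fun h _ => h⟩))).trans (ae_restrict_iff' ms)
  have fn : A.kr y₀ ρ r univ ≠ ⊤ := by
    rw [← lintegral_one, it]
    refine ne_top_of_le_ne_top (b := ∫⁻ _ in A.bx y₀ ρ,
      ENNReal.ofReal (r ^ 2 / (r ^ 2) ^ (A.k + 1)) ∂M.mu A.H) ?_ (lintegral_mono fun y => ?_)
    · rw [lintegral_const]
      exact ENNReal.mul_ne_top ENNReal.ofReal_ne_top (measure_ne_top _ _)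
    · rw [one_mul]
      exact ENNReal.ofReal_le_ofReal (div_le_div_of_nonneg_left (by positivity) (by positivity)
        (pow_le_pow_left₀ (by positivity) (le_add_of_nonneg_left (q0 _)) _))
  have lo : ∀ y ∈ A.bx y₀ ρ, r ^ 2 / (A.k * ρ ^ 2 + r ^ 2) ^ (A.k + 1) ≤
      kk r (tl (A.s · y₀)) (tl (A.s · y)) := fun y hy => by
    refine div_le_div_of_nonneg_left (by positivity)
      (pow_pos (add_pos_of_nonneg_of_pos (q0 _) (by positivity)) _)
      (pow_le_pow_left₀ (add_nonneg (q0 _) (by positivity)) (add_le_add_left ?_ _) _)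
    refine (Finset.sum_le_card_nsmul _ _ (ρ ^ 2) fun i _ => ?_).trans_eq (by simp)
    rw [normSq_eq_norm_sq]
    exact pow_le_pow_left₀ (norm_nonneg _) ((norm_le_pi_norm _ (some i)).trans hy.2) 2
  have c0 : 0 < r ^ 2 / (A.k * ρ ^ 2 + r ^ 2) ^ (A.k + 1) := by positivity
  have nae : ∀ q : M.X → Prop,
      (∀ᵐ y ∂A.nu y₀ ρ r, q y) ↔ ∀ᵐ y ∂M.mu A.H, y ∈ A.bx y₀ ρ → q y := fun q =>
    (Measure.ae_ennreal_smul_measure_iff (ENNReal.inv_ne_zero.2 fn)).trans (ae q)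
  have ni : A.kr y₀ ρ r univ ≠ 0 → ∀ f : M.X → ℝ≥0∞,
      ∫⁻ y, f y ∂A.kr y₀ ρ r = A.kr y₀ ρ r univ * ∫⁻ y, f y ∂A.nu y₀ ρ r := fun h f => by
    rw [An.nu, lintegral_smul_measure, smul_eq_mul, ← mul_assoc, ENNReal.mul_inv_cancel h fn,
      one_mul]
  have ea : MeasureTheory.ae (A.nu y₀ ρ r) = MeasureTheory.ae ((M.mu A.H).restrict (A.bx y₀ ρ)) :=
    Filter.ext' fun q => (nae q).trans (ae_restrict_iff' ms).symm
  have a1 := Measure.ae_le_iff_absolutelyContinuous.1 ea.le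
  refine ⟨ms, it, ae, fn, ⟨_, c0, lo⟩, fun h => ⟨?_⟩, nae, ni,
    fun hf => ((hf.mono inter_subset_left).aemeasurable ms).mono_ac a1,
    fun hf => ((hf.mono inter_subset_left).aemeasurable ms).mono_ac a1, fun h f C hf =>
    ⟨fun k => ?_, hf.1.aemeasurable.mono_ac (Measure.ae_le_iff_absolutelyContinuous.1 ea.ge)⟩⟩
  · rw [An.nu, Measure.smul_apply, smul_eq_mul, ENNReal.inv_mul_cancel h fn]
  · refine ENNReal.mul_ne_top fn hf.1.lintegral_lt_top.ne (top_le_iff.1 ?_)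
    rw [← ni h, it, ← ENNReal.top_mul (ENNReal.ofReal_pos.2 c0).ne', ← k, Jo,
      ← lintegral_mul_const' _ _ ENNReal.ofReal_ne_top]
    exact lintegral_mono_ae ((ae_restrict_mem ms).mono fun y hy =>
      mul_le_mul_right (ENNReal.ofReal_le_ofReal (lo y hy)) _)

end Pool.Agent.Lib.KC
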