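import Pool.Agent.Lib.KC.Blue

/-! Project kc, row LIP: near a general point the base is a Lipschitz graph. -/

open scoped Classical Topology NNReal
open Set MeasureTheory Filter Metric

set_option linter.unusedVariables false

noncomputable section

namespace Pool.Agent.Lib.KC

open Pool.Agent.Lib.SV (E nsq)
open Pool.Agent.Lib.HS32 Pool.Agent.Lib.KH
open MvPolynomial (eval pderiv X C)

namespace LIP

theorem strict {σ : Type} [Fintype σ] [DecidableEq σ] (m : MvPolynomial σ ℂ) (s₀ : σ → ℂ) :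
    ∃ f' : (σ → ℂ) →L[ℂ] ℂ, HasStrictFDerivAt (fun s : σ → ℂ => eval s m) f' s₀ ∧
      ∀ i, f' (Pi.single i 1) = eval s₀ (pderiv i m) := by
  induction m using MvPolynomial.induction_on with
  | C a =>
    refine ⟨0, ?_, fun i => by simp⟩
    simpa using hasStrictFDerivAt_const (𝕜 := ℂ) a s₀
  | add p q hp hq =>
    obtain ⟨a, ha, ha'⟩ := hp
    obtain ⟨b, hb, hb'⟩ := hq
    refine ⟨a + b, ?_, fun i => by simp [ha', hb']⟩
    have := ha.add hb
    refine this.congr_of_eventuallyEq (Eventually.of_forall fun s => ?_)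
    simp
  | mul_X p j hp =>
    obtain ⟨a, ha, ha'⟩ := hp
    have hj : HasStrictFDerivAt (fun s : σ → ℂ => s j)
        (ContinuousLinearMap.proj j : (σ → ℂ) →L[ℂ] ℂ) s₀ :=
      (ContinuousLinearMap.proj j : (σ → ℂ) →L[ℂ] ℂ).hasStrictFDerivAt
    refine ⟨_, (ha.mul hj).congr_of_eventuallyEq (Eventually.of_forall fun s => ?_), fun i => ?_⟩
    · simp
    · by_cases h : j = i
      · subst h
        simp [ha', Derivation.leibniz]
      · simp [ha', Derivation.leibniz, h, MvPolynomial.pderiv_X]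

theorem lipz {k : ℕ} (m : MvPolynomial (Sx k) ℂ) (s₀ : Sx k → ℂ)
    (h : eval s₀ (pderiv none m) ≠ 0) : ∃ ρ > (0 : ℝ), ∃ L > (0 : ℝ), ∀ u v : Sx k → ℂ,
      ‖u - s₀‖ ≤ ρ → ‖v - s₀‖ ≤ ρ → eval u m = 0 → eval v m = 0 → ‖u - v‖ ≤ L * ‖tl u - tl v‖ := by
  obtain ⟨f', hf, hf'⟩ := strict m s₀
  set a := eval s₀ (pderiv none m) with ha
  have ha0 : 0 < ‖a‖ := norm_pos_iff.2 h
  have h1 := hf.isLittleO.def (c := ‖a‖ / 2) (by positivity)
  obtain ⟨ρ, hρ, hb⟩ := Metric.eventually_nhds_iff.1 h1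
  refine ⟨ρ / 2, by positivity, 2 + 2 * ‖f'‖ / ‖a‖, by positivity, fun u v hu hv eu ev => ?_⟩
  have hd : dist (u, v) (s₀, s₀) < ρ := by
    rw [Prod.dist_eq, dist_eq_norm, dist_eq_norm]
    exact max_lt (by linarith) (by linarith)
  have h2 := hb hd
  simp only [eu, ev, sub_zero, zero_sub, norm_neg] at h2
  set w := u - v with hw
  set τ := ‖tl u - tl v‖ with hτ
  have hτ0 : 0 ≤ τ := norm_nonneg _
  have hs : ∀ i, ‖w (some i)‖ ≤ τ := fun i => norm_le_pi_norm (tl u - tl v) i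
  set w' : Sx k → ℂ := Function.update w none 0 with hw'
  have hw'n : ‖w'‖ ≤ τ := by
    refine (pi_norm_le_iff_of_nonneg hτ0).2 fun i => ?_
    cases i with
    | none => simpa [hw'] using hτ0
    | some i => simpa [hw'] using hs i
  have hdec : w = w none • (Pi.single none 1 : Sx k → ℂ) + w' := by
    funext i
    cases i with
    | none => simp [hw']
    | some i => simp [hw']
  have hfw : f' w = w none * a + f' w' := by
    conv_lhs => rw [hdec]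
    rw [map_add, map_smul, hf', smul_eq_mul]
  have hwn : ‖w‖ ≤ ‖w none‖ + τ := by
    refine (pi_norm_le_iff_of_nonneg (by positivity)).2 fun i => ?_
    cases i with
    | none => linarith
    | some i => linarith [hs i, norm_nonneg (w none)]
  have h3 : ‖w none‖ * ‖a‖ ≤ ‖f' w‖ + ‖f'‖ * τ := by
    have e : w none * a = f' w - f' w' := by rw [hfw]; ring
    rw [← norm_mul, e]
    refine (norm_sub_le _ _).trans (add_le_add le_rfl ?_)
    exact (f'.le_opNorm _).trans (mul_le_mul_of_nonneg_left hw'n (norm_nonneg _))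
  have h4 : ‖w none‖ ≤ (1 + 2 * ‖f'‖ / ‖a‖) * τ := by
    have h5 : ‖w none‖ * ‖a‖ ≤ (‖a‖ + 2 * ‖f'‖) * τ := by
      have h6 : ‖a‖ / 2 * ‖w‖ ≤ ‖a‖ / 2 * (‖w none‖ + τ) :=
        mul_le_mul_of_nonneg_left hwn (by positivity)
      nlinarith
    have e : (1 + 2 * ‖f'‖ / ‖a‖) * τ = (‖a‖ + 2 * ‖f'‖) * τ / ‖a‖ := by field_simp
    rw [e, le_div_iff₀ ha0]
    exact h5
  linarith

theorem graph {k : ℕ} (m : MvPolynomial (Sx k) ℂ) (s₀ : Sx k → ℂ)
    (h : eval s₀ (pderiv none m) ≠ 0) : ∃ ρ > (0 : ℝ), ∃ (L : ℝ) (Θ : E k → ℂ), 0 < L ∧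
      Continuous Θ ∧ ∀ u : Sx k → ℂ, ‖u - s₀‖ ≤ ρ → eval u m = 0 → u none = Θ (tl u) ∧
        (eval s₀ m = 0 → ‖u - s₀‖ ≤ L * ‖tl u - tl s₀‖) := by
  obtain ⟨ρ, hρ, L, hL, H⟩ := lipz m s₀ h
  set Z : Set (Sx k → ℂ) := {u | ‖u - s₀‖ ≤ ρ ∧ eval u m = 0} with hZ
  have hex : ∀ t : E k, ∃ u : Sx k → ℂ, t ∈ tl '' Z → u ∈ Z ∧ tl u = t := fun t => by
    by_cases ht : t ∈ tl '' Z
    · obtain ⟨u, hu, e⟩ := ht
      exact ⟨u, fun _ => ⟨hu, e⟩⟩
    · exact ⟨0, fun h' => absurd h' ht⟩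
  choose σ hσ using hex
  have hl : LipschitzOnWith ⟨L, hL.le⟩ (fun t => σ t none) (tl '' Z) := by
    refine LipschitzOnWith.of_dist_le_mul fun t ht t' ht' => ?_
    obtain ⟨h1, e1⟩ := hσ t ht
    obtain ⟨h2, e2⟩ := hσ t' ht'
    have := H _ _ h1.1 h2.1 h1.2 h2.2
    rw [e1, e2] at this
    rw [dist_eq_norm, dist_eq_norm]
    exact (norm_le_pi_norm (σ t - σ t') none).trans this
  obtain ⟨Θ, hΘ, hE⟩ := hl.extend_finite_dimension
  refine ⟨ρ, hρ, L, Θ, hL, hΘ.continuous, fun u hu eu => ⟨?_, fun e0 => ?_⟩⟩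
  · have ht : tl u ∈ tl '' Z := ⟨u, ⟨hu, eu⟩, rfl⟩
    obtain ⟨h1, e1⟩ := hσ _ ht
    have := H _ _ hu h1.1 eu h1.2
    rw [e1, sub_self, norm_zero, mul_zero, norm_le_zero_iff, sub_eq_zero] at this
    rw [← hE ht]
    exact congrFun this none
  · exact H u s₀ hu (by simpa using hρ.le) eu e0

end LIP

theorem cLIP (hGMK : St_GMK) : St_LIP := by
  intro n M _ A
  have G := hGMK n M A.toBs
  have h1 := G.aez ⟨G.pol (pderiv none A.m1) A.hs, A.dm⟩
  filter_upwards [h1] with y₀ hy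
  obtain ⟨ρ, hρ, L, Θ, hL, hΘ, H⟩ := LIP.graph A.m1 (A.s · y₀) hy.2
  refine ⟨ρ, hρ, L, Θ, hL, hΘ, fun y hy' => ?_⟩
  obtain ⟨h2, h3⟩ := H (A.s · y) hy'.2 (A.hm y hy'.1)
  exact ⟨h2, h3 (A.hm y₀ hy.1)⟩

end Pool.Agent.Lib.KC
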