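import Pool.Agent.Lib.KC.Blue
import Pool.Agent.Lib.KG67.Car
import Pool.Agent.Lib.SV.B_ZBD

/-! Project kc, row MOM: uniform negative moments near a general fibre. -/

open scoped Classical Topology ContDiff ComplexOrder Matrix ENNReal
open Set MeasureTheory Complex Metric Filter

noncomputable section

namespace Pool.Agent.Lib.KC

open Pool.Agent.Lib.SV (E nsq)
open Pool.Agent.Lib.HS32 Pool.Agent.Lib.KH
open MvPolynomial (eval coeff)

namespace MOM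

theorem fib (w d : ℕ) : ∃ β > (0 : ℝ), ∃ C : ℝ≥0∞, C ≠ ⊤ ∧ ∀ (k : ℕ) (I : Type)
    (Nm : MvPolynomial (Fin w) (MvPolynomial I ℂ)) (τ : E k → I → ℂ) (c₀ : ℝ)
    (κ : E k → ℝ≥0∞), (∀ i, Nm.degreeOf i ≤ d) → Continuous τ → 0 < c₀ → Measurable κ →
    ∃ G : E k × E w → ℝ≥0∞, Measurable G ∧ ∫⁻ q, G q ≤ C * ∫⁻ t, κ t ∧
      ∀ t z μ, c₀ ≤ ‖eval (τ t) (coeff μ Nm)‖ → G (t, z) =
        ‖(c₀ : ℂ)⁻¹ * eval z (MvPolynomial.map (eval (τ t)) Nm)‖ₑ ^ (-β) *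
          ENNReal.ofReal ((1 + ‖z‖ ^ 2) ^ (-(w + 1 : ℝ))) * κ t := by
  obtain ⟨β, b0, C, c1, hC⟩ := KG67.car w d (s := w + 1) (lt_add_one _)
  refine ⟨β, b0, C, c1, fun k I Nm τ c₀ κ hd hτ h0 hκ => ?_⟩
  have hc : ∀ μ, Continuous fun t => eval (τ t) (coeff μ Nm) := fun μ =>
    (MvPolynomial.continuous_eval _).comp hτ
  have hS : MeasurableSet {q : E k × E w | ∃ μ, c₀ ≤ ‖eval (τ q.1) (coeff μ Nm)‖} := by
    rw [ofPred_exists]
    exact .iUnion fun μ =>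
      (isClosed_le continuous_const ((hc μ).comp continuous_fst).norm).measurableSet
  have hq : Continuous fun q : E k × E w => eval q.2 (MvPolynomial.map (eval (τ q.1)) Nm) := by
    simp only [MvPolynomial.eval_map, MvPolynomial.eval₂_eq']
    exact continuous_finsetSum _ fun μ _ => ((hc μ).comp continuous_fst).mul (by fun_prop)
  have hm : Measurable fun q : E k × E w =>
      ‖(c₀ : ℂ)⁻¹ * eval q.2 (MvPolynomial.map (eval (τ q.1)) Nm)‖ₑ ^ (-β) *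
        ENNReal.ofReal ((1 + ‖q.2‖ ^ 2) ^ (-(w + 1 : ℝ))) :=
    ((continuous_const.mul hq).measurable.enorm.pow_const _).mul (by fun_prop)
  refine ⟨indicator {q | ∃ μ, c₀ ≤ ‖eval (τ q.1) (coeff μ Nm)‖} fun q =>
    ‖(c₀ : ℂ)⁻¹ * eval q.2 (MvPolynomial.map (eval (τ q.1)) Nm)‖ₑ ^ (-β) *
      ENNReal.ofReal ((1 + ‖q.2‖ ^ 2) ^ (-(w + 1 : ℝ))) * κ q.1, 
    (hm.mul (hκ.comp measurable_fst)).indicator hS, (lintegral_prod_le _).trans ?_,
    fun t z μ h => indicator_of_mem (show (t, z) ∈ {q : E k × E w |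
      ∃ μ, c₀ ≤ ‖eval (τ q.1) (coeff μ Nm)‖} from ⟨μ, h⟩) _⟩
  rw [← lintegral_const_mul _ hκ]
  refine lintegral_mono fun t => ?_
  by_cases h : ∃ μ, c₀ ≤ ‖eval (τ t) (coeff μ Nm)‖
  · obtain ⟨μ, hμ⟩ := h
    have := hC (MvPolynomial.C (c₀ : ℂ)⁻¹ * MvPolynomial.map (eval (τ t)) Nm) (fun i =>
      (MvPolynomial.degreeOf_C_mul_le _ _ _).trans (le_trans (by
        simp only [MvPolynomial.degreeOf_def]
        exact Multiset.count_le_of_le _ MvPolynomial.degrees_map_le) (hd i))) μ (by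
      rw [MvPolynomial.coeff_C_mul, MvPolynomial.coeff_map, norm_mul, norm_inv, norm_real,
        Real.norm_of_nonneg h0.le]
      exact (one_le_inv_mul₀ h0).2 hμ) β ⟨b0.le, le_rfl⟩
    simp only [map_mul, MvPolynomial.eval_C] at this
    exact (lintegral_mono fun z => indicator_le_self _ _ _).trans ((lintegral_mul_const (κ t)
      (hm.comp (measurable_prodMk_left (x := t)))).trans_le (mul_le_mul_left this _))
  · refine (lintegral_congr fun z => indicator_of_notMem (show (t, z) ∉ {q : E k × E w |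
      ∃ μ, c₀ ≤ ‖eval (τ q.1) (coeff μ Nm)‖} from h) _).trans_le ?_
    rw [lintegral_zero]
    exact zero_le

theorem yg {β ε s b : ℝ} (hβ : 0 < β) (hε : 0 < ε) (hs : 0 ≤ s) (hb : 0 ≤ b) :
    ∃ α > (0 : ℝ), ∀ X j : ℝ, 0 < X → 0 < j → j ≤ 1 →
      (X ^ 2 * j ^ b) ^ (-α) ≤ X ^ (-β) * j ^ s * j + j ^ (-ε) := by
  obtain ⟨γ, g0, hγ⟩ : ∃ γ > (0 : ℝ), γ * β = 2 * (s + 1 + b) :=
    ⟨2 * (s + 1 + b) / β, by positivity, div_mul_cancel₀ _ hβ.ne'⟩
  obtain ⟨α, a0, a1, a2, a3⟩ : ∃ α > (0 : ℝ), α ≤ β / 4 ∧ α ≤ 1 ∧ α * (2 * γ + b) ≤ ε :=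
    ⟨min (min (β / 4) 1) (ε / (2 * γ + b)), by positivity, (min_le_left _ _).trans
      (min_le_left _ _), (min_le_left _ _).trans (min_le_right _ _),
      (le_div_iff₀ (by positivity)).1 (min_le_right _ _)⟩
  refine ⟨α, a0, fun X j hX hj h1 => ?_⟩
  obtain ⟨x, rfl⟩ : ∃ x, X = Real.exp x := ⟨_, (Real.exp_log hX).symm⟩
  obtain ⟨l, rfl⟩ : ∃ l, j = Real.exp l := ⟨_, (Real.exp_log hj).symm⟩
  rw [Real.exp_le_one_iff] at h1
  simp only [← Real.exp_nat_mul, ← Real.exp_mul, ← Real.exp_add]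
  by_cases h : γ * l ≤ x
  · refine le_add_of_nonneg_of_le (Real.exp_pos _).le (Real.exp_le_exp.2 ?_)
    push_cast
    nlinarith [mul_le_mul_of_nonneg_left h a0.le, mul_le_mul_of_nonpos_left a3 h1]
  · refine le_add_of_le_of_nonneg (Real.exp_le_exp.2 ?_) (Real.exp_pos _).le
    push_cast
    have h2 : x ≤ 0 := (not_le.1 h).le.trans (mul_nonpos_of_nonneg_of_nonpos g0.le h1)
    have h3 : γ * β * l = 2 * (s + 1 + b) * l := by rw [hγ]
    nlinarith [mul_le_mul_of_nonneg_left (not_le.1 h).le hβ.le, mul_le_mul_of_nonpos_left a1 h2,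
      mul_le_mul_of_nonpos_left (mul_le_mul_of_nonneg_left a2 hb) h1]

theorem pt {β ε s : ℝ} (b : ℕ) (hβ : 0 < β) (hε : 0 < ε) (hs : 0 ≤ s) :
    ∃ α > (0 : ℝ), ∀ c C : ℝ, 0 < c → 1 ≤ C → ∃ K : ℝ≥0∞, K ≠ ⊤ ∧ ∀ (v : ℂ) (j p P Z : ℝ),
      0 ≤ j → j ≤ p → p ≤ 1 → 0 < Z → Z * p ≤ C → c * (‖v‖ ^ 2 * p ^ b) ≤ P →
      ng P α ≤ K * (‖v‖ₑ ^ (-β) * ENNReal.ofReal (Z ^ (-s)) * ENNReal.ofReal j + ng j ε) := by
  obtain ⟨α, a0, h⟩ := yg hβ hε hs b.cast_nonneg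
  refine ⟨α, a0, fun c C hc hC => ⟨ENNReal.ofReal (c ^ (-α) * C ^ s), ENNReal.ofReal_ne_top,
    fun v j p P Z j0 j1 p1 hZ z1 hP => ?_⟩⟩
  have C0 := one_pos.trans_le hC
  have K0 : 0 < c ^ (-α) * C ^ s := by positivity
  have K1 := (ENNReal.ofReal_pos.2 K0).ne'
  rcases j0.eq_or_lt with rfl | j0
  · rw [ng, ng, ENNReal.ofReal_zero, ENNReal.zero_rpow_of_neg (neg_neg_of_pos hε), add_top,
      ENNReal.mul_top K1]
    exact le_top
  by_cases hv : v = 0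
  · rw [hv, enorm_zero, ENNReal.zero_rpow_of_neg (neg_neg_of_pos hβ), ENNReal.top_mul
      (ENNReal.ofReal_pos.2 (by positivity)).ne', ENNReal.top_mul (ENNReal.ofReal_pos.2 j0).ne',
      top_add, ENNReal.mul_top K1]
    exact le_top
  have v0 := norm_pos_iff.2 hv
  have q1 : c * (‖v‖ ^ 2 * j ^ (b : ℝ)) ≤ P := by
    rw [Real.rpow_natCast]
    exact le_trans (by gcongr) hP
  have q0 : 0 < ‖v‖ ^ 2 * j ^ (b : ℝ) := by positivity
  have q2 : j ^ s ≤ C ^ s * Z ^ (-s) := by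
    rw [Real.rpow_neg hZ.le, ← div_eq_mul_inv, ← Real.div_rpow C0.le hZ.le]
    exact Real.rpow_le_rpow j0.le ((le_div_iff₀' hZ).2 (le_trans (by gcongr) z1)) hs
  rw [ng, ng, ENNReal.ofReal_rpow_of_pos ((mul_pos hc q0).trans_le q1),
    ENNReal.ofReal_rpow_of_pos j0, ← ofReal_norm, ENNReal.ofReal_rpow_of_pos v0,
    ← ENNReal.ofReal_mul (by positivity), ← ENNReal.ofReal_mul (by positivity),
    ← ENNReal.ofReal_add (by positivity) (by positivity), ← ENNReal.ofReal_mul K0.le]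
  refine ENNReal.ofReal_le_ofReal ((Real.rpow_le_rpow_of_nonpos (mul_pos hc q0) q1
    (neg_nonpos.2 a0.le)).trans ?_)
  rw [Real.mul_rpow hc.le q0.le, mul_assoc]
  refine mul_le_mul_of_nonneg_left ((h _ _ v0 j0 (j1.trans p1)).trans ?_) (by positivity)
  rw [mul_add]
  refine add_le_add ?_ (le_mul_of_one_le_left (by positivity) (Real.one_le_rpow hC hs))
  calc _ ≤ ‖v‖ ^ (-β) * (C ^ s * Z ^ (-s)) * j := by gcongr
    _ = _ := by ring

end MOM

open MOM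

theorem cMOM (hGMK : St_GMK) (hLIP : St_LIP) : St_MOM := by
  intro n M _ A D a m hm ⟨d, a', e, γ, Nm, hγ, hd, hR⟩
  have K := hGMK n M A.toBs
  obtain ⟨β, b0, C1, c1, h1⟩ := fib A.w d
  obtain ⟨α, a0, h2⟩ := pt (s := A.w + 1) (2 * a' + a) b0 A.ε0 (by positivity)
  obtain ⟨C2, c2, h3⟩ := A.push
  obtain ⟨C3, c3, h4⟩ : ∃ C3 : ℝ, 1 ≤ C3 ∧ ∀ y ∈ A.O, (1 + ‖(A.z · y)‖ ^ 2) * A.p y ≤ C3 := by
    choose c hc using fun i => (A.hz i).2
    refine ⟨1 + ∑ i, |c i|, le_add_of_nonneg_right (by positivity), fun y hy => ?_⟩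
    obtain ⟨p0, p1, -⟩ := A.pos y hy
    rw [add_mul, one_mul]
    refine add_le_add p1 ((mul_le_mul_of_nonneg_right (SV.ZBD.le_nsq _) p0.le).trans ?_)
    rw [nsq, Finset.sum_mul]
    refine Finset.sum_le_sum fun i _ => le_trans (le_of_eq ?_) ((hc i y hy).trans (le_abs_self _))
    rw [pow_zero, pow_one, one_mul]
  refine ⟨α, a0, ?_⟩
  filter_upwards [hLIP n M A, K.aez ⟨K.pol γ A.hs, hγ⟩] with y₀ ⟨ρ₁, r1, L, Θ, _, hΘ, hL⟩ ⟨_, g0⟩
  have g1 := half_pos (norm_pos_iff.2 g0)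
  obtain ⟨ρ₂, r2, h5⟩ := Metric.nhds_basis_closedBall.eventually_iff.1
    ((MvPolynomial.continuous_eval γ).norm.continuousAt.eventually
      (le_mem_nhds (half_lt_self (norm_pos_iff.2 g0))))
  obtain ⟨C4, h6⟩ := hR (‖(A.s · y₀)‖ + ρ₂ + 2)
  obtain ⟨C5, c5, c6⟩ : ∃ C5 > (0 : ℝ), C4 ≤ C5 := ⟨max C4 1, by positivity, le_max_left _ _⟩
  obtain ⟨c₀, hc₀⟩ : ∃ c₀, c₀ = ‖eval (A.s · y₀) γ‖ / 2 * (1 / 2) ^ e / C5 := ⟨_, rfl⟩
  have c0 : 0 < c₀ := by rw [hc₀]; positivity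
  obtain ⟨K', k1, h7⟩ := h2 ((c₀ / C5) ^ 2) C3 (by positivity) c3
  refine ⟨min ρ₁ ρ₂, lt_min r1 r2, K' * (C2 * C1 + 1), by finiteness,
    fun c ρ' κ hc hκ hρ hu => ?_⟩
  have hσ : Continuous fun t : E A.k => (fun o => o.elim (Θ t) t : Sx A.k → ℂ) :=
    continuous_pi fun o => by
      cases o
      exacts [hΘ, continuous_apply _]
  obtain ⟨G, m1, m2, m3⟩ := h1 A.k (Sx A.k ⊕ Fin D) Nm (fun t => Sum.elim
    (fun o => o.elim (Θ t) t) (c fun o => o.elim (Θ t) t)) c₀ κ hd (continuous_pi fun o => by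
      rcases o with o | o
      exacts [(continuous_apply o).comp hσ, (continuous_apply o).comp (hc.comp hσ)]) c0 hκ
  have cs : ContinuousOn (fun y => (A.s · y)) A.O := continuousOn_pi.2 fun i => K.cnt (A.hs i)
  have cz : ContinuousOn (fun y => (A.z · y)) A.O := continuousOn_pi.2 fun i => K.cnt (A.hz i)
  have mO := A.opn.measurableSet
  have mt : AEMeasurable (fun y => tl (A.s · y)) ((M.mu A.H).restrict A.O) :=
    (continuousOn_pi.2 fun i => K.cnt (A.hs (some i))).aemeasurable mO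
  have mG : AEMeasurable (fun y => G (tl (A.s · y), (A.z · y)) * ENNReal.ofReal (A.j y))
      ((M.mu A.H).restrict A.O) := (m1.comp_aemeasurable (mt.prodMk (cz.aemeasurable mO))).mul
    (A.cj.aemeasurable mO).ennreal_ofReal
  have mB : MeasurableSet (A.bx y₀ ρ') := by
    have := ((cs.sub continuousOn_const).norm.isOpen_inter_preimage A.opn
      (isOpen_Ioi (a := ρ')) (f := fun y => ‖(A.s · y) - (A.s · y₀)‖)).measurableSet
    refine (congrArg _ (Set.ext fun y => ?_)).mp (mO.diff this)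
    simp only [An.bx, Set.mem_sdiff, mem_inter_iff, mem_preimage, mem_Ioi, mem_ofPred_eq, not_and,
      not_lt]
    exact and_congr_right fun h => ⟨fun k => k h, fun k _ => k⟩
  refine (setLIntegral_mono' mB (g := fun y => K' * (G (tl (A.s · y), (A.z · y)) *
    ENNReal.ofReal (A.j y) + ng (A.j y) A.ε * κ (tl (A.s · y)))) fun y hy => ?_).trans
      ((lintegral_mono_set inter_subset_left).trans ?_)
  · have e1 : (fun o => o.elim (Θ (tl (A.s · y))) (tl (A.s · y)) : Sx A.k → ℂ) = (A.s · y) :=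
      funext fun o => by
        cases o
        exacts [(hL y ⟨hy.1, hy.2.trans (hρ.trans (min_le_left _ _))⟩).1.symm, rfl]
    have y2 : ‖(A.s · y) - (A.s · y₀)‖ ≤ ρ₂ := hy.2.trans (hρ.trans (min_le_right _ _))
    obtain ⟨u1, u2⟩ := hu y hy
    obtain ⟨p0, p1, -⟩ := A.pos y hy.1
    obtain ⟨⟨μ, v1⟩, v2⟩ := h6 y hy.1 (c (A.s · y))
      (by linarith [norm_sub_norm_le (A.s · y) (A.s · y₀)])
      (by linarith [norm_nonneg (A.s · y₀)])
    have v3 := m3 (tl (A.s · y)) (A.z · y) μ (by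
      rw [e1, hc₀, div_le_iff₀' c5]
      exact (mul_le_mul (h5 (mem_closedBall_iff_norm.2 y2)) (pow_le_pow_left₀ (by norm_num) u1 e)
        (by positivity) (norm_nonneg _)).trans
        (v1.trans (mul_le_mul_of_nonneg_right c6 (norm_nonneg _))))
    rw [v3, e1, mul_right_comm _ (κ _), ← add_mul, ← mul_assoc]
    refine mul_le_mul_left (h7 _ _ _ _ _ (A.jp y hy.1).1 (A.jp y hy.1).2 p1 (by positivity)
      (h4 y hy.1) ?_) _
    have v4 := pow_le_pow_left₀ (by positivity) ((div_le_iff₀' c5).2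
      (v2.trans (mul_le_mul_of_nonneg_right c6 (norm_nonneg _)))) 2
    rw [An.Pn, normSq_eq_norm_sq, norm_mul, norm_inv, norm_real, Real.norm_of_nonneg c0.le]
    refine le_trans (le_of_eq ?_) (mul_le_mul_of_nonneg_right v4 (pow_pos p0 a).le)
    field_simp
    ring
  · rw [lintegral_const_mul' _ _ k1, lintegral_add_left' mG, mul_assoc, add_mul, one_mul, mul_assoc]
    exact mul_le_mul_right (add_le_add ((h3 G m1).trans (mul_le_mul_right
      (m2.trans (mul_le_mul_right le_self_add _)) _)) le_add_self) _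

end Pool.Agent.Lib.KC
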