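import Pool.Agent.Lib.KC.Blue
import Pool.Agent.Lib.HS32.MAll

/-! Project kc, row MS0: the mass near a point. -/

open scoped Classical Topology ContDiff ComplexOrder Matrix ENNReal
open Set MeasureTheory Complex Metric Filter

noncomputable section

namespace Pool.Agent.Lib.KC

open Pool.Agent.Lib.SV (E nsq)
open Pool.Agent.Lib.HS32 Pool.Agent.Lib.KH

theorem cMS0 : St_MS0 := by
  intro n M _ H O k z y₀ hH _ hz hy V hV
  set e := M.ch y₀ with he
  have hs : e.symm (e y₀) = y₀ := Mf.ch_symm y₀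
  have ht : e y₀ ∈ e.target := Mf.ch_tgt y₀
  have hd : DifferentiableAt ℂ (fun w => (z · (e.symm w))) (e y₀) :=
    differentiableAt_pi.2 fun i => (hz i e (Mf.ch_mem y₀) _ ht (hs.symm ▸ hy)).self_of_nhds
  obtain ⟨C, -, h1⟩ := hd.isBigO_sub.exists_pos
  have h1' := h1.bound
  have hp : 0 < (H e (e y₀)).det.re :=
    (Complex.lt_def.1 (hH.pos e (Mf.ch_mem y₀) _ ht).det_pos).1
  set δ := (H e (e y₀)).det.re / 2 with hδ
  have δ0 : 0 < δ := half_pos hp
  have h2 : ∀ᶠ w in 𝓝 (e y₀), δ < (H e w).det.re :=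
    ((continuous_re.comp continuous_id.matrix_det).continuousAt.comp
      (hH.sm e (Mf.ch_mem y₀) _ ht).continuousAt).eventually (lt_mem_nhds (half_lt_self hp))
  have h3 : ∀ᶠ w in 𝓝 (e y₀), e.symm w ∈ V :=
    (e.continuousAt_symm ht).eventually (hs.symm ▸ hV)
  obtain ⟨ρ, ρ0, hρ⟩ := Metric.eventually_nhds_iff_ball.1
    (h1'.and (h2.and (h3.and (e.open_target.eventually_mem ht))))
  have v0 : 0 < volume (ball (0 : E n) 1) := measure_ball_pos _ _ one_pos
  have v1 : volume (ball (0 : E n) 1) ≠ ⊤ := measure_ball_lt_top.ne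
  set A : ℝ := k * C ^ 2 + 1 with hA
  have A0 : 0 < A := by positivity
  refine ⟨δ / A ^ (n + 1) * (volume (ball (0 : E n) 1)).toReal,
    mul_pos (by positivity) (ENNReal.toReal_pos v0.ne' v1), ?_⟩
  filter_upwards [Ioo_mem_nhdsGT ρ0] with r hr
  have r0 := hr.1
  have hb : ∀ w ∈ ball (e y₀) r, _ := fun w hw => hρ w (ball_subset_ball hr.2.le hw)
  obtain ⟨-, h5, -⟩ := (mMU n M H hH).2.2.2.2.2.1 e (Mf.ch_mem y₀) (ball (e y₀) r)
    measurableSet_ball fun w hw => (hb w hw).2.2.2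
  refine le_trans ?_ (lintegral_mono_set (s := e.symm '' ball (e y₀) r)
    (image_subset_iff.2 fun w hw => (hb w hw).2.2.1))
  rw [h5]
  refine le_trans (le_of_eq ?_) (setLIntegral_mono' measurableSet_ball
    (f := fun _ => ENNReal.ofReal (δ * (r ^ 2 / (A * r ^ 2) ^ (n + 1)))) fun w hw => ?_)
  · have hf : Module.finrank ℝ (E n) = 2 * n := by
      rw [finrank_real_of_complex, Module.finrank_fin_fun]
    rw [setLIntegral_const, Measure.addHaar_ball_of_pos _ _ r0, hf, ← mul_assoc,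
      ← ENNReal.ofReal_mul (by positivity), ENNReal.ofReal_mul (by positivity),
      ENNReal.ofReal_toReal v1]
    congr 2
    rw [mul_pow, pow_succ (r ^ 2), pow_mul]
    field_simp
  · rw [ENNReal.ofReal_mul δ0.le]
    refine mul_le_mul' (ENNReal.ofReal_le_ofReal (hb w hw).2.1.le) (ENNReal.ofReal_le_ofReal ?_)
    have h6 := (hb w hw).1
    rw [hs] at h6
    have h7 : ‖(z · (e.symm w)) - (z · y₀)‖ ≤ |C| * r := h6.trans
      (mul_le_mul (le_abs_self C) (mem_ball_iff_norm.1 hw).le (norm_nonneg _) (abs_nonneg _))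
    have h8 : nsq ((z · (e.symm w)) - (z · y₀)) ≤ k * (C ^ 2 * r ^ 2) := by
      refine (Finset.sum_le_card_nsmul _ _ (C ^ 2 * r ^ 2) fun i _ => ?_).trans (by simp)
      rw [normSq_eq_norm_sq, ← sq_abs C, ← mul_pow]
      exact pow_le_pow_left₀ (norm_nonneg _) ((norm_le_pi_norm _ i).trans h7) 2
    have h9 : 0 ≤ nsq ((z · (e.symm w)) - (z · y₀)) := Finset.sum_nonneg fun i _ => normSq_nonneg _
    refine div_le_div_of_nonneg_left (sq_nonneg r) (by positivity)
      (pow_le_pow_left₀ (by positivity) ?_ _)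
    rw [hA]
    linarith

end Pool.Agent.Lib.KC
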