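import Pool.Agent.Lib.KC.Trl

/-! Project kc: the norm form of an independent family is anisotropic. -/

open scoped Classical Matrix
open Set

noncomputable section

namespace Pool.Agent.Lib.KC

open MvPolynomial (eval aeval coeff X C)

namespace NRM

variable {K F : Type} [Field K] [Field F] [Algebra K F]

theorem irr (h : ∀ f : F, IsAlgebraic K f → f ∈ range (algebraMap K F)) {f : Polynomial K}
    (hm : f.Monic) (hf : Irreducible f) : Irreducible (f.map (algebraMap K F)) := by
  have inj := Polynomial.map_injective (algebraMap K F) (algebraMap K F).injective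
  have k : ∀ g : Polynomial F, g.Monic → g ∣ f.map (algebraMap K F) →
      ∃ q : Polynomial K, q.map (algebraMap K F) = g ∧ q.Monic := fun g hg hd => by
    obtain ⟨q, q1, -, q2⟩ := Polynomial.lifts_and_natDegree_eq_and_monic
      ((Polynomial.lifts_iff_coeff_lifts g).2 fun i =>
        h _ (Polynomial.isIntegral_coeff_of_dvd f g hm hg hd i).isAlgebraic) hg
    exact ⟨q, q1, q2⟩
  refine (Polynomial.irreducible_of_monic (hm.map _) fun e => hf.ne_one (inj (by simpa using e))).2
    fun a b ha hb e => ?_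
  obtain ⟨p, rfl, hp⟩ := k a ha ⟨b, e.symm⟩
  obtain ⟨q, rfl, hq⟩ := k b hb ⟨_, by rw [← e, mul_comm]⟩
  rw [← Polynomial.map_mul] at e
  exact ((Polynomial.irreducible_of_monic hm hf.ne_one).1 hf p q hp hq (inj e)).imp
    (fun k => by simp [k]) fun k => by simp [k]

/-- A domain that contains both fields, with enough functionals. -/
theorem dom [CharZero K] (h : ∀ f : F, IsAlgebraic K f → f ∈ range (algebraMap K F)) (L : Type)
    [Field L] [Algebra K L] [Module.Finite K L] :
    ∃ (T : Type) (_ : CommRing T) (_ : IsDomain T) (j : F →+* T) (i : L →+* T),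
      (∀ k, i (algebraMap K L k) = j (algebraMap K F k)) ∧
      ∀ l : Module.Dual K L, ∃ Λ : T →+ F, ∀ a f, Λ (i a * j f) = l a • f := by
  let pb := Field.powerBasisOfFiniteOfSeparable K L
  have hm := minpoly.monic pb.isIntegral_gen
  have : Fact (Irreducible ((minpoly K pb.gen).map (algebraMap K F))) :=
    ⟨irr h hm (minpoly.irreducible pb.isIntegral_gen)⟩
  let T := AdjoinRoot ((minpoly K pb.gen).map (algebraMap K F))
  have h0 : Polynomial.aeval (AdjoinRoot.root ((minpoly K pb.gen).map (algebraMap K F)))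
      (minpoly K pb.gen) = 0 := by
    rw [← Polynomial.aeval_map_algebraMap F, AdjoinRoot.aeval_eq, AdjoinRoot.mk_self]
  let i : L →ₐ[K] T := pb.lift _ h0
  let pc := AdjoinRoot.powerBasis' (hm.map (algebraMap K F))
  refine ⟨T, inferInstance, inferInstance, algebraMap F T, i, fun k =>
    (i.commutes k).trans (IsScalarTower.algebraMap_apply K F T k), fun l => ?_⟩
  let Λ : T →ₗ[F] F := pc.basis.constr F fun a => algebraMap K F (l (pb.gen ^ (a : ℕ)))
  have e : Λ.restrictScalars K ∘ₗ i.toLinearMap = Algebra.linearMap K F ∘ₗ l :=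
    pb.basis.ext fun a => by
      have ha : (a : ℕ) < pc.dim := by
        rw [AdjoinRoot.powerBasis'_dim, hm.natDegree_map, pb.natDegree_minpoly]
        exact a.2
      have k : i (pb.gen ^ (a : ℕ)) = pc.basis ⟨a, ha⟩ := by
        rw [map_pow, pb.lift_gen, pc.basis_eq_pow]
        rfl
      rw [pb.basis_eq_pow]
      exact (congrArg Λ k).trans (pc.basis.constr_basis F _ _)
  refine ⟨Λ.toAddMonoidHom, fun a f => ?_⟩
  change Λ (i a * algebraMap F T f) = _
  rw [mul_comm, ← Algebra.smul_def, map_smul, show Λ (i a) = _ from LinearMap.congr_fun e a,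
    smul_eq_mul, mul_comm, Algebra.smul_def]
  rfl

theorem lam {L T σ : Type} [Field L] [Algebra K L] [CommRing T] {j : F →+* T} {i : L →+* T}
    {l : Module.Dual K L} {Λ : T →+ F} (h : ∀ a f, Λ (i a * j f) = l a • f) (z : σ → F)
    (p : MvPolynomial σ L) : ∃ q : MvPolynomial σ K, (∀ μ, coeff μ q = l (coeff μ p)) ∧
      ∀ f, Λ (MvPolynomial.eval₂Hom i (fun s => j (z s)) p * j f) = aeval z q * f := by
  induction p using MvPolynomial.induction_on' with
  | monomial u a =>
    refine ⟨MvPolynomial.monomial u (l a), fun μ => ?_, fun f => ?_⟩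
    · simp only [MvPolynomial.coeff_monomial]
      split_ifs <;> simp
    · rw [MvPolynomial.eval₂Hom_monomial, MvPolynomial.aeval_monomial, mul_assoc, mul_assoc,
        ← Algebra.smul_def, ← h]
      simp [Finsupp.prod]
  | add p q hp hq =>
    obtain ⟨a, a1, a2⟩ := hp
    obtain ⟨b, b1, b2⟩ := hq
    exact ⟨a + b, fun μ => by simp [a1, b1], fun f => by
      rw [map_add, add_mul, map_add, a2, b2, map_add, add_mul]⟩

variable {w D : ℕ} {z : Fin w → F} {θ : F} {B : Polynomial (MvPolynomial (Fin w) K)}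

theorem spn (h : KBE.Hyp K z θ B) (p : Polynomial (MvPolynomial (Fin w) K)) :
    ∃ r : Fin B.natDegree → MvPolynomial (Fin w) K,
      p.eval₂ (aeval z : MvPolynomial (Fin w) K →ₐ[K] F).toRingHom θ =
        ∑ a : Fin B.natDegree, θ ^ (a : ℕ) * aeval z (r a) := by
  have h1 : B ≠ 1 := fun e => h.sep (e ▸ one_dvd _)
  refine ⟨fun a => (p %ₘ B).coeff a, ?_⟩
  rw [← Polynomial.eval₂_modByMonic_eq_self_of_root ((h.ker B).2 dvd_rfl),
    Polynomial.eval₂_eq_sum_range' _ (Polynomial.natDegree_modByMonic_lt p h.mon h1),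
    Finset.sum_range]
  exact Finset.sum_congr rfl fun a _ => mul_comm _ _

theorem ind (h : KBE.Hyp K z θ B) {r : Fin B.natDegree → MvPolynomial (Fin w) K}
    (e : ∑ a, aeval z (r a) * θ ^ (a : ℕ) = 0) : r = 0 := by
  let p := (Polynomial.degreeLTEquiv _ B.natDegree).symm r
  have p0 : p.1 = 0 := by
    refine Polynomial.eq_zero_of_dvd_of_degree_lt ((h.ker _).1 ?_) ?_
    · rw [← e]
      simp [p, Polynomial.degreeLTEquiv, Polynomial.eval₂_finsetSum]
    · rw [Polynomial.degree_eq_natDegree h.mon.ne_zero]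
      exact Polynomial.mem_degreeLT.1 p.2
  exact (Polynomial.degreeLTEquiv _ B.natDegree).symm.map_eq_zero_iff.1 (Subtype.ext p0)

theorem pol (z : Fin w → F) (θ : F) (m : MvPolynomial (Option (Fin w)) K) :
    ∃ p : Polynomial (MvPolynomial (Fin w) K), aeval (fun o : Option (Fin w) => o.elim θ z) m =
      p.eval₂ (aeval z : MvPolynomial (Fin w) K →ₐ[K] F).toRingHom θ := by
  induction m using MvPolynomial.induction_on with
  | C a => exact ⟨Polynomial.C (C a), by simp⟩
  | add p q hp hq =>
    obtain ⟨a, ha⟩ := hp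
    obtain ⟨b, hb⟩ := hq
    exact ⟨a + b, by rw [map_add, ha, hb, Polynomial.eval₂_add]⟩
  | mul_X p o hp =>
    obtain ⟨a, ha⟩ := hp
    cases o with
    | none => exact ⟨a * Polynomial.X, by simp [ha]⟩
    | some i => exact ⟨a * Polynomial.C (X i), by simp [ha]⟩

/-- The matrix of the general combination. -/
def mt {d : ℕ} (M : Fin D → Matrix (Fin d) (Fin d) (MvPolynomial (Fin w) K)) :
    Matrix (Fin d) (Fin d) (MvPolynomial (Fin w) (MvPolynomial (Fin D) K)) :=
  fun a b => ∑ l, C (X l) * MvPolynomial.map C (M l a b)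

theorem eig {d : ℕ} {M : Fin D → Matrix (Fin d) (Fin d) (MvPolynomial (Fin w) K)} {u : Fin D → F}
    (h : ∀ l (b : Fin d), u l * θ ^ (b : ℕ) = ∑ a : Fin d, θ ^ (a : ℕ) * aeval z (M l a b))
    {T : Type} [CommRing T] (j : F →+* T)
    (ρ : MvPolynomial (Fin w) (MvPolynomial (Fin D) K) →+* T)
    (hρ : ∀ r, ρ (MvPolynomial.map C r) = j (aeval z r)) :
    (fun a : Fin d => j (θ ^ (a : ℕ))) ᵥ* (mt M).map ρ =
      (∑ l, ρ (C (X l)) * j (u l)) • fun a : Fin d => j (θ ^ (a : ℕ)) := by
  funext b
  simp only [Matrix.vecMul, dotProduct, Matrix.map_apply, mt, map_sum, map_mul, hρ, Pi.smul_apply,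
    smul_eq_mul, Finset.sum_mul, Finset.mul_sum, mul_assoc]
  rw [Finset.sum_comm]
  refine Finset.sum_congr rfl fun l _ => ?_
  rw [← map_mul, h, map_sum, Finset.mul_sum]
  exact Finset.sum_congr rfl fun a _ => by rw [map_mul]; ring

end NRM

theorem cNRM : St_NRM := by
  intro K F _ _ _ _ w D z θ B m h hK hm
  choose p hp using fun l => NRM.pol z θ (m l)
  choose M hM using fun l (b : Fin B.natDegree) => NRM.spn h (p l * Polynomial.X ^ (b : ℕ))
  obtain ⟨r, hr⟩ := NRM.spn h 1
  have rel : ∀ l (b : Fin B.natDegree), aeval (fun o : Option (Fin w) => o.elim θ z) (m l) *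
      θ ^ (b : ℕ) = ∑ a : Fin B.natDegree,
        θ ^ (a : ℕ) * aeval z (Matrix.of (fun a b => M l b a) a b) := fun l b => by
      have k := hM l b
      rw [Polynomial.eval₂_mul, Polynomial.eval₂_X_pow, ← hp] at k
      exact k
  set N := NRM.mt fun l => Matrix.of fun a b => M l b a with hN
  have rad : ∀ l, (X l : MvPolynomial (Fin D) K) ∈
      (Ideal.span (range fun μ => coeff μ N.det)).radical := fun l => by
    rw [Ideal.radical_eq_jacobson]
    refine Ideal.mem_sInf.2 fun {J} hJ => ?_
    have := hJ.2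
    let _ := Ideal.Quotient.field J
    have := finite_of_finite_type_of_isJacobsonRing K (MvPolynomial (Fin D) K ⧸ J)
    obtain ⟨T, _, _, j, i, hi, hΛ⟩ := NRM.dom hK (MvPolynomial (Fin D) K ⧸ J)
    let ψ := MvPolynomial.map (σ := Fin w) (Ideal.Quotient.mk J)
    let χ := MvPolynomial.eval₂Hom i fun s => j (z s)
    have d0 : (N.map ψ).det = 0 := by
      rw [← RingHom.mapMatrix_apply, ← RingHom.map_det]
      ext μ
      rw [MvPolynomial.coeff_map]
      exact Ideal.Quotient.eq_zero_iff_mem.2 (hJ.1 (Ideal.subset_span ⟨μ, rfl⟩))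
    obtain ⟨v, v0, hv⟩ := Matrix.exists_mulVec_eq_zero_iff.2 d0
    have k := NRM.eig rel j (χ.comp ψ) fun q => by
      refine RingHom.congr_fun (f := (χ.comp ψ).comp (MvPolynomial.map C))
        (g := j.comp (aeval z : MvPolynomial (Fin w) K →ₐ[K] F).toRingHom)
        (MvPolynomial.ringHom_ext (fun a => ?_) fun s => by simp [χ, ψ]) q
      have k : i (Ideal.Quotient.mk J (C a)) = j (algebraMap K F a) := hi a
      simpa [χ, ψ] using k
    have k2 := congrArg (· ⬝ᵥ fun b => χ (v b)) k
    have k3 : (N.map (χ.comp ψ)) *ᵥ (fun b => χ (v b)) = 0 := funext fun a => by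
      have := congrArg χ (congrFun hv a)
      simpa [Matrix.mulVec, dotProduct] using this
    simp only [← Matrix.dotProduct_mulVec, ← hN, k3, dotProduct_zero, smul_dotProduct,
      smul_eq_mul] at k2
    rcases mul_eq_zero.1 k2.symm with k4 | k4
    · refine Ideal.Quotient.eq_zero_iff_mem.1 ((Module.forall_dual_apply_eq_zero_iff K _).1
        fun f => ?_)
      obtain ⟨Λ, hl⟩ := hΛ f
      have := congrArg Λ k4
      simp only [χ, ψ, RingHom.comp_apply, MvPolynomial.map_C, MvPolynomial.eval₂Hom_C, map_sum, hl,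
        map_zero] at this
      exact Fintype.linearIndependent_iff.1 hm _ this l
    · refine absurd (funext fun b => MvPolynomial.ext _ _ fun μ =>
        (Module.forall_dual_apply_eq_zero_iff K _).1 fun f => ?_) v0
      obtain ⟨Λ, hl⟩ := hΛ f
      choose q q1 q2 using fun b => NRM.lam hl z (v b)
      have := congrArg Λ k4
      simp only [dotProduct, map_sum, mul_comm (j _), χ, q2, map_zero] at this
      rw [← q1, NRM.ind h this]
      rfl
  choose e he using rad
  let ev := (aeval (fun o : Option (Fin w) => o.elim θ z) :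
    MvPolynomial (Option (Fin w)) K →ₐ[K] F).toRingHom
  let ρ : MvPolynomial (Fin w) (MvPolynomial (Fin D) K) →+* MvPolynomial (Fin D) F :=
    MvPolynomial.eval₂Hom (MvPolynomial.map (algebraMap K F)) fun i => C (z i)
  have hρ : ∀ q, ρ (MvPolynomial.map C q) = C (aeval z q) := fun q =>
    RingHom.congr_fun (f := ρ.comp (MvPolynomial.map C))
      (g := C.comp (aeval z : MvPolynomial (Fin w) K →ₐ[K] F).toRingHom)
      (MvPolynomial.ringHom_ext (fun a => by simp [ρ]) fun s => by simp [ρ]) q
  have g1 : ∀ s, ρ s ∈ (MvPolynomial.map (σ := Fin D) ev).range := fun s => by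
    induction s using MvPolynomial.induction_on with
    | C a =>
      refine ⟨MvPolynomial.map C a, ?_⟩
      rw [MvPolynomial.map_map, MvPolynomial.eval₂Hom_C]
      exact congrArg (MvPolynomial.map · a) (RingHom.ext fun c => by simp [ev])
    | add a b ha hb => rw [map_add]; exact add_mem ha hb
    | mul_X a s ha => rw [map_mul]; exact mul_mem ha ⟨C (X (some s)), by simp [ev, ρ]⟩
  have g2 : ∀ a : ℕ, (C (θ ^ a) : MvPolynomial (Fin D) F) ∈
      (MvPolynomial.map (σ := Fin D) ev).range := fun a => ⟨C (X none ^ a), by simp [ev]⟩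
  obtain ⟨A, hA⟩ : ((fun a : Fin B.natDegree => (C (θ ^ (a : ℕ)) : MvPolynomial (Fin D) F)) ᵥ*
      N.adjugate.map ρ) ⬝ᵥ (fun a => ρ (MvPolynomial.map C (r a))) ∈
      (MvPolynomial.map (σ := Fin D) ev).range := by
    simp only [dotProduct, Matrix.vecMul, Matrix.map_apply]
    exact sum_mem fun a _ => mul_mem (sum_mem fun b _ => mul_mem (g2 _) (g1 _)) (g1 _)
  refine ⟨∑ l, e l + 1, N.det, A, Nat.succ_pos _, ?_, fun l => Ideal.pow_mem_of_pow_mem _ (he l)
    ((Finset.single_le_sum (fun _ _ => Nat.zero_le _) (Finset.mem_univ l)).trans (Nat.le_succ _))⟩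
  have k := congrArg (fun v => (v ᵥ* N.adjugate.map ρ) ⬝ᵥ fun a => ρ (MvPolynomial.map C (r a)))
    (NRM.eig rel C ρ hρ)
  simp only [Matrix.vecMul_vecMul, ← hN, ← Matrix.map_mul, Matrix.mul_adjugate, Matrix.smul_vecMul,
    smul_dotProduct, smul_eq_mul] at k
  rw [hA]
  refine Eq.trans (by simp [ρ]) (k.symm.trans ?_)
  have one : (1 : MvPolynomial (Fin D) F) = ∑ a : Fin B.natDegree, C (θ ^ (a : ℕ)) *
      C (aeval z (r a)) := by
    simpa only [Polynomial.eval₂_one, map_one, map_sum, map_mul] using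
      congrArg (C (σ := Fin D)) hr
  rw [show (N.det • (1 : Matrix _ _ _)).map ρ = ρ N.det • 1 from by
    ext1 a b
    by_cases c : a = b <;> simp [c], Matrix.vecMul_smul, Matrix.vecMul_one, smul_dotProduct]
  simp only [dotProduct, hρ, ← one, smul_eq_mul, mul_one]
  rfl

end Pool.Agent.Lib.KC
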