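import Pool.Agent.Lib.KC.Blue

/-! Project kc, row PHM: the moment of the density at the bottom of the tower. -/

open scoped Classical Topology ContDiff ComplexOrder Matrix ENNReal
open Set MeasureTheory Complex Metric Filter

set_option linter.unusedVariables false

noncomputable section

namespace Pool.Agent.Lib.KC

open Pool.Agent.Lib.SV (E nsq)
open Pool.Agent.Lib.HS32 Pool.Agent.Lib.KH
open Pool.Agent.Lib.NV6 (Mo)

namespace PHM

/-- A negative moment, from the extended form to the real form. -/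
theorem mo {Y : Type} [MeasurableSpace Y] {ν : Measure Y} {f : Y → ℝ} {ε C : ℝ} (hε : 0 < ε)
    (hf : AEMeasurable f ν) (h : ∫⁻ y, ng (f y) ε ∂ν ≤ ENNReal.ofReal C) :
    (∀ᵐ y ∂ν, 0 < f y) ∧ Mo ν (fun y => f y ^ (-ε)) |C| := by
  have m : AEMeasurable (fun y => ng (f y) ε) ν := hf.ennreal_ofReal.pow_const _
  have p : ∀ᵐ y ∂ν, 0 < f y := (ae_lt_top' m (h.trans_lt ENNReal.ofReal_lt_top).ne).mono
    fun y hy => lt_of_not_ge fun k => by
      rw [ng, ENNReal.ofReal_of_nonpos k, ENNReal.zero_rpow_of_neg (neg_neg_of_pos hε)] at hy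
      exact lt_irrefl _ hy
  have e : ∫⁻ y, ENNReal.ofReal (f y ^ (-ε)) ∂ν = ∫⁻ y, ng (f y) ε ∂ν :=
    lintegral_congr_ae (p.mono fun y hy => (ENNReal.ofReal_rpow_of_pos hy).symm)
  have n : 0 ≤ᵐ[ν] fun y => f y ^ (-ε) := p.mono fun y hy => (Real.rpow_pos_of_pos hy _).le
  have s : AEStronglyMeasurable (fun y => f y ^ (-ε)) ν := (hf.pow_const _).aestronglyMeasurable
  refine ⟨p, ⟨s, (hasFiniteIntegral_iff_ofReal n).2 (e.trans_lt
    (h.trans_lt ENNReal.ofReal_lt_top))⟩, ?_⟩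
  rw [integral_eq_lintegral_of_nonneg_ae n s, e]
  exact ENNReal.toReal_le_of_le_ofReal (abs_nonneg _)
    (h.trans (ENNReal.ofReal_le_ofReal (le_abs_self _)))

/-- The inequality between the logarithms. -/
theorem lin {a Q c c0 N x0 x θ e e₁ ε η t lg lT lΩ lQ ls lp lj lP lP' LC LK m : ℝ} (ha : 0 < a)
    (hN : N ≤ 2 * a) (c0p : 0 ≤ c0) (cp : 0 ≤ c) (hx0 : 0 < x0) (hθ : 0 < θ)
    (hx : x * a = x0 + θ * Q) (he : 0 < e) (he₁ : 0 ≤ e₁) (h1 : 16 * e ≤ ε)
    (h2 : 16 * c0 * x0 ≤ a * η) (h3 : 24 * θ ≤ t) (s0 : 0 ≤ ls) (p0 : lp ≤ 0) (jp : lj ≤ lp)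
    (k1 : lg + (a * lT + c0 * lp) ≤ LC) (k2 : Q * lg + lP + a * lP' ≤ LK + a * lΩ)
    (m0 : 0 ≤ m) (m1 : lj * -η ≤ m) (m2 : (lQ + c * lp) * -ε ≤ m) (m3 : lP * -t ≤ N * m)
    (m4 : lP' * -t ≤ m) :
    (lg * x + lT * x0 + lΩ * -θ + lQ * -e + ls * -e₁) * 4 ≤ 4 * (x0 * LC + θ * LK) / a + m := by
  have t0 : 0 < t := by linarith
  have ε0 : 0 < ε := by linarith
  have a1 : 16 * (x0 * (c0 * -lp)) ≤ a * m := by
    have b1 : c0 * x0 * -lp ≤ c0 * x0 * -lj :=
      mul_le_mul_of_nonneg_left (by linarith) (by positivity)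
    have b2 : 16 * c0 * x0 * -lj ≤ a * η * -lj := mul_le_mul_of_nonneg_right h2 (by linarith)
    have b3 : a * (lj * -η) ≤ a * m := mul_le_mul_of_nonneg_left m1 ha.le
    nlinarith
  have a2 : 16 * (e * -lQ) ≤ m := by
    have b1 : c * lp ≤ 0 := mul_nonpos_of_nonneg_of_nonpos cp p0
    rcases le_total 0 lQ with k | k
    · nlinarith [mul_nonneg he.le k]
    · have b2 : 16 * e * -lQ ≤ ε * -lQ := mul_le_mul_of_nonneg_right h1 (by linarith)
      nlinarith [mul_nonneg ε0.le (neg_nonneg.2 b1)]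
  have a3 : 8 * (θ * (-lP - a * lP')) ≤ a * m := by
    have b1 : t * (-lP - a * lP') ≤ 3 * (a * m) := by
      have d1 : a * (lP' * -t) ≤ a * m := mul_le_mul_of_nonneg_left m4 ha.le
      have d2 : N * m ≤ 2 * a * m := mul_le_mul_of_nonneg_right hN m0
      nlinarith
    rcases le_total 0 (-lP - a * lP') with k | k
    · have b2 : 24 * θ * (-lP - a * lP') ≤ t * (-lP - a * lP') := mul_le_mul_of_nonneg_right h3 k
      nlinarith
    · nlinarith [mul_nonneg hθ.le (neg_nonneg.2 k), mul_nonneg ha.le m0]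
  have a4 := mul_le_mul_of_nonneg_left k1 hx0.le
  have a5 := mul_le_mul_of_nonneg_left k2 hθ.le
  have a6 := mul_le_mul_of_nonneg_left a2 ha.le
  have a7 : 0 ≤ a * (ls * e₁) := by positivity
  have a8 : lg * x * a = lg * x0 + lg * (θ * Q) := by rw [mul_assoc, hx, mul_add]
  rw [div_add' _ _ _ ha.ne', le_div_iff₀ ha]
  nlinarith

end PHM

theorem cPHM (hGMK : St_GMK) : St_PHM := by
  intro n M _ A a Q c N g Ω Q₀ x0 x θ e e₁ ε t K C P P' ha hN hg hΩ hQ hx0 hθ hx he he₁ h1 h2 h3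
  have G := hGMK n M A.toBs
  obtain ⟨Cg, hC⟩ := hg.1.2
  have t0 : 0 < t := by linarith
  set B := Real.exp (4 * (x0 * Real.log Cg + θ * Real.log K) / a) with hB
  have B0 : 0 < B := Real.exp_pos _
  refine ⟨B * (|C| + |C| + (C + N * C)), fun ν _ hν hK hP hP' hj hq => ?_⟩
  have cm : ∀ {F : Type} [TopologicalSpace F] [MeasurableSpace F] [BorelSpace F] {f : M.X → F},
      ContinuousOn f A.O → AEMeasurable f ν := fun hf => by
    have := hf.aemeasurable (μ := M.mu A.H) A.opn.measurableSet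
    rw [Measure.restrict_eq_self_of_ae_mem A.ae] at this
    exact this.mono_ac hν
  have ns : ∀ {x c : ℕ} {f : M.X → ℂ}, A.toBs.Gm x c f → AEMeasurable (fun y => normSq (f y)) ν :=
    fun hf => continuous_normSq.measurable.comp_aemeasurable (cm (G.cnt hf))
  obtain ⟨j0, j1, j2⟩ := PHM.mo A.ε0 (cm A.cj) hj
  obtain ⟨q0, q1, q2⟩ := PHM.mo (ε := ε) (by linarith)
    ((ns hQ.1).mul (((cm G.cT).pow_const 0).mul ((cm A.cp).pow_const c))) hq
  have i1 : Integrable (fun y => ∑ i, P i y ^ (-t)) ν := integrable_finsetSum _ fun i _ => (hP i).2.2.1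
  have i2 := (j1.add q1).add (hP'.2.2.1.add i1)
  have ms : AEMeasurable (fun y => A.ph x0 x θ e e₁ g Ω Q₀ y ^ 4) ν :=
    (((((ns hg.1).pow_const x).mul ((cm G.cT).pow_const x0)).mul ((ns hΩ.1).pow_const _)).mul
      ((ns hQ.1).pow_const _) |>.mul ((aemeasurable_const.add
        (Finset.aemeasurable_fun_sum _ fun i _ => ns (A.hs i))).pow_const _)).pow_const 4
  have key : ∀ᵐ y ∂ν, A.ph x0 x θ e e₁ g Ω Q₀ y ^ 4 ≤ B * (A.j y ^ (-A.ε) +
      (normSq (Q₀ y) * (A.T y ^ 0 * A.p y ^ c)) ^ (-ε) + (P' y ^ (-t) + ∑ i, P i y ^ (-t))) := by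
    filter_upwards [hν.ae_le (G.aez hg), hν.ae_le (G.aez hΩ), hν.ae_le (G.aez hQ), hK, j0,
      ae_all_iff.2 fun i => (hP i).2.1, hP'.2.1] with y y1 y2 y3 y4 y5 y6 y7
    obtain ⟨p0, p1, T0⟩ := A.pos y y1.1
    have g0 := normSq_pos.2 y1.2
    have o0 := normSq_pos.2 y2.2
    have r0 := normSq_pos.2 y3.2
    have s1 : 1 ≤ 1 + nsq (A.s · y) :=
      le_add_of_nonneg_right (Finset.sum_nonneg fun i _ => normSq_nonneg _)
    have s0 : 0 < 1 + nsq (A.s · y) := one_pos.trans_le s1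
    have w0 : 0 < ∏ i, P i y := Finset.prod_pos fun i _ => (y6 i).1
    have u1 := Real.rpow_pos_of_pos y5 (-A.ε)
    have v0 : 0 < normSq (Q₀ y) * (A.T y ^ 0 * A.p y ^ c) := by positivity
    have u2 := Real.rpow_pos_of_pos v0 (-ε)
    have u3 : 1 ≤ P' y ^ (-t) :=
      Real.one_le_rpow_of_pos_of_le_one_of_nonpos y7.1 y7.2 (by linarith)
    have u4 : ∀ i, 0 ≤ P i y ^ (-t) := fun i => (Real.rpow_pos_of_pos (y6 i).1 _).le
    have u5 : 0 ≤ ∑ i, P i y ^ (-t) := Finset.sum_nonneg fun i _ => u4 i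
    set S := A.j y ^ (-A.ε) + (normSq (Q₀ y) * (A.T y ^ 0 * A.p y ^ c)) ^ (-ε) +
      (P' y ^ (-t) + ∑ i, P i y ^ (-t)) with hS
    have S1 : 1 ≤ S := by linarith
    have lg : ∀ {u v : ℝ}, 0 < u → u ^ v ≤ S → Real.log u * v ≤ Real.log S := fun {u v} a b => by
      rw [mul_comm, ← Real.log_rpow a]
      exact Real.log_le_log (Real.rpow_pos_of_pos a _) b
    have k1 := Real.log_le_log (by positivity) (hC y y1.1)
    rw [Real.log_mul g0.ne' (by positivity), Real.log_mul (by positivity) (by positivity),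
      Real.log_pow, Real.log_pow] at k1
    have l0 : 0 < normSq (g y) ^ Q * (∏ i, P i y) * P' y ^ a := by
      have := y7.1
      positivity
    have K0 : 0 < K := (mul_pos_iff_of_pos_right (pow_pos o0 a)).1 (l0.trans_le y4)
    have k2 := Real.log_le_log l0 y4
    rw [Real.log_mul (by positivity) (pow_pos y7.1 a).ne', Real.log_mul (by positivity) w0.ne',
      Real.log_mul K0.ne' (by positivity), Real.log_pow, Real.log_pow, Real.log_pow] at k2
    have m2 := lg v0 (v := -ε) (by linarith)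
    rw [pow_zero, one_mul, Real.log_mul r0.ne' (by positivity), Real.log_pow] at m2
    have m3 : Real.log (∏ i, P i y) * -t ≤ N * Real.log S := by
      rw [Real.log_prod fun i _ => (y6 i).1.ne', Finset.sum_mul]
      refine (Finset.sum_le_card_nsmul _ _ (Real.log S) fun i _ => lg (y6 i).1 ?_).trans_eq ?_
      · have := Finset.single_le_sum (f := fun i => P i y ^ (-t)) (fun i _ => u4 i)
          (Finset.mem_univ i)
        linarith
      · rw [Finset.card_univ, Fintype.card_fin, nsmul_eq_mul]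
    have fin := PHM.lin (by exact_mod_cast ha) (by exact_mod_cast hN) (Nat.cast_nonneg A.c0)
      (Nat.cast_nonneg c) hx0 hθ hx he he₁ h1 h2 h3 (Real.log_nonneg s1) (Real.log_nonpos p0.le p1)
      (Real.log_le_log y5 (A.jp y y1.1).2) k1 k2 (Real.log_nonneg S1) (lg y5 (by linarith)) m2 m3
      (lg y7.1 (by linarith))
    rw [An.ph, Real.rpow_def_of_pos g0, Real.rpow_def_of_pos T0, Real.rpow_def_of_pos o0,
      Real.rpow_def_of_pos r0, Real.rpow_def_of_pos s0, ← Real.exp_add, ← Real.exp_add,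
      ← Real.exp_add, ← Real.exp_add, ← Real.exp_nat_mul, hB,
      ← Real.exp_log (one_pos.trans_le S1), ← Real.exp_add, Real.exp_le_exp, mul_comm]
    exact_mod_cast fin
  have nn : ∀ y, 0 ≤ A.ph x0 x θ e e₁ g Ω Q₀ y ^ 4 := fun y => by positivity
  have ig : Integrable (fun y => A.ph x0 x θ e e₁ g Ω Q₀ y ^ 4) ν :=
    (i2.const_mul B).mono' ms.aestronglyMeasurable (key.mono fun y hy => by
      rwa [Real.norm_of_nonneg (nn y)])
  refine ⟨ig, (integral_mono_ae ig (i2.const_mul B) key).trans ?_⟩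
  rw [integral_const_mul]
  refine mul_le_mul_of_nonneg_left ?_ B0.le
  have e1 := integral_add (j1.add q1) (hP'.2.2.1.add i1)
  have e2 := integral_add j1 q1
  have e3 := integral_add hP'.2.2.1 i1
  have e4 : ∫ y, ∑ i, P i y ^ (-t) ∂ν ≤ N * C := by
    rw [integral_finsetSum _ fun i _ => (hP i).2.2.1]
    refine (Finset.sum_le_card_nsmul _ _ C fun i _ => (hP i).2.2.2).trans_eq ?_
    rw [Finset.card_univ, Fintype.card_fin, nsmul_eq_mul]
  have e5 := hP'.2.2.2
  simp only [Pi.add_apply] at e1 e2 e3 ⊢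
  linarith

end Pool.Agent.Lib.KC
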