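import Pool.Agent.Lib.KC.Blue
import Pool.Agent.Lib.KG67.Pk

/-! Project kc, rows PUL and PKT. -/

open MeasureTheory Filter

noncomputable section

namespace Pool.Agent.Lib.KC

theorem cPUL : St_PUL := fun _ _ _ A _ h => KG67.ae_base A h

theorem cPKT (hLIP : St_LIP) : St_PKT := fun n M _ A D _ hf h1 => by
  filter_upwards [KG67.pk A hf h1 (fun i => (D.cϖ i).1.aemeasurable A.opn.measurableSet) D.mom,
    hLIP n M A] with y a b using a b

end Pool.Agent.Lib.KC
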