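import Pool.Agent.Lib.KC.Blue
import Pool.Agent.Lib.KB47.Test

/-! Project kc: the patched weights with poles along a fibre. -/

open scoped Classical Topology ContDiff
open Set Complex Metric Filter Asymptotics

set_option linter.unusedSectionVars false

noncomputable section

namespace Pool.Agent.Lib.KC

open Pool.Agent.Lib.SV (E nsq)
open Pool.Agent.Lib.HS32 Pool.Agent.Lib.KH
open MvPolynomial (eval X C)

namespace PSI

variable {τ J : Type} [Fintype τ] [Fintype J]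

theorem nn (v : τ → ℂ) : 0 ≤ nsq v := Finset.sum_nonneg fun _ _ => normSq_nonneg _

theorem le_nsq (v : τ → ℂ) : ‖v‖ ^ 2 ≤ nsq v := by
  rw [← Real.le_sqrt (norm_nonneg _) (nn v), pi_norm_le_iff_of_nonneg (Real.sqrt_nonneg _)]
  intro i
  rw [Real.le_sqrt (norm_nonneg _) (nn v), ← normSq_eq_norm_sq]
  exact Finset.single_le_sum (f := fun i => normSq (v i)) (fun _ _ => normSq_nonneg _)
    (Finset.mem_univ i)

theorem nsq_le (v : τ → ℂ) : nsq v ≤ Fintype.card τ * ‖v‖ ^ 2 := by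
  rw [← nsmul_eq_mul, ← Finset.card_univ]
  refine Finset.sum_le_card_nsmul _ _ _ fun i _ => ?_
  rw [normSq_eq_norm_sq]
  exact pow_le_pow_left₀ (norm_nonneg _) (norm_le_pi_norm v i) 2

theorem one (s₀ : τ → ℂ) (P : MvPolynomial τ ℂ) : (fun s => eval s P) =O[𝓝 s₀] fun _ => (1 : ℝ) :=
  (MvPolynomial.continuous_eval P).continuousAt.tendsto.isBigO_one ℝ

/-- The polynomials that vanish to order `m`. -/
def idl (s₀ : τ → ℂ) (m : ℕ) : Ideal (MvPolynomial τ ℂ) where
  carrier := {P | (fun s => eval s P) =O[𝓝 s₀] fun s => ‖s - s₀‖ ^ m}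
  zero_mem' := by simpa using isBigO_zero _ _
  add_mem' := fun h h' => by simpa using h.add h'
  smul_mem' := fun c P h => by simpa using (one s₀ c).mul h

theorem big (s₀ : τ → ℂ) (m : ℕ) :
    Ideal.span (range fun i => (X i - C (s₀ i) : MvPolynomial τ ℂ)) ^ m ≤ idl s₀ m := by
  have h1 : Ideal.span (range fun i => (X i - C (s₀ i) : MvPolynomial τ ℂ)) ≤ idl s₀ 1 := by
    rw [Ideal.span_le]
    rintro _ ⟨i, rfl⟩
    exact .of_norm_le fun s => by simpa using norm_le_pi_norm (s - s₀) i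
  induction m with
  | zero => exact fun P _ => show _ =O[_] _ by simpa using one s₀ P
  | succ m ih =>
    rw [pow_succ]
    exact Ideal.mul_le.2 fun a ha b hb => show _ =O[_] _ by
      simpa [pow_succ] using IsBigO.mul (ih ha) (h1 hb)

theorem loc [Nonempty τ] {s₀ : τ → ℂ} {d : MvPolynomial τ ℂ} (hd : eval s₀ d ≠ 0) {m : ℕ}
    {P : J → MvPolynomial τ ℂ} (hP : ∀ j, P j ∈ idl s₀ m) (A : τ → J → MvPolynomial τ ℂ) (N : ℕ) :
    ∃ δ > (0 : ℝ), ∃ μ > (0 : ℝ), ∃ K : ℝ, ∀ (s : τ → ℂ) (Y : J → ℂ),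
      (∀ j, eval s d * Y j = eval s (P j)) →
      (∀ i, eval s d * (s i - s₀ i) ^ N = ∑ j, eval s (A i j) * Y j) → nsq (s - s₀) ≤ 2 * δ →
      nsq Y ≤ K * nsq (s - s₀) ^ m ∧ (δ ≤ nsq (s - s₀) → μ ≤ nsq Y) := by
  obtain ⟨D, D0, hD⟩ := exists_between (norm_pos_iff.2 hd)
  obtain ⟨c, ⟨h1, h2⟩, c0⟩ := (((eventually_all.2 fun j => isBigO_iff_eventually.1 (hP j)).and
    (eventually_all.2 fun p : τ × J => isBigO_iff_eventually.1 (one s₀ (A p.1 p.2)))).and
    (eventually_gt_atTop 0)).exists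
  obtain ⟨ε, ε0, hε⟩ := Metric.eventually_nhds_iff.1 (((eventually_all.2 h1).and
    (eventually_all.2 h2)).and
    ((MvPolynomial.continuous_eval d).norm.continuousAt.eventually (lt_mem_nhds hD)))
  have t0 : (0 : ℝ) < Fintype.card τ := Nat.cast_pos.2 Fintype.card_pos
  refine ⟨ε ^ 2 / 4, by positivity, D ^ 2 * (ε ^ 2 / 4 / Fintype.card τ) ^ N /
    (Fintype.card J * c + 1) ^ 2, by positivity, Fintype.card J * (c / D) ^ 2,
    fun s Y e1 e2 hs => ?_⟩
  obtain ⟨⟨a1, a2⟩, a3⟩ := hε (y := s) (by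
    rw [dist_eq_norm]
    exact lt_of_pow_lt_pow_left₀ 2 ε0.le (by linarith [le_nsq (s - s₀), pow_pos ε0 2]))
  refine ⟨(nsq_le Y).trans ?_, fun h => ?_⟩
  · rw [mul_assoc]
    refine mul_le_mul_of_nonneg_left ?_ (Nat.cast_nonneg _)
    have : ‖Y‖ ≤ c / D * ‖s - s₀‖ ^ m := (pi_norm_le_iff_of_nonneg (by positivity)).2 fun j => by
      have k := a1 j
      rw [← e1 j, norm_mul, Real.norm_of_nonneg (by positivity)] at k
      rw [div_mul_eq_mul_div, le_div_iff₀' D0]
      exact (mul_le_mul_of_nonneg_right a3.le (norm_nonneg _)).trans k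
    refine (pow_le_pow_left₀ (norm_nonneg _) this 2).trans ?_
    rw [mul_pow, pow_right_comm]
    exact mul_le_mul_of_nonneg_left (pow_le_pow_left₀ (sq_nonneg _) (le_nsq _) m) (sq_nonneg _)
  · obtain ⟨i, -, hi⟩ := Finset.exists_le_of_sum_le (s := Finset.univ) Finset.univ_nonempty
      (f := fun _ : τ => ε ^ 2 / 4 / Fintype.card τ) (g := fun i => normSq ((s - s₀) i)) (by
        rwa [Finset.sum_const, Finset.card_univ, nsmul_eq_mul, mul_div_cancel₀ _ t0.ne'])
    have k : D * ‖s i - s₀ i‖ ^ N ≤ (Fintype.card J * c + 1) * ‖Y‖ := by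
      refine (mul_le_mul_of_nonneg_right a3.le (by positivity)).trans ?_
      rw [← norm_pow, ← norm_mul, e2 i]
      refine (norm_sum_le _ _).trans ((Finset.sum_le_card_nsmul _ _ (c * ‖Y‖) fun j _ => ?_).trans ?_)
      · rw [norm_mul]
        exact mul_le_mul (by simpa using a2 (i, j)) (norm_le_pi_norm Y j) (norm_nonneg _) c0.le
      · rw [Finset.card_univ, nsmul_eq_mul]
        linarith [norm_nonneg Y]
    have k2 := pow_le_pow_left₀ (by positivity) k 2
    rw [mul_pow, mul_pow, pow_right_comm, ← normSq_eq_norm_sq] at k2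
    rw [div_le_iff₀' (by positivity)]
    exact ((mul_le_mul_of_nonneg_left (pow_le_pow_left₀ (by positivity) hi N)
      (sq_nonneg D)).trans k2).trans (mul_le_mul_of_nonneg_left (le_nsq Y) (sq_nonneg _))

end PSI

open PSI in
theorem cPSI (hGMK : St_GMK) : St_PSI := by
  intro n M _ A Q m Ω θ y₀ hΩ θ0 hm ⟨J, N, H, d, hH, hd, hP, hA⟩ ⟨ρ₁, ρ0, L, Θ, L0, _, hL⟩
  choose P hP eP using hP
  choose B eB using hA
  obtain ⟨δ, δ0, μ, μ0, K₁, hl⟩ := loc hd (fun j => big _ m (hP j)) B N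
  obtain ⟨K, K0, hK⟩ := KB47.psi (C := K₁) θ0 (Nat.cast_add_one_pos A.k) δ0 μ0
  have hO := (hGMK n M A.toBs).opn hΩ
  have hY : ∀ j, HoK M (A.O ∩ {y | Ω y ≠ 0}) fun y => H j y / Ω y := fun j e he z hz ho =>
    ((((hH j).1 e he z hz ho.1).and (hΩ.1 e he z hz ho.1)).and
      ((e.continuousAt_symm hz).eventually (hO.mem_nhds ho))).mono fun w hw =>
        hw.1.1.mul (hw.1.2.inv hw.2.2)
  have em : ((A.k : ℝ) + 1) / θ = m := by rw [← hm, mul_div_cancel_left₀ _ θ0.ne']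
  replace hK := hK n M _ (Sx A.k) (Fin J) (fun i y => A.s i y - A.s i y₀) _ hO
    (fun i e he z hz ho => ((A.hs i).1 e he z hz ho.1).mono fun w hw => hw.sub_const _) hY
    fun y hy h => by
      rw [em, Real.rpow_natCast]
      refine hl (A.s · y) _ (fun j => ?_) (fun i => ?_) h
      · rw [← mul_div_assoc, eP j y hy.1, mul_div_cancel_right₀ _ hy.2]
      · have := eB i y hy.1
        simp only [map_mul, map_pow, map_sub, MvPolynomial.eval_X, MvPolynomial.eval_C] at this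
        simp only [← mul_div_assoc, ← Finset.sum_div]
        exact (eq_div_iff hy.2).2 this
  have t0 : (0 : ℝ) < Fintype.card (Sx A.k) := Nat.cast_pos.2 Fintype.card_pos
  choose c hc using fun j => (hH j).2
  obtain ⟨c₀, h₀⟩ := hΩ.2
  refine ⟨min ρ₁ √(2 * δ / Fintype.card (Sx A.k)), by positivity,
    K + (A.k + 1) * Real.log (Fintype.card (Sx A.k) * L ^ 2 + 1), fun r hr => ?_⟩
  obtain ⟨Ψ, p1, p2⟩ := hK r hr
  have p3 := p1.add (KB47.psK_log (f := Ω) (fun e he z hz ho => hΩ.1 e he z hz ho.1)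
    (fun _ h => h.2) θ)
  refine ⟨_, ⟨p3.sm, p3.pos⟩, ⟨K + θ * Real.log (∑ j, c j + c₀), fun y hy h0 => ?_⟩,
    fun y hy h0 => ?_⟩
  · obtain ⟨q0, -, T0⟩ := A.pos y hy
    have n0 := normSq_pos.2 h0
    have s0 : 0 < ∑ j, normSq (H j y / Ω y) + 1 := add_pos_of_nonneg_of_pos (nn _) one_pos
    have k := Real.log_le_log (by positivity) (show (∑ j, normSq (H j y / Ω y) + 1) *
        normSq (Ω y) * (A.T y ^ Q * A.p y ^ A.l) ≤ ∑ j, c j + c₀ by
      rw [add_mul, add_mul, one_mul, Finset.sum_mul, Finset.sum_mul]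
      refine add_le_add (Finset.sum_le_sum fun j _ => ?_) (h₀ y hy)
      rw [map_div₀, div_mul_cancel₀ _ n0.ne']
      exact hc j y hy)
    rw [Real.log_mul (by positivity) (by positivity), Real.log_mul s0.ne' n0.ne',
      Real.log_mul (by positivity) (by positivity), Real.log_pow, Real.log_pow] at k
    linarith [(p2 y ⟨hy, h0⟩).1, mul_le_mul_of_nonneg_left k θ0.le]
  · have r2 := pow_pos hr.1 2
    obtain ⟨y1, y2⟩ := le_min_iff.1 (show ‖(A.s · y) - (A.s · y₀)‖ ≤ _ from hy.2)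
    have b1 : nsq ((A.s · y) - (A.s · y₀)) ≤ 2 * δ := by
      refine (nsq_le _).trans ((le_div_iff₀' t0).1 ?_)
      exact (Real.le_sqrt (norm_nonneg _) (by positivity)).1 y2
    have b2 := abs_le.1 ((p2 y ⟨hy.1, h0⟩).2 b1)
    have b0 := nn (tl (A.s · y) - tl (A.s · y₀))
    have b3 : nsq (tl (A.s · y) - tl (A.s · y₀)) ≤ ∑ i, normSq (A.s i y - A.s i y₀) := by
      rw [Fintype.sum_option]
      exact le_add_of_nonneg_left (normSq_nonneg _)
    have b4 : ∑ i, normSq (A.s i y - A.s i y₀) ≤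
        Fintype.card (Sx A.k) * L ^ 2 * nsq (tl (A.s · y) - tl (A.s · y₀)) := by
      refine (nsq_le ((A.s · y) - (A.s · y₀))).trans ?_
      rw [mul_assoc]
      refine mul_le_mul_of_nonneg_left ((pow_le_pow_left₀ (norm_nonneg _)
        (hL y ⟨hy.1, y1⟩).2 2).trans ?_) t0.le
      rw [mul_pow]
      exact mul_le_mul_of_nonneg_left (le_nsq _) (sq_nonneg L)
    have l0 : 0 ≤ (Fintype.card (Sx A.k) : ℝ) * L ^ 2 := by positivity
    have b5 := Real.log_le_log (by positivity) (add_le_add_left b3 (r ^ 2))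
    have b6 := Real.log_le_log (by linarith) (show ∑ i, normSq (A.s i y - A.s i y₀) + r ^ 2 ≤
        (Fintype.card (Sx A.k) * L ^ 2 + 1) * (nsq (tl (A.s · y) - tl (A.s · y₀)) + r ^ 2) by
      linarith [mul_nonneg l0 r2.le])
    rw [Real.log_mul (by positivity) (by positivity)] at b6
    have k0 : (0 : ℝ) ≤ A.k + 1 := by positivity
    have b7 := mul_nonneg k0 (Real.log_nonneg (le_add_of_nonneg_left l0))
    exact abs_le.2 ⟨by linarith [mul_le_mul_of_nonneg_left b5 k0],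
      by linarith [mul_le_mul_of_nonneg_left b6 k0]⟩

end Pool.Agent.Lib.KC
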