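import Pool.Agent.Lib.KC.Blue
import Pool.Agent.Lib.KB47.Test

/-! Project kc, row PSK: plurisubharmonic functions on an open set. -/

open scoped Classical Topology ContDiff ComplexOrder Matrix ENNReal
open Set MeasureTheory Complex Metric Filter

noncomputable section

namespace Pool.Agent.Lib.KC

open Pool.Agent.Lib.SV (E nsq)
open Pool.Agent.Lib.HS32 Pool.Agent.Lib.KH
open Pool.Agent.Lib.KB47 (PsK psK_of psK_const psK_log ps_lsq)

namespace PSK

variable {n : ℕ} {M : Mf n} {O : Set M.X} {f : M.X → ℝ}

theorem of80 (h : PsK M O f) : Ps M O f := ⟨h.sm, h.pos⟩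

theorem to80 (h : Ps M O f) : PsK M O f := psK_of h.1 h.2

end PSK

open PSK in
theorem cPSK : St_PSK := fun _ _ =>
  { hom := fun h hF e he z hz ho => hF e he z hz (h ho)
    mono := fun h hf => of80 ((to80 hf).mono h)
    cgr := fun hO hf h => of80 fun e he z hz ho => (to80 hf e he z hz ho).congr
      (((e.continuousAt_symm hz).eventually (hO.mem_nhds ho)).mono fun _ hw => h _ hw)
    cst := fun _ a => of80 (psK_const a)
    add := fun hf hg => of80 ((to80 hf).add (to80 hg))
    smul := fun ha hf => of80 ((to80 hf).mul ha)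
    lg := fun a _ hg h0 => of80 (psK_log hg h0 a)
    ls := fun _ hg ha h0 => of80 fun e he z hz ho =>
      (ps_lsq (fun i => hg i e he z hz ho) ha (h0 _ ho)).1
    da := fun h hψ => ⟨fun e he z hz ho => (h.sf e he z hz ho).add (hψ.1 e he z hz ho), h.sg, h.b0,
      (of80 ((psK_of h.sf h.pos).add (to80 hψ))).2, fun e he z hz ho v =>
        (h.dom e he z hz ho v).trans (mul_le_mul_of_nonneg_left
          ((le_add_of_nonneg_right ((to80 hψ e he z hz ho).2 v)).trans_eq
            (KB47.lw_add (h.sf e he z hz ho) (hψ.1 e he z hz ho) v).symm) (h.b0 _ ho))⟩ }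

end Pool.Agent.Lib.KC
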