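import Pool.Agent.Lib.KC.Blue
import Pool.Agent.Lib.HS32.MAll
import Pool.Agent.Lib.SV.Ext85

/-! Project kc, row REX: square integrable functions extend over the zeros of a holomorphic
function. -/

open scoped Classical Topology ContDiff ComplexOrder Matrix ENNReal
open Set MeasureTheory Complex Metric Filter

set_option linter.unusedVariables false

noncomputable section

namespace Pool.Agent.Lib.KC

open Pool.Agent.Lib.SV (E nsq)
open Pool.Agent.Lib.HS32 Pool.Agent.Lib.KH

theorem cREX : St_REX := by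
  intro n M _ H O g F w hH hO hg hae hF hw hw0 hJ
  obtain ⟨-, -, hpos, -, -, hch, -⟩ := mMU n M H hH
  have fr : ∀ x ∈ O, ∃ᶠ y in 𝓝 x, g y ≠ 0 := fun x hx h => by
    have h1 : {y | ¬(y ∈ O → g y ≠ 0)} ∈ 𝓝 x := by
      filter_upwards [h, hO.mem_nhds hx] with y h1 h2 h3
      exact h1 (h3 h2)
    exact (Measure.measure_pos_of_mem_nhds _ h1).ne' (ae_iff.1 hae)
  refine ⟨fun y => if g y = 0 then limUnder (𝓝[{x | g x ≠ 0}] y) F else F y,
    fun e he z hz hzO => ?_, fun y _ hy => if_neg hy⟩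
  have hU : IsOpen (e.target ∩ e.symm ⁻¹' O) := e.isOpen_inter_preimage_symm hO
  have hc : ContinuousAt (fun u => (H e u).det.re * w (e.symm u)) z :=
    (continuous_re.continuousAt.comp (hH.sm e he z hz).det.continuousAt).mul
      ((hw.continuousAt (hO.mem_nhds hzO)).comp (e.continuousAt_symm hz))
  have hd : ∀ u ∈ e.target, 0 < (H e u).det.re := fun u hu =>
    (Complex.pos_iff.1 (hH.pos e he u hu).det_pos).1
  obtain ⟨c, hc0, hc1⟩ := exists_between (mul_pos (hd z hz) (hw0 _ hzO))
  obtain ⟨V, hV, hVo, hzV⟩ := _root_.mem_nhds_iff.1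
    (inter_mem (hU.mem_nhds ⟨hz, hzO⟩) (hc.eventually (lt_mem_nhds hc1)))
  have hj : DifferentiableOn ℂ (g ∘ e.symm) V := fun u hu =>
    (hg e he u (hV hu).1.1 (hV hu).1.2).self_of_nhds.differentiableWithinAt
  have hB : IsOpen {u | u ∈ V ∧ (g ∘ e.symm) u ≠ 0} :=
    hj.continuousOn.isOpen_inter_preimage hVo isOpen_compl_singleton
  have tg : ∀ u ∈ e.target, Tendsto e (𝓝 (e.symm u)) (𝓝 u) := fun u hu => by
    have h1 := (e.continuousAt (e.map_target hu)).tendsto
    rwa [e.right_inv hu] at h1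
  have hi : ∫⁻ u in {u | u ∈ V ∧ (g ∘ e.symm) u ≠ 0},
      ENNReal.ofReal (‖(F ∘ e.symm) u‖ ^ 2) ≠ ⊤ := by
    have h1 := (hch e he _ hB.measurableSet fun u hu => (hV hu.1).1.1).2.1
      fun x => ENNReal.ofReal (normSq (F x) * w x)
    have h2 : ENNReal.ofReal c * ∫⁻ u in {u | u ∈ V ∧ (g ∘ e.symm) u ≠ 0},
        ENNReal.ofReal (‖(F ∘ e.symm) u‖ ^ 2) ≤
        Jo M H (O ∩ {y | g y ≠ 0}) fun y => normSq (F y) * w y := by
      rw [← lintegral_const_mul' _ _ ENNReal.ofReal_ne_top]
      refine le_trans (setLIntegral_mono' hB.measurableSet fun u hu => ?_)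
        (h1.symm.trans_le (lintegral_mono_set ?_))
      · have h3 : c < (H e u).det.re * w (e.symm u) := (hV hu.1).2
        rw [← ENNReal.ofReal_mul hc0.le, ← ENNReal.ofReal_mul (hd u (hV hu.1).1.1).le,
          Complex.sq_norm, Function.comp_apply]
        refine ENNReal.ofReal_le_ofReal ?_
        have h4 := mul_le_mul_of_nonneg_right h3.le (normSq_nonneg (F (e.symm u)))
        linarith
      · rintro _ ⟨u, hu, rfl⟩
        exact ⟨(hV hu.1).1.2, hu.2⟩
    intro h
    rw [h, ENNReal.mul_top (ENNReal.ofReal_pos.2 hc0).ne'] at h2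
    exact hJ (top_le_iff.1 h2)
  obtain ⟨G, hG⟩ := SV.H85.ext_local volume (f := F ∘ e.symm) hVo hj (fun u hu =>
    (hF e he u (hV hu.1).1.1 ⟨(hV hu.1).1.2, hu.2⟩).self_of_nhds.differentiableWithinAt) hi hzV
    fun h => fr _ hzO (by
      filter_upwards [(tg z hz).eventually h, e.open_source.mem_nhds (e.map_target hz)]
        with x h1 h2 h3
      rw [Function.comp_apply, e.left_inv h2] at h1
      exact h3 h1)
  have key : ∀ᶠ u in 𝓝 z, ((fun y => if g y = 0 then limUnder (𝓝[{x | g x ≠ 0}] y) F else F y) ∘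
      e.symm) u = G u := by
    filter_upwards [hG.eventually_nhds, hU.mem_nhds ⟨hz, hzO⟩] with u hu hu'
    rw [Function.comp_apply]
    by_cases h0 : g (e.symm u) = 0
    · rw [if_pos h0]
      have : (𝓝[{x | g x ≠ 0}] e.symm u).NeBot :=
        mem_closure_iff_nhdsWithin_neBot.1 (mem_closure_iff_frequently.2 (fr _ hu'.2))
      refine Tendsto.limUnder_eq ?_
      refine ((hu.self_of_nhds.1.continuousAt.tendsto.comp (tg u hu'.1)).mono_left
        nhdsWithin_le_nhds).congr' ?_
      filter_upwards [eventually_nhdsWithin_of_eventually_nhds ((tg u hu'.1).eventually hu),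
        mem_nhdsWithin_of_mem_nhds (e.open_source.mem_nhds (e.map_target hu'.1)),
        self_mem_nhdsWithin] with x h1 h2 h3
      have h4 := h1.2
      rw [Function.comp_apply, Function.comp_apply, e.left_inv h2] at h4
      exact h4 h3
    · rw [if_neg h0]
      exact (hu.self_of_nhds.2 h0).symm
  filter_upwards [hG, key.eventually_nhds] with u h1 h2
  exact h1.1.congr_of_eventuallyEq h2

end Pool.Agent.Lib.KC
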