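import Pool.Agent.Lib.KC.Blue

/-! The stage exists. -/

open scoped Classical Topology ENNReal
open Set MeasureTheory Complex Metric Filter

noncomputable section

namespace Pool.Agent.Lib.KC

open Pool.Agent.Lib.SV (E nsq nsq_nonneg)
open Pool.Agent.Lib.HS32 Pool.Agent.Lib.KH
open Pool.Agent.Lib.NV6 (Mo)

namespace SEL

theorem dv {m I : ℝ≥0∞} {c C : ℝ} (c0 : 0 < c) (hm : ENNReal.ofReal c ≤ m)
    (h : m * I ≤ ENNReal.ofReal C) : I ≤ ENNReal.ofReal (C / c) := by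
  rw [ENNReal.ofReal_div_of_pos c0, ENNReal.le_div_iff_mul_le (Or.inl (by simpa using c0))
    (Or.inl ENNReal.ofReal_ne_top), mul_comm]
  exact (mul_le_mul_left hm I).trans h

variable {Ω : Type} [MeasurableSpace Ω] {ν : Measure Ω} {g : Ω → ℝ} {t C C' : ℝ}

theorem mo (hg : AEMeasurable g ν) (g0 : ∀ y, 0 ≤ g y) (C0 : 0 ≤ C)
    (h : ∫⁻ y, ENNReal.ofReal (g y) ∂ν ≤ ENNReal.ofReal C) : Mo ν g C := by
  have i : Integrable g ν := ⟨hg.aestronglyMeasurable, (hasFiniteIntegral_iff_ofReal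
    (ae_of_all _ g0)).2 (h.trans_lt ENNReal.ofReal_lt_top)⟩
  refine ⟨i, ?_⟩
  rwa [← ofReal_integral_eq_lintegral_ofReal i (ae_of_all _ g0),
    ENNReal.ofReal_le_ofReal_iff C0] at h

theorem mo_le (h : Mo ν g C) (hC : C ≤ C') : Mo ν g C' := ⟨h.1, h.2.trans hC⟩

theorem ua_le (h : Ua ν t C g) (hC : C ≤ C') : Ua ν t C' g := ⟨h.1, h.2.1, mo_le h.2.2 hC⟩

theorem ord (k l : ℕ) {κ t : ℝ} (κ0 : 0 < κ) (t0 : 0 < t) : ∃ (m : ℕ) (θ : ℝ), 0 < θ ∧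
    θ * m = k + 1 ∧ θ * l ≤ κ / 3 ∧ 24 * θ ≤ t := by
  obtain ⟨m, hm⟩ := exists_nat_gt (max ((k + 1) * l * 3 / κ) (24 * (k + 1) / t))
  have h1 := (le_max_left _ _).trans_lt hm
  have h2 := (le_max_right _ _).trans_lt hm
  have m0 : (0 : ℝ) < m := lt_of_le_of_lt (by positivity) h2
  rw [div_lt_iff₀ κ0] at h1
  rw [div_lt_iff₀ t0] at h2
  refine ⟨m, (k + 1) / m, by positivity, by field_simp, ?_, ?_⟩
  · rw [div_mul_eq_mul_div, div_le_div_iff₀ m0 three_pos]; linarith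
  · rw [← mul_div_assoc, div_le_iff₀ m0]; linarith

theorem unit (Q c : ℕ) {x0 θ t ε : ℝ} (x0p : 0 < x0) (θ0 : 0 < θ) (t0 : 0 < t) (ε0 : 0 < ε) :
    ∃ (a : ℕ) (x : ℝ), 0 < a ∧ Q ≤ a ∧ 0 ≤ x ∧ x ≤ 1 / 2 ∧ 4 * x ≤ t ∧ x * a = x0 + θ * Q ∧
      16 * c * x0 ≤ a * ε := by
  obtain ⟨a, ha⟩ := exists_nat_gt (max (max (Q : ℝ) (2 * (x0 + θ * Q)))
    (max (4 * (x0 + θ * Q) / t) (16 * c * x0 / ε)))
  simp only [max_lt_iff] at ha
  obtain ⟨⟨h1, h2⟩, h3, h4⟩ := ha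
  have a0 : (0 : ℝ) < a := lt_of_le_of_lt (by positivity) h1
  rw [div_lt_iff₀ t0] at h3
  rw [div_lt_iff₀ ε0] at h4
  refine ⟨a, (x0 + θ * Q) / a, by exact_mod_cast a0, by exact_mod_cast h1.le, by positivity, ?_,
    ?_, by field_simp, h4.le⟩
  · rw [div_le_div_iff₀ a0 two_pos]; linarith
  · rw [← mul_div_assoc, div_le_iff₀ a0]; linarith

theorem near {X Y : Type} [PseudoMetricSpace X] [SeminormedAddCommGroup Y] {u : X → Y} {x : X}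
    (hu : Continuous u) {η : ℝ} (η0 : 0 < η) : ∀ᶠ x' in 𝓝 x, ‖u x' - u x‖ ≤ η := by
  have := hu.continuousAt (x := x).eventually (closedBall_mem_nhds (u x) η0)
  simpa only [mem_closedBall, dist_eq_norm] using this

theorem two {Y : Type} [SeminormedAddCommGroup Y] {a b : Y} (hb : ‖b‖ = 1)
    (h : ‖a - b‖ ≤ 1 / 2) : 1 / 2 ≤ ‖a‖ ∧ ‖a‖ ≤ 2 := by
  have h1 := abs_le.1 ((abs_norm_sub_norm_le a b).trans h)
  constructor <;> linarith [h1.1, h1.2]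

theorem tri {Y : Type} [SeminormedAddCommGroup Y] {a b a' b' : Y} {η : ℝ} (h : ‖a - b‖ ≤ η)
    (h' : ‖a' - b'‖ ≤ η) (hb : dist b b' ≤ η) : ‖a - a'‖ ≤ 3 * η := by
  rw [← dist_eq_norm] at h h' ⊢
  linarith [dist_triangle4 a b b' a', dist_comm a' b']

variable {n : ℕ} {M : Mf n}

theorem ngm {μ : Measure M.X} {f : M.X → ℝ} (hf : AEMeasurable f μ) (ε : ℝ) :
    AEMeasurable (fun y => ng (f y) ε) μ := hf.ennreal_ofReal.pow_const _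

theorem phc (A : An M) (gk : Gmk A.toBs) {x0 x θ e e₁ : ℝ} {g Ω Q : M.X → ℂ} {y : M.X}
    (hy : y ∈ A.O) (cg : ContinuousOn g A.O) (cΩ : ContinuousOn Ω A.O) (cQ : ContinuousOn Q A.O)
    (g0 : g y ≠ 0) (Ω0 : Ω y ≠ 0) (Q0 : Q y ≠ 0) :
    ContinuousAt (A.ph x0 x θ e e₁ g Ω Q) y ∧ 0 < A.ph x0 x θ e e₁ g Ω Q y := by
  have o := A.opn.mem_nhds hy
  have k : ∀ {f : M.X → ℂ} (a : ℝ), ContinuousOn f A.O → f y ≠ 0 →
      ContinuousAt (fun y => normSq (f y) ^ a) y := fun a hf f0 =>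
    (continuous_normSq.continuousAt.comp (hf.continuousAt o)).rpow_const
      (Or.inl (normSq_pos.2 f0).ne')
  have T0 := (A.pos y hy).2.2
  have s0 : 0 < 1 + nsq (A.s · y) := by linarith [nsq_nonneg (A.s · y)]
  have cs : ContinuousAt (fun y => 1 + nsq (A.s · y)) y := continuousAt_const.add
    (tendsto_finsetSum _ fun i _ =>
      continuous_normSq.continuousAt.comp ((gk.cnt (A.hs i)).continuousAt o))
  refine ⟨((((k x cg g0).mul ((gk.cT.continuousAt o).rpow_const (Or.inl T0.ne'))).mul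
    (k _ cΩ Ω0)).mul (k _ cQ Q0)).mul (cs.rpow_const (Or.inl s0.ne')), ?_⟩
  have := normSq_pos.2 g0
  have := normSq_pos.2 Ω0
  have := normSq_pos.2 Q0
  unfold An.ph
  positivity

end SEL

open SEL in
theorem cSEL (hGMK : St_GMK) (hKRK : St_KRK) (hLIP : St_LIP) (hPKT : St_PKT) (hMOM : St_MOM)
    (hUM : St_UM) (hTOW : St_TOW) (hBOT : St_BOT) (hPHM : St_PHM) (hPSI : St_PSI) : St_SEL := by
  intro n M _ A D c Q₀ hQ
  have gk := hGMK n M A.toBs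
  obtain ⟨εQ, εQ0, hεQ⟩ := A.neg 0 c Q₀ hQ.1 hQ.2
  refine ⟨εQ / 16, by positivity, fun e he κ κ0 => ?_⟩
  obtain ⟨D1, b1, m1, hm1, an1, rt1⟩ := A.deg (2 * A.c0)
  obtain ⟨D2, b2, m2, hm2, an2, rt2⟩ := A.deg (A.l + A.c0)
  obtain ⟨α1, α10, mo1⟩ := hMOM n M A D1 b1 m1 hm1 an1
  obtain ⟨α2, α20, mo2⟩ := hMOM n M A D2 b2 m2 hm2 an2
  have t0 : 0 < min α1 α2 := lt_min α10 α20
  obtain ⟨K1, K10, hK1⟩ := gk.lip hm1
  obtain ⟨K2, K20, hK2⟩ := gk.lip hm2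
  obtain ⟨mm, θ, θ0, θm, θl, θt⟩ := ord A.k A.l κ0 t0
  obtain ⟨Q, Ω, hΩ, ct⟩ := A.cut mm
  obtain ⟨a, x, a0, aQ, x0, x1, xt, lev, ac⟩ := unit Q A.c0 D.x0p θ0 t0 A.ε0
  obtain ⟨G, hG, G0⟩ : ∃ G : ℕ → M.X → ℂ, (∀ x, A.toBs.Gn x A.c0 (G x)) ∧ G 0 = fun _ => 1 := by
    choose G hG using A.gen
    refine ⟨fun x => if x = 0 then fun _ => 1 else G x, fun x => ?_, if_pos rfl⟩
    by_cases h : x = 0
    · subst h
      simp only [if_true]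
      exact ⟨gk.mono (Nat.zero_le _) gk.one.1, gk.one.2⟩
    · simp only [if_neg h]
      exact hG x
  have mO := A.opn.measurableSet
  have cq : ContinuousOn (fun y => normSq (Q₀ y) * (A.T y ^ 0 * A.p y ^ c)) A.O :=
    (continuous_normSq.comp_continuousOn (gk.cnt hQ.1)).mul ((gk.cT.pow 0).mul (A.cp.pow c))
  have f1 := ngm (A.cj.aemeasurable (μ := M.mu A.H) mO) A.ε
  have f2 := ngm (cq.aemeasurable (μ := M.mu A.H) mO) εQ
  have pk := hPKT n M A D (fun y => ng (A.j y) A.ε +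
    ng (normSq (Q₀ y) * (A.T y ^ 0 * A.p y ^ c)) εQ) (f1.add f2)
    (by rw [lintegral_add_left' f1]; exact ENNReal.add_ne_top.2 ⟨A.ij, hεQ⟩)
  have : (ae (M.mu A.H)).NeBot := ae_neBot.2 A.ne
  obtain ⟨y₀, ⟨⟨⟨yO, yG⟩, ⟨-, yΩ⟩, -, yQ⟩, y1, y2, yc, yl, yk⟩, ⟨g, u, u', g0, hg⟩,
      v, v', K, hv, hv', hK⟩ := (((((gk.aez (hG a)).and ((gk.aez hΩ).and (gk.aez hQ))).and
    (mo1.and (mo2.and (ct.and ((hLIP n M A).and pk))))).and
    ((hTOW n M A D1 b1 a m1 G hm1 rt1 hG).and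
      (hBOT n M A D1 b1 D2 b2 a Q m1 m2 G Ω hm1 rt1 hm2 rt2 hG G0 hΩ)))).exists
  obtain ⟨φc, φ0⟩ := phc A gk (x0 := D.x0) (x := x) (θ := θ) (e := e) (e₁ := D.κ0 / 2) yO
    (gk.cnt (hg 0).1.1) (gk.cnt hΩ.1) (gk.cnt hQ.1) (g0 ▸ yG) yΩ yQ
  set φ := A.ph D.x0 x θ e (D.κ0 / 2) (g 0) Ω Q₀ with hφ
  obtain ⟨C, c₀, c0, hC⟩ := yk _ (φc.eventually (Ici_mem_nhds (half_lt_self φ0)))
  obtain ⟨ρ1, ρ10, U1⟩ := hUM n M A D1 b1 m1 α1 _ K1 y₀ hm1 y1 t0 (min_le_left _ _) K10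
    fun y hy c hc => (hK1 y hy c c hc hc).1
  obtain ⟨ρ2, ρ20, U2⟩ := hUM n M A D2 b2 m2 α2 _ K2 y₀ hm2 y2 t0 (min_le_right _ _) K20
    fun y hy c hc => (hK2 y hy c c hc hc).1
  obtain ⟨C1, U1⟩ := U1 C c₀ c0
  obtain ⟨C2, U2⟩ := U2 C c₀ c0
  obtain ⟨C3, U3⟩ := hPHM n M A a Q c (Q + a) (g 0) Ω Q₀ D.x0 x θ e (D.κ0 / 2) εQ (min α1 α2)
    (K / (K1 ^ (Q + a) * K2 ^ a)) (max (max C1 C2) (C / c₀)) (fun i y => A.Pn m1 b1 (v i) y / K1)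
    (fun y => A.Pn m2 b2 v' y / K2) a0 (by omega) (g0 ▸ hG a) hΩ hQ D.x0p θ0 lev he.1
    (half_pos D.κ0p).le (by linarith [he.2]) ac θt
  refine ⟨⟨y₀, a, Q, θ, x, min α1 α2, Ω, g, fun b y => A.Pn m1 b1 (u b) y / K1,
    fun b y => A.Pn m1 b1 (u' b) y / K1, a0, θ0, θl, t0, x0, x1, xt, lev, hΩ, fun b => (hg b).1,
    fun b y hy => by rw [← mul_div_assoc, (hg b).2.2.2 y hy, mul_div_assoc], yl,
    hPSI n M A Q mm Ω θ y₀ hΩ.1 θ0 θm yc yl, max (max (max C1 C2) (C / c₀)) C3,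
    min (min c₀ (c₀ / max C 1)) (φ y₀ / 2), by positivity, fun δ δ0 L => ?_⟩⟩
  have η0 : 0 < min (δ / 3) (1 / 2) := by positivity
  obtain ⟨i, i', -, ii, cl⟩ := KB14.pig ((isCompact_sphere (0 : Fin D1 → ℂ) 1).prod
    (isCompact_sphere (0 : Fin D1 → ℂ) 1)) (fun b => (u b (A.s · y₀), u' b (A.s · y₀)))
    (fun b => ⟨mem_sphere_zero_iff_norm.2 (hg b).2.1.2, mem_sphere_zero_iff_norm.2 (hg b).2.2.1.2⟩)
    η0 L 0
  refine ⟨i, i', ii, fun j => ?_⟩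
  obtain ⟨ρ3, ρ30, h3⟩ := nhds_basis_closedBall.eventually_iff.1
    ((((Finset.range (j + i' + L)).eventually_all.2 fun b _ =>
      (near (x := (A.s · y₀)) (hg b).2.1.1 η0).and (near (hg b).2.2.1.1 η0))).and
      ((eventually_all.2 fun i => near (hv i).1 one_half_pos).and (near hv'.1 one_half_pos)))
  refine ⟨min (min ρ1 ρ2) (min ρ3 1), by positivity, fun ρ hρ r₀ r0 => ?_⟩
  obtain ⟨⟨a1, a2⟩, a3, a4⟩ : (ρ ≤ ρ1 ∧ ρ ≤ ρ2) ∧ ρ ≤ ρ3 ∧ ρ ≤ 1 := by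
    simpa only [le_min_iff] using hρ.2
  obtain ⟨r, r1, r2, k1, k2, k3⟩ := hC ρ hρ.1 r₀ r0
  have kr := hKRK n M A y₀ ρ r r1
  have m1' : ENNReal.ofReal c₀ ≤ A.kr y₀ ρ r univ := k1.trans (measure_mono (subset_univ _))
  have m0 : A.kr y₀ ρ r univ ≠ 0 := ((ENNReal.ofReal_pos.2 c0).trans_le m1').ne'
  have := kr.prob m0
  have up : ∀ f : M.X → ℝ≥0∞, (∀ y, f y ≤ 1 + (ng (A.j y) A.ε +
      ng (normSq (Q₀ y) * (A.T y ^ 0 * A.p y ^ c)) εQ)) → ∀ S ⊆ A.O, ∫⁻ y in S, f y *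
        ENNReal.ofReal (kk r (tl (A.s · y₀)) (tl (A.s · y))) ∂M.mu A.H ≤ ENNReal.ofReal C :=
    fun f hf S hS => ((lintegral_mono_set hS).trans
      (lintegral_mono fun y => mul_le_mul_left (hf y) _)).trans k2
  have un : ∀ f : M.X → ℝ≥0∞, (∀ y, f y ≤ 1 + (ng (A.j y) A.ε +
      ng (normSq (Q₀ y) * (A.T y ^ 0 * A.p y ^ c)) εQ)) →
      ∫⁻ y, f y ∂A.nu y₀ ρ r ≤ ENNReal.ofReal (max (max C1 C2) (C / c₀)) := fun f hf =>
    (dv c0 m1' (by rw [← kr.nint m0, kr.int]; exact up f hf _ inter_subset_left)).trans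
      (ENNReal.ofReal_le_ofReal (le_max_right _ _))
  have mC : A.kr y₀ ρ r univ ≤ ENNReal.ofReal C := by
    rw [← lintegral_one, kr.int]; exact up _ (fun _ => le_self_add) _ inter_subset_left
  have C0 : 0 ≤ C := c0.le.trans ((ENNReal.ofReal_le_ofReal_iff'.1 (m1'.trans mC)).resolve_right
    c0.not_ge)
  have jj := up (fun y => ng (A.j y) A.ε) (fun _ => le_self_add.trans le_add_self) _ Subset.rfl
  have b3 : ∀ y ∈ A.bx y₀ ρ, (A.s · y) ∈ closedBall (A.s · y₀) ρ3 := fun y hy =>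
    mem_closedBall_iff_norm.2 (hy.2.trans a3)
  have b4 : ∀ b < j + i' + L, ∀ y ∈ A.bx y₀ ρ, (1 / 2 ≤ ‖u b (A.s · y)‖ ∧ ‖u b (A.s · y)‖ ≤ 2) ∧
      1 / 2 ≤ ‖u' b (A.s · y)‖ ∧ ‖u' b (A.s · y)‖ ≤ 2 := fun b hb y hy =>
    have h := (h3 (b3 y hy)).1 b (Finset.mem_range.2 hb)
    ⟨two (hg b).2.1.2 (h.1.trans (min_le_right _ _)),
      two (hg b).2.2.1.2 (h.2.trans (min_le_right _ _))⟩
  have l1 : C1 ≤ max (max C1 C2) (C / c₀) := (le_max_left _ _).trans (le_max_left _ _)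
  have l2 : C2 ≤ max (max C1 C2) (C / c₀) := (le_max_right _ _).trans (le_max_left _ _)
  refine ⟨r, r1, r2, (ENNReal.ofReal_le_ofReal ((min_le_left _ _).trans (min_le_left _ _))).trans
    m1', kr.fin, fun b hb => ⟨ua_le (U1 ρ a1 r r1 m1' jj _ (hg b).2.1.1
      fun y hy => (b4 b (by omega) y hy).1) (l1.trans (le_max_left _ _)),
      ua_le (U1 ρ a1 r r1 m1' jj _ (hg b).2.2.1.1 fun y hy => (b4 b (by omega) y hy).2)
        (l1.trans (le_max_left _ _))⟩, fun b hb y hy => ?_, mo_le (U3 _ ?_ ?_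
      (fun i => ua_le (U1 ρ a1 r r1 m1' jj _ (hv i).1
        fun y hy => two (hv i).2 ((h3 (b3 y hy)).2.1 i)) l1)
      (ua_le (U2 ρ a2 r r1 m1' jj _ hv'.1 fun y hy => two hv'.2 (h3 (b3 y hy)).2.2) l2)
      (un _ fun _ => le_self_add.trans le_add_self) (un _ fun _ => le_add_self.trans le_add_self))
      (le_max_right _ _), k3.mono fun i hi => mo_le (mo ((kr.cm (D.cϖ i).1).pow_const 4)
        (fun y => by positivity) (div_nonneg C0 c0.le) (dv c0 m1' (by rwa [← kr.nint m0])))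
        ((le_max_right _ _).trans (le_max_left _ _)), ?_⟩
  · have p := b4 (i + b) (by omega) y hy
    have p' := b4 (i' + b) (by omega) y hy
    have q := (h3 (b3 y hy)).1 (i + b) (Finset.mem_range.2 (by omega))
    have q' := (h3 (b3 y hy)).1 (i' + b) (Finset.mem_range.2 (by omega))
    have d := cl b hb
    rw [Prod.dist_eq, max_le_iff] at d
    have k : ∀ {w w' : Fin D1 → ℂ}, ‖w‖ ≤ 2 → ‖w'‖ ≤ 2 → ‖w - w'‖ ≤ 3 * min (δ / 3) (1 / 2) →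
        |normSq (cb m1 w y) * A.p y ^ b1 / K1 - normSq (cb m1 w' y) * A.p y ^ b1 / K1| ≤ δ :=
      fun h h' hd => by
      rw [← sub_div, abs_div, abs_of_pos K10, div_le_iff₀ K10, mul_comm δ]
      exact (hK1 y hy.1 _ _ h h').2.trans (mul_le_mul_of_nonneg_left
        (by linarith [min_le_left (δ / 3) (1 / 2)]) K10.le)
    exact ⟨k p.1.2 p'.1.2 (tri q.1 q'.1 d.1), k p.2.2 p'.2.2 (tri q.2 q'.2 d.2)⟩
  · exact Measure.AbsolutelyContinuous.mk fun S _ hS => measure_eq_zero_iff_ae_notMem.2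
      ((kr.nae _).2 ((measure_eq_zero_iff_ae_notMem.1 hS).mono fun _ h _ => h))
  · refine (kr.nae _).2 (ae_of_all _ fun y hy => ?_)
    have h := hK y ⟨hy.1, hy.2.trans a4⟩
    rw [Finset.prod_div_distrib, Finset.prod_const, Finset.card_univ, Fintype.card_fin, div_pow,
      g0, div_mul_eq_mul_div, le_div_iff₀ (by positivity)]
    refine le_of_eq_of_le ?_ h
    field_simp
  · have s1 : ENNReal.ofReal c₀ ≤ A.kr y₀ ρ r (A.bx y₀ (ρ / 2) ∩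
        {y | min (min c₀ (c₀ / max C 1)) (φ y₀ / 2) ≤ φ y}) :=
      k1.trans (measure_mono fun y hy => ⟨hy.2, le_trans (b := φ y₀ / 2) (min_le_right _ _) hy.1⟩)
    refine ((min_le_left _ _).trans (min_le_right _ _)).trans
      ((ENNReal.ofReal_le_iff_le_toReal (measure_ne_top _ _)).1 ?_)
    rw [An.nu, Measure.smul_apply, smul_eq_mul, ENNReal.ofReal_div_of_pos (by positivity),
      ENNReal.div_eq_inv_mul]
    exact mul_le_mul' (ENNReal.inv_le_inv.2 (mC.trans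
      (ENNReal.ofReal_le_ofReal (le_max_left _ _)))) s1

end Pool.Agent.Lib.KC
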