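import Pool.Agent.Lib.KC.Blue
import Pool.Agent.Lib.KH.B_KIT

/-! Project kc, row SOL: a solution that is not zero. -/

open scoped Classical Topology ContDiff ComplexOrder Matrix ENNReal
open Set MeasureTheory Complex Metric Filter

set_option linter.unusedVariables false

noncomputable section

namespace Pool.Agent.Lib.KC

open Pool.Agent.Lib.HS32 Pool.Agent.Lib.KH

theorem cSOL : St_SOL := by
  intro n M _ H O a b ph β Γ hO hq cb b0 mβ hD f1 f2 ⟨u, hu, hf⟩
  obtain ⟨F, hF, hle⟩ := hq ph β Γ mβ hD f1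
  have h1 : Jo M H O (fun y => normSq (Γ y - F y) * Real.exp (-ph y) * b y) ≤ u :=
    hle.trans (liminf_le_of_frequently_le hf)
  refine ⟨F, hF, ?_, ?_⟩
  · by_contra hz
    refine (h1.trans_lt hu).ne (setLIntegral_congr_fun hO.measurableSet fun y hy => ?_)
    have : F y = 0 := by_contra fun h => hz ⟨y, hy, h⟩
    simp only [this, sub_zero]
  · have c : ContinuousOn (fun y => normSq (Γ y) * Real.exp (-ph y) * b y) O :=
      ((continuous_normSq.comp_continuousOn (KIT.cont hD.sg)).mul
        (Real.continuous_exp.comp_continuousOn (KIT.cont hD.sf).neg)).mul cb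
    have m := (c.aemeasurable (μ := M.mu H) hO.measurableSet).ennreal_ofReal
    have f3 : Jo M H O (fun y => normSq (Γ y - F y) * Real.exp (-ph y) * b y) ≠ ⊤ :=
      ((h1.trans_lt hu).trans_le le_top).ne
    refine ne_top_of_le_ne_top (ENNReal.mul_ne_top (a := 2) ENNReal.ofNat_ne_top
      (ENNReal.add_ne_top.2 ⟨f2, f3⟩)) ?_
    simp only [Jo]
    rw [← lintegral_add_left' m, ← lintegral_const_mul' _ _ ENNReal.ofNat_ne_top]
    refine setLIntegral_mono' hO.measurableSet fun y hy => ?_
    have w : 0 ≤ Real.exp (-ph y) * b y := mul_nonneg (Real.exp_pos _).le (b0 y hy)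
    have e : normSq (F y) ≤ 2 * (normSq (Γ y) + normSq (Γ y - F y)) := by
      simp only [normSq_apply, sub_re, sub_im]
      nlinarith [sq_nonneg (2 * (Γ y).re - (F y).re), sq_nonneg (2 * (Γ y).im - (F y).im)]
    rw [mul_assoc, mul_assoc, mul_assoc, ← ENNReal.ofReal_add
      (mul_nonneg (normSq_nonneg _) w) (mul_nonneg (normSq_nonneg _) w), ← ENNReal.ofReal_ofNat,
      ← ENNReal.ofReal_mul zero_le_two, ← add_mul]
    exact ENNReal.ofReal_le_ofReal ((mul_le_mul_of_nonneg_right e w).trans_eq (mul_assoc _ _ _))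

end Pool.Agent.Lib.KC
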