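import Pool.Agent.Lib.KC.Blue

/-! Project kc, row TEL: the telescoping identities. -/

noncomputable section

namespace Pool.Agent.Lib.KC

open Pool.Agent.Lib.KB14 (be)

theorem cTEL : St_TEL := by
  intro Y G P P' y j x hG hP
  have key : ∀ i k, i + k ≤ j → be (fun a => P (i + a)) (fun a => P' (i + a)) k y =
      Real.log (G i y) - Real.log (G (i + k) y) / 2 ^ k := fun i k => by
    induction k with
    | zero => simp [be]
    | succ k ih =>
      intro h
      obtain ⟨p, e⟩ := hP (i + k) h
      have g := hG (i + k) (by omega)
      have g' := hG (i + k + 1) h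
      have p' : P' (i + k) y ≠ 0 := fun c => (mul_pos g' p).ne (by rw [← e, c, mul_zero])
      have l := congrArg Real.log e
      rw [Real.log_mul (pow_pos g 2).ne' p', Real.log_mul g'.ne' p.ne', Real.log_pow] at l
      have := ih (by omega)
      rw [be] at this
      rw [be, Finset.sum_range_succ, this, ← add_assoc,
        show Real.log (P (i + k) y) - Real.log (P' (i + k) y) =
          2 * Real.log (G (i + k) y) - Real.log (G (i + k + 1) y) by push_cast at l; linarith]
      field_simp
      ring
  refine ⟨fun i hi => ?_, ?_⟩
  · obtain ⟨k, rfl⟩ := Nat.exists_eq_add_of_le hi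
    rw [Nat.add_sub_cancel_left, key i k le_rfl, sub_eq_add_neg, Real.exp_add,
      Real.exp_log (hG i hi)]
    congr 3
    rw [pow_add]
    field_simp
  · have := key 0 j (by omega)
    simp only [zero_add] at this
    rw [Real.rpow_def_of_pos (hG 0 j.zero_le), ← Real.exp_add]
    congr 1
    rw [show be P P' j y = _ from this]
    ring

end Pool.Agent.Lib.KC
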