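import Pool.Agent.Lib.KC.Blue

/-! Row TOP: the core. -/

open scoped Topology ENNReal
open Set MeasureTheory Complex Filter

noncomputable section

namespace Pool.Agent.Lib.KC

open Pool.Agent.Lib.HS32 Pool.Agent.Lib.KH

namespace TOP

theorem jo {n : ℕ} {M : Mf n} {H : M.Fam (Mat n)} {O S : Set M.X} {f f' : M.X → ℝ} {C : ℝ}
    (hC : 0 ≤ C) (hS : O =ᵐ[M.mu H] S) (hO : MeasurableSet O)
    (h : ∀ᵐ y ∂M.mu H, y ∈ O → f y ≤ C * f' y) (hf : Jo M H S f' ≠ ⊤) : Jo M H O f ≠ ⊤ := by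
  refine ne_top_of_le_ne_top (ENNReal.mul_ne_top (ENNReal.ofReal_ne_top (r := C)) hf) ?_
  rw [Jo, Jo, ← setLIntegral_congr hS, ← lintegral_const_mul' _ _ ENNReal.ofReal_ne_top]
  refine lintegral_mono_ae (((ae_restrict_iff' hO).2 h).mono fun y hy => ?_)
  rw [← ENNReal.ofReal_mul hC]
  exact ENNReal.ofReal_le_ofReal hy

theorem one {p Q N C e κ s : ℝ} {c : ℕ} (p0 : 0 < p) (p1 : p ≤ 1) (hQ : 0 < Q) (hN : 1 ≤ N)
    (hC : Q * p ^ c ≤ C) (e0 : 0 ≤ e) (e1 : e ≤ 1) (k1 : κ ≤ 1) (hs : 0 ≤ s) :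
    p ^ (1 + c) ≤ C ^ e * (p ^ κ * (N ^ s * Q ^ (-e))) := by
  have h1 : p ≤ p ^ κ := by
    simpa using Real.rpow_le_rpow_of_exponent_ge p0 p1 k1
  have h2 : p ^ c ≤ (p ^ c) ^ e := by
    simpa using Real.rpow_le_rpow_of_exponent_ge (pow_pos p0 c) (pow_le_one₀ p0.le p1) e1
  have h3 : Q ^ e * (p ^ c) ^ e ≤ C ^ e := by
    rw [← Real.mul_rpow hQ.le (by positivity)]
    exact Real.rpow_le_rpow (by positivity) hC e0
  have h4 := Real.one_le_rpow hN hs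
  have h5 := Real.rpow_pos_of_pos hQ e
  have h6 : p ^ c ≤ C ^ e * Q ^ (-e) := by
    rw [Real.rpow_neg hQ.le, le_mul_inv_iff₀ h5, mul_comm]
    exact (mul_le_mul_of_nonneg_left h2 h5.le).trans h3
  calc p ^ (1 + c) = p * (1 * p ^ c) := by ring
    _ ≤ p ^ κ * (N ^ s * (C ^ e * Q ^ (-e))) := by gcongr
    _ = _ := by ring

end TOP

open TOP in
theorem cTOP (hGMK : St_GMK) (hDM : St_DM) (hSEL : St_SEL) (hCON : St_CON) (hREX : St_REX) :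
    St_TOP := by
  intro n M _ A hD ⟨c, q, Q, v, hQ, v0, hV⟩
  have K := hGMK n M A.toBs
  have hN : ∀ y ∈ A.O, 1 ≤ A.N y := fun y hy =>
    (le_add_of_nonneg_right (Finset.sum_nonneg fun _ _ => normSq_nonneg _)).trans (A.hN y hy)
  obtain ⟨D⟩ := hDM n M A.toBs A.N hN hD
  obtain ⟨e₀, e00, hS⟩ := hSEL n M A D c Q hQ
  have k0 := D.κ0p
  obtain ⟨e, e0, e1, e2, e3⟩ : ∃ e : ℝ, 0 < e ∧ e ≤ e₀ ∧ e ≤ 1 ∧ q * e ≤ D.κ0 / 2 := by
    refine ⟨min e₀ (min 1 (D.κ0 / 2 / (q + 1))), by positivity, min_le_left _ _,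
      (min_le_right _ _).trans (min_le_left _ _), ?_⟩
    have h := (le_div_iff₀ (by positivity : (0 : ℝ) < q + 1)).1
      ((min_le_right e₀ _).trans (min_le_right 1 (D.κ0 / 2 / (q + 1))))
    have : 0 < min e₀ (min 1 (D.κ0 / 2 / (q + 1))) := by positivity
    linarith
  obtain ⟨κ, κ0, κ1, κ2⟩ : ∃ κ : ℝ, 0 < κ ∧ κ ≤ 1 ∧ v * κ ≤ e :=
    ⟨min 1 (e / v), by positivity, min_le_left _ _, (le_div_iff₀' v0).1 (min_le_right _ _)⟩
  obtain ⟨S⟩ := hS e ⟨e0, e1⟩ κ κ0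
  obtain ⟨x, y, c', g, F, x0, hg, hF, ⟨y₀, hy₀, F0⟩, hJ⟩ := hCON n M A D c Q e κ hQ e0 κ0 S
  obtain ⟨C, hC⟩ := hQ.1.2
  have C0 : 0 ≤ C := le_trans (mul_nonneg (normSq_nonneg _)
    (mul_pos (pow_pos (A.pos _ hy₀.1).2.2 _) (pow_pos (A.pos _ hy₀.1).1 _)).le) (hC y₀ hy₀.1)
  have mO := A.opn.measurableSet
  have hS : A.O =ᵐ[M.mu A.H] (A.O ∩ {y | g y ≠ 0} : Set M.X) :=
    eventuallyEq_set.2 ((K.aez hg).mono fun y h => ⟨fun a => ⟨a, h.2⟩, And.left⟩)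
  have b1 : ∀ y ∈ A.O, Q y ≠ 0 → normSq (F y) * (A.T y ^ x * A.p y ^ (1 + c)) ≤
      C ^ e * (normSq (F y) * A.T y ^ x * A.p y ^ κ *
        (A.N y ^ (D.κ0 / 2) * normSq (Q y) ^ (-e))) := fun y hy h => by
    obtain ⟨p0, p1, T0⟩ := A.pos y hy
    have h1 := one p0 p1 (normSq_pos.2 h) (hN y hy) (by simpa using hC y hy) e0.le e2 κ1
      (half_pos k0).le
    have h2 := mul_le_mul_of_nonneg_left h1 (mul_nonneg (normSq_nonneg (F y)) (pow_pos T0 x).le)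
    exact (mul_assoc _ _ _).symm.le.trans (h2.trans_eq (by ring))
  obtain ⟨F', f1, f2⟩ := hREX n M A.H A.O g F (fun y => A.T y ^ x * A.p y ^ (1 + c))
    A.kae.toMet A.opn hg.1.1 ((K.aez hg).mono fun y h _ => h.2) hF
    ((K.cT.pow x).mul (A.cp.pow _))
    (fun y hy => mul_pos (pow_pos (A.pos y hy).2.2 _) (pow_pos (A.pos y hy).1 _))
    (jo (Real.rpow_nonneg C0 e) (ae_eq_refl _) (K.opn hg.1).measurableSet
      ((K.aez hQ).mono fun y h hy => b1 y hy.1 h.2) hJ)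
  refine ⟨x, x0, hV x (1 + c) F' κ e x0 ⟨A.l2 x _ F' f1 (jo (Real.rpow_nonneg C0 e) hS mO ?_ hJ),
    y₀, hy₀.1, by rwa [f2 y₀ hy₀.1 hy₀.2]⟩ κ0 κ2 (jo zero_le_one hS mO ?_ hJ)⟩
  · filter_upwards [K.aez hg, K.aez hQ] with y h h' hy
    rw [f2 y hy h.2]
    exact b1 y hy h'.2
  · filter_upwards [K.aez hg] with y h hy
    obtain ⟨p0, -, T0⟩ := A.pos y hy
    have N1 := hN y hy
    have q0 := normSq_nonneg (Q y)
    have f0 := normSq_nonneg (F y)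
    rw [f2 y hy h.2, one_mul, Real.div_rpow (by positivity) q0, Real.rpow_neg q0, div_eq_mul_inv,
      ← Real.rpow_natCast (A.N y), ← Real.rpow_mul (by positivity)]
    gcongr

end Pool.Agent.Lib.KC
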