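import Pool.Agent.Lib.KC.Blue

/-! Project kc: the normalised tower. -/

open scoped Classical Topology ContDiff ComplexOrder Matrix ENNReal
open Set MeasureTheory Complex Metric Filter

set_option linter.unusedVariables false

noncomputable section

namespace Pool.Agent.Lib.KC

open Pool.Agent.Lib.HS32 Pool.Agent.Lib.KH
open MvPolynomial (eval)

namespace TOW

theorem cb_smul {Y : Type} {D : ℕ} (m : Fin D → Y → ℂ) (t : ℂ) (c : Fin D → ℂ) (y : Y) :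
    cb m (t • c) y = t * cb m c y := by
  simp only [cb, Pi.smul_apply, smul_eq_mul, Finset.mul_sum, mul_assoc]

theorem pos_of {Y : Type} {D : ℕ} {m : Fin D → Y → ℂ} {c : Fin D → ℂ} {y : Y}
    (h : cb m c y ≠ 0) : 0 < ‖c‖ := by
  refine norm_pos_iff.2 fun h0 => h ?_
  simp [h0, cb]

theorem cont {k D : ℕ} (c : Fin D → MvPolynomial (Sx k) ℂ) : Continuous (cv c) :=
  continuous_pi fun l => MvPolynomial.continuous_eval (c l)

/-- The normalised coefficients. -/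
def nr {k D : ℕ} (c : Fin D → MvPolynomial (Sx k) ℂ) (s₀ s : Sx k → ℂ) : Fin D → ℂ :=
  ((‖cv c s₀‖ : ℝ) : ℂ)⁻¹ • cv c s

theorem un {n : ℕ} {M : Mf n} (A : An M) {D : ℕ} (c : Fin D → MvPolynomial (Sx A.k) ℂ)
    (y₀ : M.X) (h : 0 < ‖cv c (A.s · y₀)‖) : A.Un y₀ (nr c (A.s · y₀)) := by
  refine ⟨(cont c).const_smul (((‖cv c (A.s · y₀)‖ : ℝ) : ℂ)⁻¹), ?_⟩
  rw [nr, norm_smul, norm_inv, Complex.norm_real, norm_norm, inv_mul_cancel₀ h.ne']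

/-- The scalars. -/
def al (p q : ℕ → ℂ) : ℕ → ℂ
  | 0 => 1
  | i + 1 => al p q i ^ 2 * p i * (q i)⁻¹

theorem al_ne {p q : ℕ → ℂ} (hp : ∀ i, p i ≠ 0) (hq : ∀ i, q i ≠ 0) : ∀ i, al p q i ≠ 0
  | 0 => one_ne_zero
  | i + 1 => mul_ne_zero (mul_ne_zero (pow_ne_zero _ (al_ne hp hq i)) (hp i)) (inv_ne_zero (hq i))

end TOW

theorem cTOW (hGMK : St_GMK) : St_TOW := by
  intro n M _ A D b a m G hm hR hG
  have K := hGMK n M A.toBs
  have h1 : ∀ i : ℕ, ∃ p q : Fin D → MvPolynomial (Sx A.k) ℂ,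
      Nz M A.O (fun y => cb m (cv p (A.s · y)) y) ∧ Nz M A.O (fun y => cb m (cv q (A.s · y)) y) ∧
      ∀ y ∈ A.O, G (a * 2 ^ i) y * G (a * 2 ^ i) y * cb m (cv q (A.s · y)) y =
        G (a * 2 ^ (i + 1)) y * cb m (cv p (A.s · y)) y := by
    intro i
    have e1 := K.nmul (hG (a * 2 ^ i)) (hG (a * 2 ^ i))
    rw [show a * 2 ^ i + a * 2 ^ i = a * 2 ^ (i + 1) by ring, ← two_mul] at e1
    exact hR _ _ _ e1 ⟨K.mono (by omega) (hG _).1, (hG _).2⟩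
  choose p q hp hq hpq using h1
  have h2 : ∀ c : Fin D → MvPolynomial (Sx A.k) ℂ, Nz M A.O (fun y => cb m (cv c (A.s · y)) y) →
      ∀ᵐ y ∂M.mu A.H, 0 < ‖cv c (A.s · y)‖ := by
    intro c hc
    obtain ⟨a', ha'⟩ := K.cmb c A.hs hm
    exact (K.aez ⟨ha', hc⟩).mono fun y hy => TOW.pos_of hy.2
  filter_upwards [ae_all_iff.2 fun i => h2 _ (hp i), ae_all_iff.2 fun i => h2 _ (hq i)]
    with y₀ k1 k2
  have k3 : ∀ i, ((‖cv (p i) (A.s · y₀)‖ : ℝ) : ℂ) ≠ 0 := fun i => ofReal_ne_zero.2 (k1 i).ne'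
  have k4 : ∀ i, ((‖cv (q i) (A.s · y₀)‖ : ℝ) : ℂ) ≠ 0 := fun i => ofReal_ne_zero.2 (k2 i).ne'
  refine ⟨fun i y => TOW.al (fun i => ((‖cv (p i) (A.s · y₀)‖ : ℝ) : ℂ))
      (fun i => ((‖cv (q i) (A.s · y₀)‖ : ℝ) : ℂ)) i * G (a * 2 ^ i) y,
    fun i => TOW.nr (p i) (A.s · y₀), fun i => TOW.nr (q i) (A.s · y₀), ?_, fun i =>
      ⟨⟨?_, ?_⟩, TOW.un A _ _ (k1 i), TOW.un A _ _ (k2 i), fun y hy => ?_⟩⟩
  · funext y
    simp [TOW.al]
  · have := K.mul (K.cst (TOW.al (fun i => ((‖cv (p i) (A.s · y₀)‖ : ℝ) : ℂ))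
      (fun i => ((‖cv (q i) (A.s · y₀)‖ : ℝ) : ℂ)) i)) (hG (a * 2 ^ i)).1
    rwa [zero_add, zero_add] at this
  · obtain ⟨y, hy, hy'⟩ := (hG (a * 2 ^ i)).2
    exact ⟨y, hy, mul_ne_zero (TOW.al_ne k3 k4 i) hy'⟩
  · have e := hpq i y hy
    simp only [An.Pn, TOW.nr, TOW.cb_smul, TOW.al]
    rw [← mul_assoc, ← mul_assoc, ← map_pow, ← map_mul, ← map_mul]
    refine congrArg (fun t => normSq t * A.p y ^ b) ?_
    have k5 := k3 i
    have k6 := k4 i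
    generalize TOW.al _ _ i = t
    field_simp
    linear_combination t ^ 2 * e

end Pool.Agent.Lib.KC
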