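import Pool.Agent.Lib.KC.B_GMK
import Pool.Agent.Lib.KC.B_PSK
import Pool.Agent.Lib.KC.B_KRK
import Pool.Agent.Lib.KC.B_REX
import Pool.Agent.Lib.KC.B_HQ0
import Pool.Agent.Lib.KC.B_DM
import Pool.Agent.Lib.KC.B_SOL
import Pool.Agent.Lib.KC.B_CHI
import Pool.Agent.Lib.KC.B_MS0
import Pool.Agent.Lib.KC.B_GEN
import Pool.Agent.Lib.KC.B_LIP
import Pool.Agent.Lib.KC.B_PKT
import Pool.Agent.Lib.KC.B_MOM
import Pool.Agent.Lib.KC.B_UM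
import Pool.Agent.Lib.KC.B_TOW
import Pool.Agent.Lib.KC.B_BOT
import Pool.Agent.Lib.KC.B_PHM
import Pool.Agent.Lib.KC.B_PSI
import Pool.Agent.Lib.KC.B_SEL
import Pool.Agent.Lib.KC.B_TEL
import Pool.Agent.Lib.KC.B_CST
import Pool.Agent.Lib.KC.B_CON
import Pool.Agent.Lib.KC.B_TOP
import Pool.Agent.Lib.KC.B_NRM
import Pool.Agent.Lib.KC.B_ANI
import Pool.Agent.Lib.KC.B_DGA
import Pool.Agent.Lib.KC.B_CUA
import Pool.Agent.Lib.KC.B_EQA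

/-! Project kc: all rows. -/

namespace Pool.Agent.Lib.KC

theorem aGEN : St_GEN := cGEN cGMK cPSK cHQ0 cSOL cCHI cMS0 cREX

theorem aSEL : St_SEL := cSEL cGMK (cKRK cGMK) (cLIP cGMK) (cPKT (cLIP cGMK))
  (cMOM cGMK (cLIP cGMK)) (cUM cGMK (cKRK cGMK)) (cTOW cGMK) (cBOT cGMK) (cPHM cGMK)
  (cPSI cGMK)

theorem aCON : St_CON := cCON cGMK (cKRK cGMK) cSOL cTEL cCST

theorem aTOP : St_TOP := cTOP cGMK (cDM cGMK) aSEL aCON cREX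

theorem aDGA : St_DGA := cDGA (cANI cNRM)

theorem aGMK : St_GMK := cGMK

theorem aEQA : St_EQA := cEQA

theorem aCUA : St_CUA := cCUA

end Pool.Agent.Lib.KC
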