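import Pool.Agent.Lib.KC.Defs

/-! Project kc: the analytic core of the general fibre route. Blueprint. -/

open scoped Classical Topology ContDiff ComplexOrder Matrix ENNReal
open Set MeasureTheory Complex Metric Filter

set_option linter.unusedVariables false

noncomputable section

namespace Pool.Agent.Lib.KC

open Pool.Agent.Lib.SV (E nsq)
open Pool.Agent.Lib.HS32 Pool.Agent.Lib.KH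
open Pool.Agent.Lib.KB14 (mn er be)
open Pool.Agent.Lib.NV6 (Mo)
open MvPolynomial (eval)

/-! ### Kits -/

/-- The spaces of given level and cost. -/
structure Gmk {n : ℕ} {M : Mf n} (B : Bs M) : Prop where
  cst : ∀ a : ℂ, B.Gm 0 0 fun _ => a
  mono : ∀ {x c c' g}, c ≤ c' → B.Gm x c g → B.Gm x c' g
  add : ∀ {x c g g'}, B.Gm x c g → B.Gm x c g' → B.Gm x c fun y => g y + g' y
  mul : ∀ {x c x' c' g g'}, B.Gm x c g → B.Gm x' c' g' → B.Gm (x + x') (c + c') fun y => g y * g' y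
  cgr : ∀ {x c g g'}, B.Gm x c g → (∀ y ∈ B.O, g' y = g y) → B.Gm x c g'
  pol : ∀ {τ : Type} {s : τ → M.X → ℂ} (P : MvPolynomial τ ℂ), (∀ i, B.Gm 0 1 (s i)) →
    B.Gm 0 P.totalDegree fun y => eval (s · y) P
  cmb : ∀ {k D a : ℕ} {s : Sx k → M.X → ℂ} {m : Fin D → M.X → ℂ}
    (c : Fin D → MvPolynomial (Sx k) ℂ), (∀ i, B.Gm 0 1 (s i)) → (∀ i, B.Gm 0 a (m i)) →
    ∃ a', B.Gm 0 a' fun y => cb m (cv c (s · y)) y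
  lip : ∀ {D a : ℕ} {m : Fin D → M.X → ℂ}, (∀ i, B.Gm 0 a (m i)) → ∃ C > (0 : ℝ), ∀ y ∈ B.O,
    ∀ c c' : Fin D → ℂ, ‖c‖ ≤ 2 → ‖c'‖ ≤ 2 → normSq (cb m c y) * B.p y ^ a ≤ C ∧
      |normSq (cb m c y) * B.p y ^ a - normSq (cb m c' y) * B.p y ^ a| ≤ C * ‖c - c'‖
  cnt : ∀ {x c g}, B.Gm x c g → ContinuousOn g B.O
  cT : ContinuousOn B.T B.O
  aez : ∀ {x c g}, B.Gn x c g → ∀ᵐ y ∂M.mu B.H, y ∈ B.O ∧ g y ≠ 0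
  nz : ∀ {g : M.X → ℂ}, (∀ᵐ y ∂M.mu B.H, y ∈ B.O → g y ≠ 0) → Nz M B.O g
  one : B.Gn 0 0 fun _ => 1
  nmul : ∀ {x c x' c' g g'}, B.Gn x c g → B.Gn x' c' g' → B.Gn (x + x') (c + c') fun y => g y * g' y
  prod : ∀ {ι : Type} (S : Finset ι) {g : ι → M.X → ℂ}, (∀ i ∈ S, ∃ x c, B.Gn x c (g i)) →
    ∃ x c, B.Gn x c fun y => ∏ i ∈ S, g i y
  opn : ∀ {x c g}, B.Gm x c g → IsOpen (B.O ∩ {y | g y ≠ 0})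
  fin : IsFiniteMeasure (M.mu B.H)

def St_GMK : Prop := ∀ (n : ℕ) (M : Mf n) [M.Cpt] (B : Bs M), Gmk B

/-- Plurisubharmonic functions. -/
structure Psk {n : ℕ} (M : Mf n) : Prop where
  hom : ∀ {O O' F}, O' ⊆ O → HoK M O F → HoK M O' F
  mono : ∀ {O O' f}, O' ⊆ O → Ps M O f → Ps M O' f
  cgr : ∀ {O f g}, IsOpen O → Ps M O f → (∀ y ∈ O, g y = f y) → Ps M O g
  cst : ∀ O (a : ℝ), Ps M O fun _ => a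
  add : ∀ {O f g}, Ps M O f → Ps M O g → Ps M O fun y => f y + g y
  smul : ∀ {O f} {a : ℝ}, 0 ≤ a → Ps M O f → Ps M O fun y => a * f y
  lg : ∀ {O g} (a : ℝ), IsOpen O → HoK M O g → (∀ y ∈ O, g y ≠ 0) →
    Ps M O fun y => a * Real.log (normSq (g y))
  ls : ∀ {O} {τ : Type} [Fintype τ] {g : τ → M.X → ℂ} {a : ℝ}, IsOpen O → (∀ i, HoK M O (g i)) →
    0 ≤ a → (∀ y ∈ O, 0 < nsq (g · y) + a) → Ps M O fun y => Real.log (nsq (g · y) + a)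
  da : ∀ {O ph ψ β Γ}, Da M O ph β Γ → Ps M O ψ → Da M O (fun y => ph y + ψ y) β Γ

def St_PSK : Prop := ∀ (n : ℕ) (M : Mf n), Psk M

/-- The concentrating measures. -/
structure Krk {n : ℕ} {M : Mf n} (A : An M) (y₀ : M.X) (ρ r : ℝ) : Prop where
  ms : MeasurableSet (A.bx y₀ ρ)
  int : ∀ f : M.X → ℝ≥0∞, ∫⁻ y, f y ∂A.kr y₀ ρ r =
    ∫⁻ y in A.bx y₀ ρ, f y * ENNReal.ofReal (kk r (tl (A.s · y₀)) (tl (A.s · y))) ∂M.mu A.H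
  ae : ∀ q : M.X → Prop, (∀ᵐ y ∂A.kr y₀ ρ r, q y) ↔ ∀ᵐ y ∂M.mu A.H, y ∈ A.bx y₀ ρ → q y
  fin : A.kr y₀ ρ r univ ≠ ⊤
  low : ∃ c > (0 : ℝ), ∀ y ∈ A.bx y₀ ρ, c ≤ kk r (tl (A.s · y₀)) (tl (A.s · y))
  prob : A.kr y₀ ρ r univ ≠ 0 → IsProbabilityMeasure (A.nu y₀ ρ r)
  nae : ∀ q : M.X → Prop, (∀ᵐ y ∂A.nu y₀ ρ r, q y) ↔ ∀ᵐ y ∂M.mu A.H, y ∈ A.bx y₀ ρ → q y
  nint : A.kr y₀ ρ r univ ≠ 0 → ∀ f : M.X → ℝ≥0∞,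
    ∫⁻ y, f y ∂A.kr y₀ ρ r = A.kr y₀ ρ r univ * ∫⁻ y, f y ∂A.nu y₀ ρ r
  cm : ∀ {f : M.X → ℝ}, ContinuousOn f A.O → AEMeasurable f (A.nu y₀ ρ r)
  cm' : ∀ {f : M.X → ℂ}, ContinuousOn f A.O → AEMeasurable f (A.nu y₀ ρ r)
  back : A.kr y₀ ρ r univ ≠ 0 → ∀ {f : M.X → ℝ} {C : ℝ}, Mo (A.nu y₀ ρ r) f C →
    Jo M A.H (A.bx y₀ ρ) f ≠ ⊤ ∧ AEMeasurable f ((M.mu A.H).restrict (A.bx y₀ ρ))

def St_KRK : Prop := ∀ (n : ℕ) (M : Mf n) [M.Cpt] (A : An M) (y₀ : M.X) (ρ r : ℝ), 0 < r →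
  Krk A y₀ ρ r

/-- Square integrable functions extend over the zeros of a holomorphic function. -/
def St_REX : Prop := ∀ (n : ℕ) (M : Mf n) [M.Cpt] (H : M.Fam (Mat n)) (O : Set M.X)
  (g F : M.X → ℂ) (w : M.X → ℝ), M.Met H → IsOpen O → HoK M O g →
  (∀ᵐ y ∂M.mu H, y ∈ O → g y ≠ 0) → HoK M (O ∩ {y | g y ≠ 0}) F → ContinuousOn w O →
  (∀ y ∈ O, 0 < w y) → Jo M H (O ∩ {y | g y ≠ 0}) (fun y => normSq (F y) * w y) ≠ ⊤ →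
  ∃ F', HoK M O F' ∧ ∀ y ∈ O, g y ≠ 0 → F' y = F y

/-- The flat measure. -/
def St_HQ0 : Prop := ∀ (n : ℕ) (M : Mf n) [M.Cpt] (B : Bs M) (x c : ℕ) (g : M.X → ℂ),
  B.Gn x c g → HQ M B.H (B.O ∩ {y | g y ≠ 0}) (fun _ y => B.T y ^ (1 / B.d : ℝ))
    fun y => B.T y ^ (1 / B.d : ℝ)

/-- The dominated measures. -/
def St_DM : Prop := ∀ (n : ℕ) (M : Mf n) [M.Cpt] (B : Bs M) (N : M.X → ℝ),
  (∀ y ∈ B.O, 1 ≤ N y) → B.Dom N → Nonempty (B.Dm N)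

/-- A solution that is not zero. -/
def St_SOL : Prop := ∀ (n : ℕ) (M : Mf n) [M.Cpt] (H : M.Fam (Mat n)) (O : Set M.X)
  (a : ℕ → M.X → ℝ) (b ph β : M.X → ℝ) (Γ : M.X → ℂ), IsOpen O → HQ M H O a b →
  ContinuousOn b O → (∀ y ∈ O, 0 ≤ b y) → AEMeasurable β ((M.mu H).restrict O) →
  Da M O ph β Γ → (∀ i, Jo M H O (fun y => normSq (Γ y) * Real.exp (-ph y) * a i y) ≠ ⊤) →
  Jo M H O (fun y => normSq (Γ y) * Real.exp (-ph y) * b y) ≠ ⊤ →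
  (∃ u : ℝ≥0∞, u < Jo M H O (fun y => normSq (Γ y) * Real.exp (-ph y) * b y) ∧
    ∃ᶠ i in atTop, Jo M H O (fun y => β y * Real.exp (-ph y) * a i y) ≤ u) →
  ∃ F, HoK M O F ∧ Nz M O F ∧ Jo M H O (fun y => normSq (F y) * Real.exp (-ph y) * b y) ≠ ⊤

/-- The cut-off function. -/
def St_CHI : Prop := ∀ (n : ℕ) (M : Mf n) (O : Set M.X) (τ : Type) [Fintype τ]
  (s : τ → M.X → ℂ) (s₀ : τ → ℂ) (ρ e₁ : ℝ), IsOpen O → (∀ i, HoK M O (s i)) → 0 < ρ → 0 < e₁ →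
  ∃ (χ : M.X → ℝ) (C : ℝ), 0 ≤ C ∧ (∀ y, 0 ≤ χ y ∧ χ y ≤ 1) ∧
    (∀ y, ‖(s · y) - s₀‖ ≤ ρ / 2 → χ y = 1) ∧ (∀ y, ρ ≤ ‖(s · y) - s₀‖ → χ y = 0) ∧
    Da M O (fun y => e₁ * Real.log (1 + nsq (s · y)))
      ({y | ρ / 2 ≤ ‖(s · y) - s₀‖ ∧ ‖(s · y) - s₀‖ ≤ ρ}.indicator fun _ => C)
      fun y => (χ y : ℂ)

/-! ### The fillers -/

/-- The mass near a point, without a rank condition. -/
def St_MS0 : Prop := ∀ (n : ℕ) (M : Mf n) [M.Cpt] (H : M.Fam (Mat n)) (O : Set M.X) (k : ℕ)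
  (z : Fin k → M.X → ℂ) (y₀ : M.X), M.Met H → IsOpen O → (∀ i, HoK M O (z i)) → y₀ ∈ O →
  ∀ V ∈ 𝓝 y₀, ∃ c > (0 : ℝ), ∀ᶠ r in 𝓝[>] (0 : ℝ), ENNReal.ofReal c ≤
    Jo M H V fun y => r ^ 2 / (nsq ((z · y) - (z · y₀)) + r ^ 2) ^ (n + 1)

/-- The fillers. -/
def St_GEN : Prop := ∀ (n : ℕ) (M : Mf n) [M.Cpt] (B : Bs M) (k c : ℕ) (z : Fin k → M.X → ℂ),
  (∀ i, B.Gm 0 1 (z i)) → B.AI z c → ∀ x, ∃ g, B.Gn x (c + n + 2) g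

/-! ### The measures on the fibres -/

/-- The base is a graph near a general point. -/
def St_LIP : Prop := ∀ (n : ℕ) (M : Mf n) [M.Cpt] (A : An M), ∀ᵐ y ∂M.mu A.H, A.Lp y

/-- Null sets of the base have null preimages. -/
def St_PUL : Prop := ∀ (n : ℕ) (M : Mf n) [M.Cpt] (A : An M) (q : E A.k → Prop),
  (∀ᵐ t, q t) → ∀ᵐ y ∂M.mu A.H, q (tl (A.s · y))

/-- The mass near a point of a submersion. -/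
def St_MAS : Prop := ∀ (n : ℕ) (M : Mf n) [M.Cpt] (H : M.Fam (Mat n)) (O : Set M.X) (k : ℕ)
  (t : M.X → E k) (y₀ : M.X), M.Met H → IsOpen O → (∀ i, HoK M O fun y => t y i) → y₀ ∈ O →
  Sub M t y₀ → ∀ V ∈ 𝓝 y₀, ∃ c > (0 : ℝ), ∀ ρ > (0 : ℝ), ∀ᶠ r in 𝓝[>] (0 : ℝ),
    ENNReal.ofReal c ≤ Jo M H (V ∩ {y | ‖t y - t y₀‖ ≤ ρ}) fun y => kk r (t y₀) (t y)

/-- The choice of the fibre. -/
def St_PKT : Prop := ∀ (n : ℕ) (M : Mf n) [M.Cpt] (A : An M) (D : A.toBs.Dm A.N)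
  (f : M.X → ℝ≥0∞), AEMeasurable f ((M.mu A.H).restrict A.O) → ∫⁻ y in A.O, f y ∂M.mu A.H ≠ ⊤ →
  ∀ᵐ y ∂M.mu A.H, A.Pk f D.ϖ y

/-- Uniform moments. -/
def St_MOM : Prop := ∀ (n : ℕ) (M : Mf n) [M.Cpt] (A : An M) (D a : ℕ) (m : Fin D → M.X → ℂ),
  (∀ i, A.toBs.Gm 0 a (m i)) → Ani A.O A.p A.s A.z m →
  ∃ α > (0 : ℝ), ∀ᵐ y ∂M.mu A.H, A.Mm m a α y

/-- Uniform moments for the normalised measures. -/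
def St_UM : Prop := ∀ (n : ℕ) (M : Mf n) [M.Cpt] (A : An M) (D a : ℕ) (m : Fin D → M.X → ℂ)
  (α t K : ℝ) (y₀ : M.X), (∀ i, A.toBs.Gm 0 a (m i)) → A.Mm m a α y₀ → 0 < t → t ≤ α → 0 < K →
  (∀ y ∈ A.O, ∀ c : Fin D → ℂ, ‖c‖ ≤ 2 → normSq (cb m c y) * A.p y ^ a ≤ K) →
  ∃ ρ₀ > (0 : ℝ), ∀ C c : ℝ, 0 < c → ∃ C' : ℝ, ∀ ρ ≤ ρ₀, ∀ r > (0 : ℝ),
    ENNReal.ofReal c ≤ A.kr y₀ ρ r univ →
    ∫⁻ y in A.O, ng (A.j y) A.ε * ENNReal.ofReal (kk r (tl (A.s · y₀)) (tl (A.s · y))) ∂M.mu A.H ≤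
      ENNReal.ofReal C →
    ∀ u : (Sx A.k → ℂ) → Fin D → ℂ, Continuous u →
      (∀ y ∈ A.bx y₀ ρ, 1 / 2 ≤ ‖u (A.s · y)‖ ∧ ‖u (A.s · y)‖ ≤ 2) →
      Ua (A.nu y₀ ρ r) t C' fun y => A.Pn m a u y / K

/-! ### The tower -/

/-- The normalised tower. -/
def St_TOW : Prop := ∀ (n : ℕ) (M : Mf n) [M.Cpt] (A : An M) (D b a : ℕ) (m : Fin D → M.X → ℂ)
  (G : ℕ → M.X → ℂ), (∀ i, A.toBs.Gm 0 b (m i)) → A.toBs.Rt A.s m (2 * A.c0) →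
  (∀ x, A.toBs.Gn x A.c0 (G x)) → ∀ᵐ y₀ ∂M.mu A.H,
    ∃ (g : ℕ → M.X → ℂ) (u u' : ℕ → (Sx A.k → ℂ) → Fin D → ℂ), g 0 = G a ∧ ∀ i,
      A.toBs.Gn (a * 2 ^ i) A.c0 (g i) ∧ A.Un y₀ (u i) ∧ A.Un y₀ (u' i) ∧ ∀ y ∈ A.O,
        normSq (g i y) ^ 2 * A.Pn m b (u' i) y = normSq (g (i + 1) y) * A.Pn m b (u i) y

/-- The bottom of the tower against the multiplier. -/
def St_BOT : Prop := ∀ (n : ℕ) (M : Mf n) [M.Cpt] (A : An M) (D b D' b' a Q : ℕ)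
  (m : Fin D → M.X → ℂ) (m' : Fin D' → M.X → ℂ) (G : ℕ → M.X → ℂ) (Ω : M.X → ℂ),
  (∀ i, A.toBs.Gm 0 b (m i)) → A.toBs.Rt A.s m (2 * A.c0) → (∀ i, A.toBs.Gm 0 b' (m' i)) →
  A.toBs.Rt A.s m' (A.l + A.c0) → (∀ x, A.toBs.Gn x A.c0 (G x)) → (G 0 = fun _ => 1) →
  A.toBs.Gn Q A.l Ω → ∀ᵐ y₀ ∂M.mu A.H,
    ∃ (u : Fin (Q + a) → (Sx A.k → ℂ) → Fin D → ℂ) (u' : (Sx A.k → ℂ) → Fin D' → ℂ) (K : ℝ),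
      (∀ i, A.Un y₀ (u i)) ∧ A.Un y₀ u' ∧ ∀ y ∈ A.bx y₀ 1,
        normSq (G a y) ^ Q * (∏ i, A.Pn m b (u i) y) * A.Pn m' b' u' y ^ a ≤ K * normSq (Ω y) ^ a

/-- The moment of the density at the bottom. -/
def St_PHM : Prop := ∀ (n : ℕ) (M : Mf n) [M.Cpt] (A : An M) (a Q c N : ℕ) (g Ω Q₀ : M.X → ℂ)
  (x0 x θ e e₁ ε t K C : ℝ) (P : Fin N → M.X → ℝ) (P' : M.X → ℝ), 0 < a → N ≤ 2 * a →
  A.toBs.Gn a A.c0 g → A.toBs.Gn Q A.l Ω → A.toBs.Gn 0 c Q₀ → 0 < x0 → 0 < θ →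
  x * a = x0 + θ * Q → 0 < e → 0 ≤ e₁ → 16 * e ≤ ε → 16 * A.c0 * x0 ≤ a * A.ε → 24 * θ ≤ t →
  ∃ C' : ℝ, ∀ (ν : Measure M.X) [IsProbabilityMeasure ν], ν ≪ M.mu A.H →
    (∀ᵐ y ∂ν, normSq (g y) ^ Q * (∏ i, P i y) * P' y ^ a ≤ K * normSq (Ω y) ^ a) →
    (∀ i, Ua ν t C (P i)) → Ua ν t C P' → ∫⁻ y, ng (A.j y) A.ε ∂ν ≤ ENNReal.ofReal C →
    ∫⁻ y, ng (normSq (Q₀ y) * (A.T y ^ 0 * A.p y ^ c)) ε ∂ν ≤ ENNReal.ofReal C →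
    Mo ν (fun y => A.ph x0 x θ e e₁ g Ω Q₀ y ^ 4) C'

/-- The patched weight. -/
def St_PSI : Prop := ∀ (n : ℕ) (M : Mf n) [M.Cpt] (A : An M) (Q m : ℕ) (Ω : M.X → ℂ) (θ : ℝ)
  (y₀ : M.X), A.toBs.Gm Q A.l Ω → 0 < θ → θ * m = A.k + 1 →
  Ct A.O (A.toBs.Gm Q A.l) A.s Ω m (A.s · y₀) → A.Lp y₀ → A.Pw Ω Q θ y₀

/-- The stage exists. -/
def St_SEL : Prop := ∀ (n : ℕ) (M : Mf n) [M.Cpt] (A : An M) (D : A.toBs.Dm A.N) (c : ℕ)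
  (Q₀ : M.X → ℂ), A.toBs.Gn 0 c Q₀ → ∃ e₀ > (0 : ℝ), ∀ e ∈ Ioc 0 e₀, ∀ κ > (0 : ℝ),
    Nonempty (A.Sg D Q₀ e κ)

/-! ### The test section -/

/-- The telescoping identities. -/
def St_TEL : Prop := ∀ (Y : Type) (G P P' : ℕ → Y → ℝ) (y : Y) (j : ℕ) (x : ℝ),
  (∀ b ≤ j, 0 < G b y) → (∀ b < j, 0 < P b y ∧ G b y ^ 2 * P' b y = G (b + 1) y * P b y) →
  (∀ i ≤ j, G i y * Real.exp (-(2 ^ i * (Real.log (G j y) / 2 ^ j))) =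
    Real.exp (be (fun a => P (i + a)) (fun a => P' (i + a)) (j - i) y)) ∧
  Real.exp (x * (Real.log (G j y) / 2 ^ j)) = G 0 y ^ x * Real.exp (-(x * be P P' j y))

/-- The estimate on a probability space. -/
def St_FIN : Prop := ∀ t C c x : ℝ, 0 < t → 0 < c → 0 ≤ x → 4 * x ≤ t → ∃ c' > (0 : ℝ),
  ∀ θ₀ > (0 : ℝ), ∀ η > (0 : ℝ), ∃ (θ e₃ e δ : ℝ) (L : ℕ), 0 < θ ∧ θ ≤ θ₀ ∧ 0 < e₃ ∧ e₃ ≤ 1 ∧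
    0 < e ∧ e ≤ 1 ∧ 0 < δ ∧ ∀ (Ω : Type) [MeasurableSpace Ω] (ν : Measure Ω)
    [IsProbabilityMeasure ν] (P P' : ℕ → Ω → ℝ) (φ : Ω → ℝ) (V : Set Ω) (i i' j : ℕ),
      i < i' → i' + L ≤ j → (∀ b < j, Ua ν t C (P b) ∧ Ua ν t C (P' b)) →
      (∀ b < L, ∀ᵐ y ∂ν, |P (i + b) y - P (i' + b) y| ≤ δ ∧ |P' (i + b) y - P' (i' + b) y| ≤ δ) →
      (∀ᵐ y ∂ν, 0 ≤ φ y) → AEMeasurable φ ν → Mo ν (fun y => φ y ^ 4) C →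
      c ≤ ν.real (V ∩ {y | c ≤ φ y}) →
      Mo ν (fun y => Real.exp (-(x * be P P' j y)) ^ 4) (max C 1) ∧
      ENNReal.ofReal c' ≤ ∫⁻ y in V, ENNReal.ofReal (mn θ e₃ e
        (Real.exp (be (fun a => P (i + a)) (fun a => P' (i + a)) (j - i) y))
        (Real.exp (be (fun a => P (i' + a)) (fun a => P' (i' + a)) (j - i') y)) *
        (Real.exp (-(x * be P P' j y)) * φ y)) ∂ν ∧
      ∀ ϖ : Ω → ℝ, (∀ y, 0 ≤ ϖ y) → AEMeasurable ϖ ν → Mo ν (fun y => ϖ y ^ 4) C →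
        ∫⁻ y, ENNReal.ofReal (er θ e₃ e
          (Real.exp (be (fun a => P (i + a)) (fun a => P' (i + a)) (j - i) y))
          (Real.exp (be (fun a => P (i' + a)) (fun a => P' (i' + a)) (j - i') y)) *
          (Real.exp (-(x * be P P' j y)) * φ y) * ϖ y) ∂ν ≤ ENNReal.ofReal η

/-- The test section. -/
def St_TST : Prop := ∀ (n : ℕ) (M : Mf n) (O : Set M.X) (g g' h : M.X → ℂ) (o S χ : M.X → ℝ)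
  (u u' v x θ e₃ e : ℝ), IsOpen O → HoK M O g → HoK M O g' → HoK M O h →
  (∀ y ∈ O, g y ≠ 0 ∧ g' y ≠ 0 ∧ h y ≠ 0) → Da M O o S (fun y => (χ y : ℂ)) →
  0 < θ → 0 < e₃ → 0 < e → ∀ lam b b' ph : M.X → ℝ, (∀ y, lam y = Real.log (normSq (h y)) / v) →
  (∀ y, b y = normSq (g y) * Real.exp (-(u * lam y))) →
  (∀ y, b' y = normSq (g' y) * Real.exp (-(u' * lam y))) →
  (∀ y, ph y = θ * Real.log (b y + e₃ * b' y + e) + (u' - u - x) * lam y + o y) →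
  ∃ (Γ : M.X → ℂ) (β : M.X → ℝ), Da M O ph β Γ ∧
    (∃ β₁ β₂ : M.X → ℝ, ContinuousOn β₁ O ∧ ContinuousOn β₂ O ∧ ∀ y, β y = β₁ y + S y * β₂ y) ∧
    ∀ y ∈ O, normSq (Γ y) * Real.exp (-ph y) =
        χ y ^ 2 * mn θ e₃ e (b y) (b' y) * Real.exp (x * lam y - o y) ∧
      β y * Real.exp (-ph y) = (χ y ^ 2 * er θ e₃ e (b y) (b' y) + S y * mn θ e₃ e (b y) (b' y)) *
        Real.exp (x * lam y - o y)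

/-- The costs. -/
def St_CST : Prop := ∀ (Y : Type) (O : Set Y) (T p G G' L : Y → ℝ) (a c i i' j : ℕ)
  (x θ e₃ e : ℝ), i < i' → i' ≤ j → 0 ≤ x → x ≤ 1 / 2 → 0 < θ → θ ≤ 1 / 4 → 0 < e₃ → e₃ ≤ 1 →
  0 < e → e ≤ 1 → (∀ y ∈ O, 0 < T y ∧ 0 < p y ∧ p y ≤ 1 ∧ 0 < G y ∧ 0 < G' y ∧ 0 < L y) →
  (∃ C, ∀ y ∈ O, G y * (T y ^ (a * 2 ^ i) * p y ^ c) ≤ C) →
  (∃ C, ∀ y ∈ O, G' y * (T y ^ (a * 2 ^ i') * p y ^ c) ≤ C) →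
  (∃ C, ∀ y ∈ O, L y * (T y ^ (a * 2 ^ j) * p y ^ c) ≤ C) → ∃ C, ∀ y ∈ O,
    θ * Real.log (G y * Real.exp (-(2 ^ i * (Real.log (L y) / 2 ^ j))) +
      e₃ * (G' y * Real.exp (-(2 ^ i' * (Real.log (L y) / 2 ^ j)))) + e) +
      (2 ^ i' - 2 ^ i - x) * (Real.log (L y) / 2 ^ j) ≤
    C - a * (2 ^ i' - 2 ^ i - x) * Real.log (T y) - (2 * c * θ + c * 2 ^ i' / 2 ^ j) * Real.log (p y)

/-- The main term exceeds the error. -/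
def St_INQ : Prop := ∀ (Y : Type) [MeasurableSpace Y] (μ : Measure Y) [IsFiniteMeasure μ]
  (B V : Set Y) (h N χ S a : Y → ℝ) (ϖ : ℕ → Y → ℝ) (K c c' A R : ℝ), 0 < c → 0 < c' →
  MeasurableSet B → MeasurableSet V → V ⊆ B →
  (∀ᵐ y ∂μ, 0 ≤ χ y ∧ χ y ≤ 1 ∧ 0 ≤ S y ∧ (y ∉ B → χ y = 0 ∧ S y = 0) ∧ (y ∈ V → χ y = 1)) →
  (∀ᵐ y ∂μ, 0 ≤ h y ∧ 1 ≤ N y ∧ 0 ≤ a y ∧ a y ≤ R ∧ ∀ i, 0 ≤ ϖ i y) →
  AEMeasurable (fun y => h y ^ 2) (μ.restrict B) →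
  ∫⁻ y in B, ENNReal.ofReal (h y ^ 2) ∂μ ≠ ⊤ → ∫⁻ y, ENNReal.ofReal (N y ^ 4) ∂μ ≠ ⊤ →
  (∀ i, ∫⁻ y, ENNReal.ofReal (ϖ i y ^ 4) ∂μ ≤ ENNReal.ofReal A) →
  ∃ r₀ > (0 : ℝ), ∀ (r m : ℝ) (κ W b : Y → ℝ), 0 < r → r ≤ r₀ → c ≤ m →
    (∀ᵐ y ∂μ, 0 ≤ W y ∧ 0 ≤ b y ∧ (y ∈ B → 0 ≤ κ y ∧
      S y * κ y ≤ r ^ 2 * R ∧ Real.exp (-K) * (h y * κ y) ≤ r ^ 2 * W y ∧
      r ^ 2 * W y ≤ Real.exp K * (h y * κ y))) → (∃ U, ∀ y ∈ B, κ y ≤ U) →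
    ENNReal.ofReal (m * c') ≤ ∫⁻ y in V, ENNReal.ofReal (a y * h y * κ y) ∂μ →
    (∃ᶠ i in atTop, AEMeasurable (fun y => b y * h y * ϖ i y * κ y) (μ.restrict B) ∧
      ∫⁻ y in B, ENNReal.ofReal (b y * h y * ϖ i y * κ y) ∂μ ≤
        ENNReal.ofReal (m * (Real.exp (-(2 * K)) * c' / 4))) →
    (∀ i, ∫⁻ y, ENNReal.ofReal (χ y ^ 2 * a y * W y * ϖ i y) ∂μ ≠ ⊤) ∧
    ∫⁻ y, ENNReal.ofReal (χ y ^ 2 * a y * W y * N y) ∂μ ≠ ⊤ ∧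
    ∃ u : ℝ≥0∞, u < ∫⁻ y, ENNReal.ofReal (χ y ^ 2 * a y * W y * N y) ∂μ ∧
      ∃ᶠ i in atTop, ∫⁻ y, ENNReal.ofReal ((χ y ^ 2 * b y + S y * a y) * W y * ϖ i y) ∂μ ≤ u

/-- The concentration. -/
def St_CON : Prop := ∀ (n : ℕ) (M : Mf n) [M.Cpt] (A : An M) (D : A.toBs.Dm A.N) (c : ℕ)
  (Q₀ : M.X → ℂ) (e κ : ℝ), A.toBs.Gn 0 c Q₀ → 0 < e → 0 < κ → A.Sg D Q₀ e κ → A.Out D Q₀ e κ

/-- The core. -/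
def St_TOP : Prop := ∀ (n : ℕ) (M : Mf n) [M.Cpt] (A : An M), A.toBs.Dom A.N → A.toBs.Val A.N →
  ∃ x, 0 < x ∧ ∃ g, A.toBs.Gn x 0 g

end Pool.Agent.Lib.KC
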