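import Pool.Agent.Lib.KH.Blue
import Pool.Agent.Lib.KB14.Key

/-! Project kc: the analytic core of the general fibre route. Objects. -/

open scoped Classical Topology ContDiff ComplexOrder Matrix ENNReal
open Set MeasureTheory Complex Metric Filter

set_option linter.unusedVariables false

noncomputable section

namespace Pool.Agent.Lib.KC

open Pool.Agent.Lib.SV (E nsq)
open Pool.Agent.Lib.HS32 Pool.Agent.Lib.KH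
open MvPolynomial (eval pderiv coeff X C)

/-- The index set of the generators of the small field. -/
abbrev Sx (k : ℕ) : Type := Option (Fin k)

/-- The free coordinates. -/
def tl {k : ℕ} (s : Sx k → ℂ) : E k := fun i => s (some i)

/-- The kernel. -/
def kk {k : ℕ} (r : ℝ) (t₀ t : E k) : ℝ := r ^ 2 / (nsq (t - t₀) + r ^ 2) ^ (k + 1)

/-- A negative power, infinite at zero. -/
def ng (a ε : ℝ) : ℝ≥0∞ := ENNReal.ofReal a ^ (-ε)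

/-- Functions with values in `(0, 1]` and a negative moment. -/
def Ua {Ω : Type} [MeasurableSpace Ω] (ν : Measure Ω) (t C : ℝ) (g : Ω → ℝ) : Prop :=
  AEMeasurable g ν ∧ (∀ᵐ y ∂ν, 0 < g y ∧ g y ≤ 1) ∧ NV6.Mo ν (fun y => g y ^ (-t)) C

variable {n : ℕ} (M : Mf n)

/-- Not identically zero on `O`. -/
def Nz (O : Set M.X) (g : M.X → ℂ) : Prop := ∃ y ∈ O, g y ≠ 0

/-- Smooth and plurisubharmonic on `O`. -/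
def Ps (O : Set M.X) (f : M.X → ℝ) : Prop :=
  SmK M O f ∧ OnK M O fun e z => (M.hs f e z).PosSemidef

/-- The theorem of Hörmander with the densities `a i` on the right and `b` on the left. -/
def HQ (H : M.Fam (Mat n)) (O : Set M.X) (a : ℕ → M.X → ℝ) (b : M.X → ℝ) : Prop :=
  ∀ (ph β : M.X → ℝ) (Γ : M.X → ℂ), AEMeasurable β ((M.mu H).restrict O) → Da M O ph β Γ →
    (∀ i, Jo M H O (fun y => normSq (Γ y) * Real.exp (-ph y) * a i y) ≠ ⊤) →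
    ∃ F, HoK M O F ∧ Jo M H O (fun y => normSq (Γ y - F y) * Real.exp (-ph y) * b y) ≤
      liminf (fun i => Jo M H O fun y => β y * Real.exp (-ph y) * a i y) atTop

/-- The map `t` is a submersion at `y`. -/
def Sub {k : ℕ} (t : M.X → E k) (y : M.X) : Prop :=
  ∃ e ∈ M.C, y ∈ e.source ∧ Function.Surjective (fderiv ℂ (t ∘ e.symm) (e y))

/-- Holomorphic on `O`, of level `x` and cost `c`. -/
def Gk (O : Set M.X) (T p : M.X → ℝ) (x c : ℕ) (g : M.X → ℂ) : Prop :=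
  HoK M O g ∧ ∃ C, ∀ y ∈ O, normSq (g y) * (T y ^ x * p y ^ c) ≤ C

/-- The base data: `T` is the norm of a multiple-valued canonical form to the power `d`. -/
structure Bs where
  H : M.Fam (Mat n)
  O : Set M.X
  p : M.X → ℝ
  T : M.X → ℝ
  d : ℕ
  kae : M.Kae H
  opn : IsOpen O
  ae : ∀ᵐ y ∂M.mu H, y ∈ O
  ne : M.mu H ≠ 0
  d0 : 0 < d
  cp : ContinuousOn p O
  pos : ∀ y ∈ O, 0 < p y ∧ p y ≤ 1 ∧ 0 < T y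
  sT : SmK M O fun y => Real.log (T y)
  hT : OnK M O fun e z => M.hs (fun y => Real.log (T y)) e z = (d : ℝ) • M.ric H e z
  cmp : ∀ x c g, Gk M O T p x c g → Nz M O g → Cmp M H (O ∩ {y | g y ≠ 0})
  neg : ∀ x c g, Gk M O T p x c g → Nz M O g → ∃ ε > (0 : ℝ),
    ∫⁻ y in O, ng (normSq (g y) * (T y ^ x * p y ^ c)) ε ∂M.mu H ≠ ⊤
  l2 : ∀ x c g, HoK M O g → Jo M H O (fun y => normSq (g y) * (T y ^ x * p y ^ c)) ≠ ⊤ →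
    Gk M O T p x c g

variable {M}

namespace Bs

variable (B : Bs M)

/-- The volume measure. -/
abbrev μ : Measure M.X := M.mu B.H

/-- Level `x`, cost `c`. -/
abbrev Gm (x c : ℕ) (g : M.X → ℂ) : Prop := Gk M B.O B.T B.p x c g

/-- Level `x`, cost `c`, not zero. -/
def Gn (x c : ℕ) (g : M.X → ℂ) : Prop := B.Gm x c g ∧ Nz M B.O g

/-- Almost integrability: the input of the construction of the fillers. -/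
def AI {k : ℕ} (z : Fin k → M.X → ℂ) (c : ℕ) : Prop := ∀ J : ℕ, ∃ j ≥ J, ∃ (a : ℕ)
  (u v : M.X → ℂ) (y₀ : M.X) (ρ C : ℝ), B.Gm 0 a u ∧ B.Gm 0 a v ∧ y₀ ∈ B.O ∧ u y₀ ≠ 0 ∧
    v y₀ ≠ 0 ∧ 0 < ρ ∧ ∀ y ∈ B.O, normSq (u y) * (B.T y ^ j * B.p y ^ c) ≤ C * normSq (v y) ∧
      (‖(z · y) - (z · y₀)‖ ≤ ρ → normSq (v y) ≤ C * normSq (u y))

/-- Domination, in the form of the block DK. -/
def Dom (N : M.X → ℝ) : Prop := ∃ δ α C : ℝ, 0 < δ ∧ 0 < α ∧ ∃ (ε : ℕ → ℝ) (ρ : ℕ → M.X → ℝ),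
  (∀ i, 0 ≤ ε i ∧ SmK M B.O (ρ i) ∧ (∀ y ∈ B.O, ρ i y ≤ C) ∧
    (OnK M B.O fun e z => (M.hs (ρ i) e z - M.ric B.H e z + ε i • B.H e z).PosSemidef) ∧
    Jo M B.H B.O (fun y => Real.exp (-(α * ρ i y))) ≤ ENNReal.ofReal C) ∧
  Tendsto ε atTop (𝓝 0) ∧ ∀ y ∈ B.O, ∀ᶠ i in atTop, ρ i y + δ * Real.log (N y) ≤ C

/-- Domination, in the form used by the test section. -/
structure Dm (N : M.X → ℝ) where
  x0 : ℝ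
  κ0 : ℝ
  A : ℝ
  ϖ : ℕ → M.X → ℝ
  x0p : 0 < x0
  κ0p : 0 < κ0
  cϖ : ∀ i, ContinuousOn (ϖ i) B.O ∧ ∀ y, 0 ≤ ϖ i y
  mom : ∀ i, Jo M B.H B.O (fun y => ϖ i y ^ 4) ≤ ENNReal.ofReal A
  mN : Jo M B.H B.O (fun y => (N y ^ κ0) ^ 4) ≠ ⊤
  hq : ∀ x c g, B.Gn x c g → HQ M B.H (B.O ∩ {y | g y ≠ 0})
    (fun i y => ϖ i y * B.T y ^ x0) fun y => N y ^ κ0 * B.T y ^ x0

/-- The removal of the last poles. -/
def Val (N : M.X → ℝ) : Prop := ∃ (c q : ℕ) (Q : M.X → ℂ) (v : ℝ), B.Gn 0 c Q ∧ 0 < v ∧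
  ∀ (x a : ℕ) (F : M.X → ℂ) (κ e : ℝ), 0 < x → B.Gn x a F → 0 < κ → v * κ ≤ e →
    Jo M B.H B.O (fun y => normSq (F y) * B.T y ^ x * B.p y ^ κ *
      (N y ^ q / normSq (Q y)) ^ e) ≠ ⊤ → ∃ g, B.Gn x 0 g

end Bs

section fib

variable {Y : Type} {k w D : ℕ}

/-- A combination of the family `m`. -/
def cb (m : Fin D → Y → ℂ) (c : Fin D → ℂ) (y : Y) : ℂ := ∑ l, c l * m l y

/-- The values of a family of polynomials. -/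
def cv (c : Fin D → MvPolynomial (Sx k) ℂ) (s : Sx k → ℂ) : Fin D → ℂ := fun l => eval s (c l)

/-- The family `m` stays independent on the general fibre, with bounds. -/
def Ani (O : Set Y) (p : Y → ℝ) (s : Sx k → Y → ℂ) (z : Fin w → Y → ℂ) (m : Fin D → Y → ℂ) :
    Prop := ∃ (d a e : ℕ) (γ : MvPolynomial (Sx k) ℂ)
  (Nm : MvPolynomial (Fin w) (MvPolynomial (Sx k ⊕ Fin D) ℂ)),
    (∃ y ∈ O, eval (s · y) γ ≠ 0) ∧ (∀ i, Nm.degreeOf i ≤ d) ∧ ∀ R : ℝ, ∃ C : ℝ,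
      ∀ y ∈ O, ∀ c : Fin D → ℂ, ‖(s · y)‖ ≤ R → ‖c‖ ≤ R →
        (∃ μ, ‖eval (s · y) γ‖ * ‖c‖ ^ e ≤ C * ‖eval (Sum.elim (s · y) c) (coeff μ Nm)‖) ∧
        ‖eval (z · y) (MvPolynomial.map (eval (Sum.elim (s · y) c)) Nm)‖ * p y ^ a ≤
          C * ‖cb m c y‖

/-- The certificates at the point `s₀`. -/
def Ct (O : Set Y) (G : (Y → ℂ) → Prop) (s : Sx k → Y → ℂ) (Ω : Y → ℂ) (m : ℕ)
    (s₀ : Sx k → ℂ) : Prop :=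
  ∃ (J N : ℕ) (H : Fin J → Y → ℂ) (d : MvPolynomial (Sx k) ℂ), (∀ j, G (H j)) ∧ eval s₀ d ≠ 0 ∧
    (∀ j, ∃ P ∈ Ideal.span (range fun i => (X i - C (s₀ i) : MvPolynomial (Sx k) ℂ)) ^ m,
      ∀ y ∈ O, eval (s · y) d * H j y = eval (s · y) P * Ω y) ∧
    ∀ i, ∃ A : Fin J → MvPolynomial (Sx k) ℂ, ∀ y ∈ O,
      eval (s · y) (d * (X i - C (s₀ i)) ^ N) * Ω y = ∑ j, eval (s · y) (A j) * H j y

end fib

/-- The ratios of cost `c` are ratios of combinations of `m`. -/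
def Bs.Rt (B : Bs M) {k D : ℕ} (s : Sx k → M.X → ℂ) (m : Fin D → M.X → ℂ) (c : ℕ) : Prop :=
  ∀ x u v, B.Gn x c u → B.Gn x c v → ∃ a b : Fin D → MvPolynomial (Sx k) ℂ,
    Nz M B.O (fun y => cb m (cv a (s · y)) y) ∧ Nz M B.O (fun y => cb m (cv b (s · y)) y) ∧
    ∀ y ∈ B.O, u y * cb m (cv b (s · y)) y = v y * cb m (cv a (s · y)) y

variable (M) in
/-- The fibration data. -/
structure An extends Bs M where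
  k : ℕ
  w : ℕ
  s : Sx k → M.X → ℂ
  z : Fin w → M.X → ℂ
  N : M.X → ℝ
  j : M.X → ℝ
  ε : ℝ
  c0 : ℕ
  l : ℕ
  m1 : MvPolynomial (Sx k) ℂ
  hs : ∀ i, toBs.Gm 0 1 (s i)
  hz : ∀ i, toBs.Gm 0 1 (z i)
  cN : ContinuousOn N O
  hN : ∀ y ∈ O, 1 + nsq (s · y) ≤ N y
  hm : ∀ y ∈ O, eval (s · y) m1 = 0
  dm : ∃ y ∈ O, eval (s · y) (pderiv none m1) ≠ 0
  sub : ∀ᵐ y ∂M.mu H, Sub M (fun x => tl (s · x)) y
  cj : ContinuousOn j O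
  jp : ∀ y ∈ O, 0 ≤ j y ∧ j y ≤ p y
  ε0 : 0 < ε
  ij : ∫⁻ y in O, ng (j y) ε ∂M.mu H ≠ ⊤
  push : ∃ C : ℝ≥0∞, C ≠ ⊤ ∧ ∀ G : E k × E w → ℝ≥0∞, Measurable G →
    ∫⁻ y in O, G (tl (s · y), (z · y)) * ENNReal.ofReal (j y) ∂M.mu H ≤ C * ∫⁻ q, G q
  gen : ∀ x, ∃ g, toBs.Gn x c0 g
  deg : ∀ c, ∃ (D a : ℕ) (m : Fin D → M.X → ℂ), (∀ i, toBs.Gm 0 a (m i)) ∧ Ani O p s z m ∧
    toBs.Rt s m c
  cut : ∀ m : ℕ, ∃ (Q : ℕ) (Ω : M.X → ℂ), toBs.Gn Q l Ω ∧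
    ∀ᵐ y ∂M.mu H, Ct O (toBs.Gm Q l) s Ω m (s · y)

namespace An

variable (A : An M)

/-- The box of radius `ρ` around the fibre of `y₀`. -/
def bx (y₀ : M.X) (ρ : ℝ) : Set M.X := A.O ∩ {y | ‖(A.s · y) - (A.s · y₀)‖ ≤ ρ}

/-- The concentrating measures. -/
def kr (y₀ : M.X) (ρ r : ℝ) : Measure M.X := ((M.mu A.H).restrict (A.bx y₀ ρ)).withDensity
  fun y => ENNReal.ofReal (kk r (tl (A.s · y₀)) (tl (A.s · y)))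

/-- The normalised measures. -/
def nu (y₀ : M.X) (ρ r : ℝ) : Measure M.X := (A.kr y₀ ρ r univ)⁻¹ • A.kr y₀ ρ r

/-- The normalised squared norm of a combination. -/
def Pn {D : ℕ} (m : Fin D → M.X → ℂ) (a : ℕ) (c : (Sx A.k → ℂ) → Fin D → ℂ) (y : M.X) : ℝ :=
  normSq (cb m (c (A.s · y)) y) * A.p y ^ a

/-- A continuous choice of coefficients of norm one at the base point. -/
def Un {D : ℕ} (y₀ : M.X) (c : (Sx A.k → ℂ) → Fin D → ℂ) : Prop :=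
  Continuous c ∧ ‖c (A.s · y₀)‖ = 1

/-- The free coordinates control the last one near the base point. -/
def Lp (y₀ : M.X) : Prop := ∃ ρ > (0 : ℝ), ∃ (L : ℝ) (Θ : E A.k → ℂ), 0 < L ∧ Continuous Θ ∧
  ∀ y ∈ A.bx y₀ ρ, A.s none y = Θ (tl (A.s · y)) ∧
    ‖(A.s · y) - (A.s · y₀)‖ ≤ L * ‖tl (A.s · y) - tl (A.s · y₀)‖

/-- Uniform negative moments of the combinations near the fibre of `y₀`. -/
def Mm {D : ℕ} (m : Fin D → M.X → ℂ) (a : ℕ) (α : ℝ) (y₀ : M.X) : Prop :=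
  ∃ ρ > (0 : ℝ), ∃ C : ℝ≥0∞, C ≠ ⊤ ∧ ∀ (c : (Sx A.k → ℂ) → Fin D → ℂ) (ρ' : ℝ)
    (κ : E A.k → ℝ≥0∞), Continuous c → Measurable κ → ρ' ≤ ρ →
    (∀ y ∈ A.bx y₀ ρ', 1 / 2 ≤ ‖c (A.s · y)‖ ∧ ‖c (A.s · y)‖ ≤ 2) →
    ∫⁻ y in A.bx y₀ ρ', ng (A.Pn m a c y) α * κ (tl (A.s · y)) ∂M.mu A.H ≤
      C * ((∫⁻ t, κ t) + ∫⁻ y in A.O, ng (A.j y) A.ε * κ (tl (A.s · y)) ∂M.mu A.H)

/-- The measures concentrate with bounded moments of `f` and of the weights. -/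
def Pk (f : M.X → ℝ≥0∞) (ϖ : ℕ → M.X → ℝ) (y₀ : M.X) : Prop :=
  ∀ V ∈ 𝓝 y₀, ∃ C c : ℝ, 0 < c ∧ ∀ ρ > (0 : ℝ), ∀ r₀ > (0 : ℝ), ∃ r, 0 < r ∧ r ≤ r₀ ∧
    ENNReal.ofReal c ≤ A.kr y₀ ρ r (V ∩ A.bx y₀ (ρ / 2)) ∧
    ∫⁻ y in A.O, (1 + f y) * ENNReal.ofReal (kk r (tl (A.s · y₀)) (tl (A.s · y))) ∂M.mu A.H ≤
      ENNReal.ofReal C ∧
    ∃ᶠ i in atTop, ∫⁻ y, ENNReal.ofReal (ϖ i y ^ 4) ∂A.kr y₀ ρ r ≤ ENNReal.ofReal C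

/-- The patched weights with poles along the fibre of `y₀`. -/
def Pw (Ω : M.X → ℂ) (Q : ℕ) (θ : ℝ) (y₀ : M.X) : Prop := ∃ ρ > (0 : ℝ), ∃ K : ℝ,
  ∀ r ∈ Ioc (0 : ℝ) 1, ∃ Ψ, Ps M (A.O ∩ {y | Ω y ≠ 0}) Ψ ∧
    (∃ C, ∀ y ∈ A.O, Ω y ≠ 0 →
      Ψ y ≤ C - θ * (Q * Real.log (A.T y) + A.l * Real.log (A.p y))) ∧
    ∀ y ∈ A.bx y₀ ρ, Ω y ≠ 0 → |Ψ y - θ * Real.log (normSq (Ω y)) -
      (A.k + 1) * Real.log (nsq (tl (A.s · y) - tl (A.s · y₀)) + r ^ 2)| ≤ K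

/-- The density at the bottom of the tower. -/
def ph (x0 x θ e e₁ : ℝ) (g Ω Q : M.X → ℂ) (y : M.X) : ℝ :=
  normSq (g y) ^ x * A.T y ^ x0 * normSq (Ω y) ^ (-θ) * normSq (Q y) ^ (-e) *
    (1 + nsq (A.s · y)) ^ (-e₁)

/-- The stage: all the data at a general point. -/
structure Sg (D : A.toBs.Dm A.N) (Q₀ : M.X → ℂ) (e κ : ℝ) where
  y₀ : M.X
  a : ℕ
  Q : ℕ
  θ : ℝ
  x : ℝ
  t : ℝ
  Ω : M.X → ℂ
  g : ℕ → M.X → ℂ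
  P : ℕ → M.X → ℝ
  P' : ℕ → M.X → ℝ
  a0 : 0 < a
  θ0 : 0 < θ
  θl : θ * A.l ≤ κ / 3
  t0 : 0 < t
  x0 : 0 ≤ x
  x1 : x ≤ 1 / 2
  xt : 4 * x ≤ t
  lev : x * a = D.x0 + θ * Q
  hΩ : A.toBs.Gn Q A.l Ω
  hg : ∀ b, A.toBs.Gn (a * 2 ^ b) A.c0 (g b)
  rel : ∀ b, ∀ y ∈ A.O, normSq (g b y) ^ 2 * P' b y = normSq (g (b + 1) y) * P b y
  lp : A.Lp y₀
  pw : A.Pw Ω Q θ y₀
  pk : ∃ C c : ℝ, 0 < c ∧ ∀ δ > (0 : ℝ), ∀ L : ℕ, ∃ i i', i < i' ∧ ∀ j, ∃ ρ₁ > (0 : ℝ),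
    ∀ ρ ∈ Ioc 0 ρ₁, ∀ r₀ > (0 : ℝ), ∃ r, 0 < r ∧ r ≤ r₀ ∧
      ENNReal.ofReal c ≤ A.kr y₀ ρ r univ ∧ A.kr y₀ ρ r univ ≠ ⊤ ∧
      (∀ b < j, Ua (A.nu y₀ ρ r) t C (P b) ∧ Ua (A.nu y₀ ρ r) t C (P' b)) ∧
      (∀ b < L, ∀ y ∈ A.bx y₀ ρ, |P (i + b) y - P (i' + b) y| ≤ δ ∧
        |P' (i + b) y - P' (i' + b) y| ≤ δ) ∧
      NV6.Mo (A.nu y₀ ρ r) (fun y => A.ph D.x0 x θ e (D.κ0 / 2) (g 0) Ω Q₀ y ^ 4) C ∧
      (∃ᶠ i in atTop, NV6.Mo (A.nu y₀ ρ r) (fun y => D.ϖ i y ^ 4) C) ∧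
      c ≤ (A.nu y₀ ρ r).real
        (A.bx y₀ (ρ / 2) ∩ {y | c ≤ A.ph D.x0 x θ e (D.κ0 / 2) (g 0) Ω Q₀ y})

/-- The output of the concentration. -/
def Out (D : A.toBs.Dm A.N) (Q₀ : M.X → ℂ) (e κ : ℝ) : Prop := ∃ (x y c : ℕ) (g F : M.X → ℂ),
  0 < x ∧ A.toBs.Gn y c g ∧ HoK M (A.O ∩ {y | g y ≠ 0}) F ∧ Nz M (A.O ∩ {y | g y ≠ 0}) F ∧
    Jo M A.H (A.O ∩ {y | g y ≠ 0}) (fun y => normSq (F y) * A.T y ^ x * A.p y ^ κ *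
      (A.N y ^ (D.κ0 / 2) * normSq (Q₀ y) ^ (-e))) ≠ ⊤

end An

end Pool.Agent.Lib.KC
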