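import Pool.Agent.Lib.KC.B_CUA

/-! Project kc: the equation of the base read on functions. -/

open scoped Classical Topology ENNReal
open Set MeasureTheory Filter

noncomputable section

namespace Pool.Agent.Lib.KC

open Pool.Agent.Lib.HS32 Pool.Agent.Lib.KH
open MvPolynomial (eval aeval pderiv coeff X C optionEquivLeft)

namespace EQA

variable {σ : Type}

theorem der (q : MvPolynomial (Option σ) ℂ) :
    optionEquivLeft ℂ σ (pderiv none q) = (optionEquivLeft ℂ σ q).derivative := by
  induction q using MvPolynomial.induction_on with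
  | C a => simp
  | add p q hp hq => rw [map_add, map_add, map_add, map_add, hp, hq]
  | mul_X p i hp =>
    rw [Derivation.leibniz, map_add, smul_eq_mul, smul_eq_mul, map_mul, map_mul, map_mul, hp,
      Polynomial.derivative_mul]
    cases i <;> simp <;> ring

theorem ev {L : Type} [CommRing L] [Algebra ℂ L] (s : Option σ → L)
    (q : MvPolynomial (Option σ) ℂ) : aeval s q = (optionEquivLeft ℂ σ q).eval₂
      (aeval (fun i => s (some i)) : MvPolynomial σ ℂ →ₐ[ℂ] L).toRingHom (s none) := by
  induction q using MvPolynomial.induction_on with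
  | C a => simp
  | add p q hp hq => rw [map_add, map_add, Polynomial.eval₂_add, hp, hq]
  | mul_X p i hp =>
    rw [map_mul, map_mul, Polynomial.eval₂_mul, hp]
    cases i <;> simp

end EQA

theorem cEQA : St_EQA := by
  intro n M _ B F _ _ Φ K k s t θ P h h1 h2
  have key : ∀ q : MvPolynomial (Sx k) ℂ, aeval s q = 0 ↔ P ∣ optionEquivLeft ℂ (Fin k) q :=
    fun q => by
      have e : ((aeval (fun o : Sx k => o.elim θ t) q : K) : F) = ((aeval s q : Φ.R) : F) := by
        rw [CUA.coe_aeval]
        refine (MvPolynomial.comp_aeval_apply _ K.val q).trans ?_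
        refine congrArg (fun u => aeval u q) (funext fun o => ?_)
        cases o with
        | none => exact h1
        | some i => exact h2 i
      rw [← h.ker, ← ZeroMemClass.coe_eq_zero, ← e, ZeroMemClass.coe_eq_zero, EQA.ev]
      rfl
  refine ⟨?_, (optionEquivLeft ℂ (Fin k)).symm P, fun y => ?_, ?_⟩
  · rw [← IntermediateField.lift_top ℂ K, ← h.gen, IntermediateField.lift_adjoin]
    refine congrArg _ (Set.ext fun x => ⟨?_, ?_⟩)
    · rintro ⟨_ | i, rfl⟩
      · exact ⟨θ, Or.inl rfl, h1⟩
      · exact ⟨t i, Or.inr ⟨i, rfl⟩, h2 i⟩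
    · rintro ⟨_, rfl | ⟨i, rfl⟩, rfl⟩
      · exact ⟨none, h1.symm⟩
      · exact ⟨some i, (h2 i).symm⟩
  · rw [← CUA.fn_aeval, (key _).2 (by rw [AlgEquiv.apply_symm_apply]), map_zero, Pi.zero_apply]
  · obtain ⟨y, y1, y2⟩ := CUA.nz Φ (f := aeval s (pderiv none ((optionEquivLeft ℂ (Fin k)).symm P)))
      fun h0 => h.sep (by
        have := (key _).1 h0
        rwa [EQA.der, AlgEquiv.apply_symm_apply] at this)
    exact ⟨y, y1, by rwa [CUA.fn_aeval] at y2⟩

end Pool.Agent.Lib.KC
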