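import Pool.Agent.Lib.KC.Blue

/-! Project kc, row FIN: the estimate on a probability space. -/

open scoped Classical Topology ENNReal
open Set MeasureTheory Filter

noncomputable section

namespace Pool.Agent.Lib.KC

open Pool.Agent.Lib.KB14
open Pool.Agent.Lib.NV6 (Mo)

namespace FIN

variable {Ω : Type} [MeasurableSpace Ω] {ν : Measure Ω} {t C : ℝ}

/-- A measurable version. -/
def ms (ν : Measure Ω) (g : Ω → ℝ) : Ω → ℝ := if h : AEMeasurable g ν then h.mk g else 0

theorem cgr {f g : Ω → ℝ} (h : Mo ν f C) (e : f =ᵐ[ν] g) : Mo ν g C :=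
  ⟨h.1.congr e, (integral_congr_ae e).ge.trans h.2⟩

theorem um {g : Ω → ℝ} (h : Ua ν t C g) : Um ν t C (ms ν g) ∧ ms ν g =ᵐ[ν] g := by
  rw [ms, dif_pos h.1]
  have e := h.1.ae_eq_mk
  exact ⟨⟨h.1.measurable_mk, (h.2.1.and e).mono fun y k => k.2 ▸ k.1,
    cgr h.2.2 (e.mono fun y k => congrArg (· ^ (-t)) k)⟩, e.symm⟩

theorem bea {P P' : ℕ → Ω → ℝ} {n : ℕ} (h : ∀ a < n, Ua ν t C (P a) ∧ Ua ν t C (P' a)) :
    be (fun a => ms ν (P a)) (fun a => ms ν (P' a)) n =ᵐ[ν] be P P' n := by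
  filter_upwards [(ae_ball_iff (Finset.range n).countable_toSet).2 fun a ha =>
    (um (h a (Finset.mem_range.1 ha)).1).2.and (um (h a (Finset.mem_range.1 ha)).2).2] with p hp
  exact Finset.sum_congr rfl fun a ha => by simp only [(hp a ha).1, (hp a ha).2]

theorem moa [IsProbabilityMeasure ν] {x : ℝ} (t0 : 0 < t) (x0 : 0 ≤ x) (xt : x ≤ t)
    {P P' : ℕ → Ω → ℝ} {n : ℕ} (h : ∀ a < n, Ua ν t C (P a) ∧ Ua ν t C (P' a)) :
    Mo ν (fun p => Real.exp (x * be P P' n p)) (max C 1) ∧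
      Mo ν (fun p => Real.exp (-(x * be P P' n p))) (max C 1) :=
  let k := mom t0 x0 xt fun a ha => And.intro (um (h a ha).1).1 (um (h a ha).2).1
  ⟨cgr k.1 ((bea h).mono fun _ e => by simp only [e]),
    cgr k.2 ((bea h).mono fun _ e => by simp only [e])⟩

theorem yng {s : ℝ} (s0 : 0 < s) (a b c d : ℝ) :
    a * (b * c) * d ≤ a ^ 4 * (s ^ 12)⁻¹ + s ^ 4 * (b ^ 4 + c ^ 4 + d ^ 4) := by
  have k (a b c d : ℝ) : a * b * (c * d) ≤ a ^ 4 + b ^ 4 + c ^ 4 + d ^ 4 := by
    nlinarith [sq_nonneg (a ^ 2 - b ^ 2), sq_nonneg (c ^ 2 - d ^ 2), sq_nonneg (a * b - c * d),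
      sq_nonneg (a ^ 2), sq_nonneg (b ^ 2), sq_nonneg (c ^ 2), sq_nonneg (d ^ 2)]
  refine le_of_eq_of_le ?_ ((k (a / s ^ 3) (s * b) (s * c) (s * d)).trans_eq ?_) <;> field_simp
  ring

end FIN

open FIN in
theorem cFIN : St_FIN := by
  intro t C c x t0 c0 x0 xt
  obtain ⟨c₁, h0, hk⟩ := keyp (C := max C 1) t0 c0
  refine ⟨c₁ * c, mul_pos h0 c0, fun θ₀ g0 η η0 => ?_⟩
  obtain ⟨s, s0, -, hs⟩ := Key.small (f := fun s => s ^ 4 * (max C 1 + C + C))
    (Tendsto.mono_left (Continuous.tendsto' (by fun_prop) _ _ (by simp)) nhdsWithin_le_nhds)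
    (half_pos η0) one_pos
  have θ0 : 0 < min θ₀ (min 1 (t / 16)) := by positivity
  obtain ⟨e₃, e, δ, f0, f1, e0, e1, δ0, hk⟩ := hk _ (η / 2 * s ^ 12) θ0
    ((min_le_right _ _).trans (min_le_left _ _)) ((min_le_right _ _).trans (min_le_right _ _))
    (by positivity)
  obtain ⟨L, δ', d0, hL⟩ := twr (C := C) t0 δ0
  refine ⟨_, e₃, e, δ', L, θ0, min_le_left _ _, f0, f1, e0, e1, d0,
    fun Ω _ ν _ P P' φ V i i' j ii ij hP hc φ0 φm φ4 hV => ?_⟩
  have u1 := fun a (ha : a < j - i) => hP (i + a) (by omega)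
  have u2 := fun a (ha : a < j - i') => hP (i' + a) (by omega)
  have m1 := moa t0 t0.le le_rfl u1
  have m2 := moa t0 x0 (by linarith) hP
  have m3 : Mo ν (fun y => Real.exp (-(x * be P P' j y)) ^ 4) (max C 1) :=
    cgr (moa t0 (by positivity) xt hP).2 (ae_of_all _ fun y => by
      beta_reduce
      rw [← Real.exp_nat_mul]
      exact congrArg _ (by push_cast; ring))
  have m4 := hL Ω ν _ _ _ _ (j - i) (j - i') (by omega) (by omega)
    (fun a ha => ⟨(um (u1 a ha).1).1, (um (u1 a ha).2).1⟩)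
    (fun a ha => ⟨(um (u2 a ha).1).1, (um (u2 a ha).2).1⟩) fun a ha => by
      filter_upwards [hc a ha, (um (u1 a (by omega)).1).2, (um (u1 a (by omega)).2).2,
        (um (u2 a (by omega)).1).2, (um (u2 a (by omega)).2).2] with y k a1 a2 a3 a4
      rwa [a1, a2, a3, a4]
  obtain ⟨k1, k2⟩ := hk Ω ν
    (fun y => Real.exp (be (fun a => P (i + a)) (fun a => P' (i + a)) (j - i) y))
    (fun y => Real.exp (be (fun a => P (i' + a)) (fun a => P' (i' + a)) (j - i') y))
    (fun y => Real.exp (-(x * be P P' j y))) _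
    (ae_of_all _ fun y => ⟨Real.exp_pos _, Real.exp_pos _, Real.exp_pos _⟩)
    (cgr m1.1 (ae_of_all _ fun y => by simp only [← Real.exp_mul, mul_comm]))
    (cgr m1.2 (ae_of_all _ fun y => by
      beta_reduce
      rw [← Real.exp_mul, mul_neg, mul_comm]))
    (cgr m2.1 (ae_of_all _ fun y => by simp only [Real.exp_neg, inv_inv]))
    (cgr m4 (((bea u1).and (bea u2)).mono fun y k => by simp only [k.1, k.2, Real.log_exp])) hV
  refine ⟨m3, ?_, fun ϖ _ _ ϖ4 => ?_⟩
  · rw [ENNReal.ofReal_mul h0.le]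
    refine (mul_le_mul_left k1 _).trans ((lintegral_mul_const' _ _ ENNReal.ofReal_ne_top).ge.trans
      ((lintegral_mono_ae ?_).trans (lintegral_mono_set inter_subset_left)))
    filter_upwards [ae_mono (Measure.restrict_mono inter_subset_right le_rfl) (ae_restrict_mem₀
      (nullMeasurableSet_le (aemeasurable_const (b := c)) φm))] with y hy
    rw [← ENNReal.ofReal_mul' c0.le, mul_assoc]
    refine ENNReal.ofReal_le_ofReal (mul_le_mul_of_nonneg_left
      (mul_le_mul_of_nonneg_left hy (Real.exp_pos _).le) ?_)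
    unfold mn
    positivity
  · have i1 := ((m3.1.add φ4.1).add ϖ4.1).const_mul (s ^ 4)
    refine (lintegral_mono fun y => (ENNReal.ofReal_le_ofReal (yng s0 _ _ _ _)).trans
      ENNReal.ofReal_add_le).trans ((lintegral_add_right' _
        i1.aestronglyMeasurable.aemeasurable.ennreal_ofReal).le.trans ?_)
    rw [← add_halves η, ENNReal.ofReal_add (half_pos η0).le (half_pos η0).le]
    refine add_le_add ?_ ((ofReal_integral_eq_lintegral_ofReal i1 (ae_of_all _ fun y => ?_)).ge.trans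
      (ENNReal.ofReal_le_ofReal (le_trans ?_ hs)))
    · simp only [ENNReal.ofReal_mul' (show 0 ≤ (s ^ 12)⁻¹ by positivity)]
      rw [lintegral_mul_const' _ _ ENNReal.ofReal_ne_top]
      refine (mul_le_mul_left k2 _).trans_eq ?_
      rw [← ENNReal.ofReal_mul (by positivity), mul_inv_cancel_right₀ (by positivity)]
    · simp only [Pi.add_apply, Pi.zero_apply]
      positivity
    · rw [integral_const_mul, integral_add' (m3.1.add φ4.1) ϖ4.1, integral_add' m3.1 φ4.1]
      exact mul_le_mul_of_nonneg_left (add_le_add (add_le_add m3.2 φ4.2) ϖ4.2) (by positivity)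

end Pool.Agent.Lib.KC
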