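import Pool.Agent.Lib.KC.Blue
import Pool.Agent.Lib.KH.B_KIT

/-! Project kc: the spaces of given level and cost. -/

open scoped Classical Topology ENNReal
open Set MeasureTheory Complex Filter

set_option linter.unusedSectionVars false

noncomputable section

namespace Pool.Agent.Lib.KC

open Pool.Agent.Lib.HS32 Pool.Agent.Lib.KH
open MvPolynomial (eval)

namespace GMK

variable {n : ℕ} {M : Mf n} [M.Cpt] {B : Bs M} {x c x' c' : ℕ} {g g' : M.X → ℂ}

theorem w0 (x c : ℕ) {y : M.X} (hy : y ∈ B.O) : 0 < B.T y ^ x * B.p y ^ c :=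
  mul_pos (pow_pos (B.pos y hy).2.2 _) (pow_pos (B.pos y hy).1 _)

theorem cst (a : ℂ) : B.Gm 0 0 fun _ => a :=
  ⟨fun _ _ _ _ _ => Eventually.of_forall fun _ => differentiableAt_const a, normSq a, by simp⟩

theorem mono (h : c ≤ c') (hu : B.Gm x c g) : B.Gm x c' g := by
  obtain ⟨h1, C, h2⟩ := hu
  refine ⟨h1, C, fun y hy => le_trans ?_ (h2 y hy)⟩
  obtain ⟨p0, p1, t0⟩ := B.pos y hy
  exact mul_le_mul_of_nonneg_left (mul_le_mul_of_nonneg_left (pow_le_pow_of_le_one p0.le p1 h)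
    (pow_nonneg t0.le _)) (normSq_nonneg _)

theorem add (hu : B.Gm x c g) (hv : B.Gm x c g') : B.Gm x c fun y => g y + g' y := by
  obtain ⟨h1, C, h2⟩ := hu
  obtain ⟨h3, C', h4⟩ := hv
  refine ⟨fun e he z hz ho => ((h1 e he z hz ho).and (h3 e he z hz ho)).mono fun w k =>
    k.1.add k.2, 2 * C + 2 * C', fun y hy => ?_⟩
  have a : normSq (g y + g' y) ≤ 2 * normSq (g y) + 2 * normSq (g' y) := by
    have := normSq_nonneg (g y - g' y)
    rw [normSq_sub] at this
    rw [normSq_add]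
    linarith
  have := mul_le_mul_of_nonneg_right a (w0 x c hy).le
  linarith [h2 y hy, h4 y hy]

theorem mul (hu : B.Gm x c g) (hv : B.Gm x' c' g') :
    B.Gm (x + x') (c + c') fun y => g y * g' y := by
  obtain ⟨h1, C, h2⟩ := hu
  obtain ⟨h3, C', h4⟩ := hv
  refine ⟨fun e he z hz ho => ((h1 e he z hz ho).and (h3 e he z hz ho)).mono fun w k =>
    k.1.mul k.2, C * C', fun y hy => ?_⟩
  have a : ∀ (g : M.X → ℂ) (x c : ℕ), 0 ≤ normSq (g y) * (B.T y ^ x * B.p y ^ c) := fun g x c =>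
    mul_nonneg (normSq_nonneg _) (w0 x c hy).le
  refine le_trans (le_of_eq ?_)
    (mul_le_mul (h2 y hy) (h4 y hy) (a g' x' c') ((a g x c).trans (h2 y hy)))
  rw [map_mul]
  ring

theorem cgr (hu : B.Gm x c g) (h : ∀ y ∈ B.O, g' y = g y) : B.Gm x c g' := by
  obtain ⟨h1, C, h2⟩ := hu
  refine ⟨fun e he z hz ho => ?_, C, fun y hy => h y hy ▸ h2 y hy⟩
  have k : ∀ᶠ w in 𝓝 z, e.symm w ∈ B.O := (e.continuousAt_symm hz).eventually (B.opn.mem_nhds ho)
  filter_upwards [h1 e he z hz ho, k.eventually_nhds] with w a b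
  exact a.congr_of_eventuallyEq (b.mono fun t ht => h _ ht)

theorem zero (x c : ℕ) : B.Gm x c fun _ => 0 :=
  ⟨fun _ _ _ _ _ => Eventually.of_forall fun _ => differentiableAt_const (0 : ℂ), 0, by simp⟩

theorem sum {ι : Type} (S : Finset ι) {u : ι → M.X → ℂ} (h : ∀ i ∈ S, B.Gm x c (u i)) :
    B.Gm x c fun y => ∑ i ∈ S, u i y := by
  induction S using Finset.induction_on with
  | empty => exact zero x c
  | insert i S hi ih =>
    simp only [Finset.sum_insert hi]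
    exact add (h i (Finset.mem_insert_self _ _)) (ih fun j hj => h j (Finset.mem_insert_of_mem hj))

theorem pow (hu : B.Gm 0 1 g) (a : ℕ) : B.Gm 0 a fun y => g y ^ a := by
  induction a with
  | zero => exact cgr (cst 1) fun _ _ => pow_zero _
  | succ a ih => exact cgr (mul ih hu) fun _ _ => pow_succ _ _

theorem mon {τ : Type} {u : τ → M.X → ℂ} (hu : ∀ i, B.Gm 0 1 (u i)) (a : τ → ℕ)
    (S : Finset τ) : B.Gm 0 (∑ i ∈ S, a i) fun y => ∏ i ∈ S, u i y ^ a i := by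
  induction S using Finset.induction_on with
  | empty => exact cst 1
  | insert i S hi ih =>
    simp only [Finset.sum_insert hi, Finset.prod_insert hi]
    exact mul (pow (hu i) _) ih

theorem pol {τ : Type} {s : τ → M.X → ℂ} (P : MvPolynomial τ ℂ) (hs : ∀ i, B.Gm 0 1 (s i)) :
    B.Gm 0 P.totalDegree fun y => eval (s · y) P := by
  simp only [MvPolynomial.eval_eq]
  refine sum _ fun d hd => mono ?_ (mul (cst (P.coeff d)) (mon hs d d.support))
  rw [zero_add]
  exact MvPolynomial.le_totalDegree hd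

theorem cnt (h : B.Gm x c g) : ContinuousOn g B.O :=
  ((bKIT n M B.H B.O B.kae.toMet B.opn).1 ℂ g
    ((bKIT n M B.H B.O B.kae.toMet B.opn).2.1 g h.1)).1

theorem cT (B : Bs M) : ContinuousOn B.T B.O :=
  (((bKIT n M B.H B.O B.kae.toMet B.opn).1 ℝ _ B.sT).1.rexp).congr fun y hy =>
    (Real.exp_log (B.pos y hy).2.2).symm

theorem aez (h : B.Gn x c g) : ∀ᵐ y ∂M.mu B.H, y ∈ B.O ∧ g y ≠ 0 := by
  obtain ⟨ε, e0, he⟩ := B.neg x c g h.1 h.2
  have m : AEMeasurable (fun y => normSq (g y) * (B.T y ^ x * B.p y ^ c))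
      ((M.mu B.H).restrict B.O) :=
    ((continuous_normSq.comp_continuousOn (cnt h.1)).mul (((cT B).pow x).mul
      (B.cp.pow c))).aemeasurable B.opn.measurableSet
  have := ae_lt_top' (m.ennreal_ofReal.pow_const (-ε)) he
  rw [ae_restrict_iff' B.opn.measurableSet] at this
  filter_upwards [B.ae, this] with y h1 h2
  refine ⟨h1, fun h0 => (h2 h1).ne ?_⟩
  rw [h0, map_zero, zero_mul, ENNReal.ofReal_zero, ENNReal.zero_rpow_of_neg (neg_neg_of_pos e0)]

theorem nz (h : ∀ᵐ y ∂M.mu B.H, y ∈ B.O → g y ≠ 0) : Nz M B.O g := by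
  haveI := ae_neBot.2 B.ne
  obtain ⟨y, h1, h2⟩ := (B.ae.and h).exists
  exact ⟨y, h1, h2 h1⟩

theorem one : B.Gn 0 0 fun _ => 1 := ⟨cst 1, nz (Eventually.of_forall fun _ _ => one_ne_zero)⟩

theorem nmul (hu : B.Gn x c g) (hv : B.Gn x' c' g') :
    B.Gn (x + x') (c + c') fun y => g y * g' y :=
  ⟨mul hu.1 hv.1, nz (((aez hu).and (aez hv)).mono fun _ h _ => mul_ne_zero h.1.2 h.2.2)⟩

theorem lip {D a : ℕ} {m : Fin D → M.X → ℂ} (h : ∀ i, B.Gm 0 a (m i)) : ∃ C > (0 : ℝ), ∀ y ∈ B.O,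
    ∀ c c' : Fin D → ℂ, ‖c‖ ≤ 2 → ‖c'‖ ≤ 2 → normSq (cb m c y) * B.p y ^ a ≤ C ∧
      |normSq (cb m c y) * B.p y ^ a - normSq (cb m c' y) * B.p y ^ a| ≤ C * ‖c - c'‖ := by
  choose C hC using fun i => (h i).2
  obtain ⟨K, hK⟩ : ∃ K, K = ∑ i, √(C i) := ⟨_, rfl⟩
  have K0 : 0 ≤ K := hK ▸ Finset.sum_nonneg fun _ _ => Real.sqrt_nonneg _
  refine ⟨4 * K ^ 2 + 1, by positivity, fun y hy c c' h1 h2 => ?_⟩
  have q0 : 0 ≤ B.p y ^ a := (pow_pos (B.pos y hy).1 _).le
  have e : ∀ u : ℂ, normSq u * B.p y ^ a = (‖u‖ * √(B.p y ^ a)) ^ 2 := fun u => by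
    rw [mul_pow, Real.sq_sqrt q0, Complex.normSq_eq_norm_sq]
  have b : ∀ c : Fin D → ℂ, ‖cb m c y‖ * √(B.p y ^ a) ≤ ‖c‖ * K := fun c => by
    rw [hK, Finset.mul_sum]
    refine (mul_le_mul_of_nonneg_right (norm_sum_le _ _) (Real.sqrt_nonneg _)).trans ?_
    rw [Finset.sum_mul]
    refine Finset.sum_le_sum fun i _ => ?_
    rw [norm_mul, mul_assoc]
    refine mul_le_mul (norm_le_pi_norm c i) (Real.le_sqrt_of_sq_le ?_) (by positivity)
      (norm_nonneg _)
    have := hC i y hy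
    rwa [pow_zero, one_mul, e] at this
  have s : cb m c y - cb m c' y = cb m (c - c') y := by
    simp only [cb, Pi.sub_apply, sub_mul, Finset.sum_sub_distrib]
  have u0 : ∀ u : ℂ, 0 ≤ ‖u‖ * √(B.p y ^ a) := fun u => by positivity
  have b1 := (b c).trans (mul_le_mul_of_nonneg_right h1 K0)
  have b2 := (b c').trans (mul_le_mul_of_nonneg_right h2 K0)
  have b3 : |‖cb m c y‖ * √(B.p y ^ a) - ‖cb m c' y‖ * √(B.p y ^ a)| ≤ ‖c - c'‖ * K := by
    rw [← sub_mul, abs_mul, abs_of_nonneg (Real.sqrt_nonneg _)]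
    refine le_trans (mul_le_mul_of_nonneg_right (abs_norm_sub_norm_le _ _) (Real.sqrt_nonneg _)) ?_
    rw [s]
    exact b _
  rw [e, e]
  refine ⟨(pow_le_pow_left₀ (u0 _) b1 2).trans (by nlinarith), ?_⟩
  rw [sq_sub_sq, abs_mul, abs_of_nonneg (add_nonneg (u0 _) (u0 _))]
  refine (mul_le_mul (add_le_add b1 b2) b3 (abs_nonneg _) (by positivity)).trans ?_
  nlinarith [norm_nonneg (c - c')]

end GMK

theorem cGMK : St_GMK := fun n M _ B =>
  { cst := GMK.cst
    mono := GMK.mono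
    add := GMK.add
    mul := GMK.mul
    cgr := GMK.cgr
    pol := GMK.pol
    cmb := fun {k D a s m} c hs hm => ⟨∑ l, (c l).totalDegree + a, GMK.sum _ fun l _ =>
      GMK.mono (Nat.add_le_add_right (Finset.single_le_sum (f := fun l => (c l).totalDegree)
        (fun _ _ => Nat.zero_le _) (Finset.mem_univ l)) a) (GMK.mul (GMK.pol (c l) hs) (hm l))⟩
    lip := GMK.lip
    cnt := GMK.cnt
    cT := GMK.cT B
    aez := GMK.aez
    nz := GMK.nz
    one := GMK.one
    nmul := GMK.nmul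
    prod := fun {ι} S g h => by
      induction S using Finset.induction_on with
      | empty => exact ⟨0, 0, GMK.one⟩
      | insert i S hi ih =>
        obtain ⟨x, c, a⟩ := h i (Finset.mem_insert_self _ _)
        obtain ⟨x', c', b⟩ := ih fun j hj => h j (Finset.mem_insert_of_mem hj)
        simp only [Finset.prod_insert hi]
        exact ⟨_, _, GMK.nmul a b⟩
    opn := fun h => (GMK.cnt h).isOpen_inter_preimage B.opn isOpen_ne
    fin := (mMU n M B.H B.kae.toMet).2.1 }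

end Pool.Agent.Lib.KC
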