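import Pool.Agent.Lib.KC.Blue

/-! Project kc, row INQ: the main term exceeds the error. -/

open scoped ENNReal
open Set MeasureTheory Filter

noncomputable section

namespace Pool.Agent.Lib.KC

namespace INQ

variable {Y : Type} [MeasurableSpace Y] {μ : Measure Y} {B : Set Y} {h f g g' : Y → ℝ}

theorem dom (hB : MeasurableSet B) (H : ∀ᵐ y ∂μ, (y ∉ B → g y = 0) ∧ (y ∈ B → g y ≤ g' y)) :
    ∫⁻ y, ENNReal.ofReal (g y) ∂μ ≤ ∫⁻ y in B, ENNReal.ofReal (g' y) ∂μ := by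
  rw [← lintegral_indicator hB]
  refine lintegral_mono_ae (H.mono fun y hy => ?_)
  by_cases k : y ∈ B
  · rw [indicator_of_mem k]
    exact ENNReal.ofReal_le_ofReal (hy.2 k)
  · simp [hy.1 k]

theorem tri (hm : AEMeasurable (fun y => h y ^ 2) (μ.restrict B)) (C : ℝ) :
    ∫⁻ y in B, ENNReal.ofReal (C * (h y ^ 2 + 1 + f y ^ 4)) ∂μ ≤ ENNReal.ofReal C *
      (∫⁻ y in B, ENNReal.ofReal (h y ^ 2) ∂μ + μ univ + ∫⁻ y, ENNReal.ofReal (f y ^ 4) ∂μ) := by
  have e : ∀ y, ENNReal.ofReal (C * (h y ^ 2 + 1 + f y ^ 4)) = ENNReal.ofReal C *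
      (ENNReal.ofReal (h y ^ 2) + 1 + ENNReal.ofReal (f y ^ 4)) := fun y => by
    rw [ENNReal.ofReal_mul' (by positivity), ENNReal.ofReal_add (by positivity) (by positivity),
      ENNReal.ofReal_add (by positivity) zero_le_one, ENNReal.ofReal_one]
  simp only [e]
  rw [lintegral_const_mul' _ _ ENNReal.ofReal_ne_top,
    lintegral_add_left' (hm.ennreal_ofReal.add_const 1), lintegral_add_left' hm.ennreal_ofReal,
    lintegral_one, Measure.restrict_apply_univ]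
  exact mul_le_mul' le_rfl (add_le_add (add_le_add le_rfl (measure_mono (subset_univ B)))
    (setLIntegral_le_lintegral _ _))

theorem amg (s t : ℝ) : s * t ≤ s ^ 2 + 1 + t ^ 4 := by
  nlinarith [sq_nonneg (s - t), sq_nonneg (t ^ 2 - 1), sq_nonneg s, sq_nonneg (t ^ 2)]

end INQ

open INQ in
theorem cINQ : St_INQ := by
  intro Y _ μ _ B V h N χ S a ϖ K c c' A R hc hc' hB hV hVB h1 h2 hm hh hN hA
  obtain ⟨T, T0, hT⟩ : ∃ T : ℝ, 0 ≤ T ∧ ENNReal.ofReal T =
      ∫⁻ y in B, ENNReal.ofReal (h y ^ 2) ∂μ + μ univ + ENNReal.ofReal A :=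
    ⟨_, ENNReal.toReal_nonneg, ENNReal.ofReal_toReal (by finiteness)⟩
  have e2 : Real.exp (-(2 * K)) = (Real.exp K)⁻¹ ^ 2 := by
    rw [← Real.exp_neg, ← Real.exp_nat_mul]
    congr 1
    push_cast
    ring
  rw [e2, Real.exp_neg]
  have E0 := Real.exp_pos K
  generalize Real.exp K = E at E0
  have D0 : 0 < 4 * E ^ 2 * R ^ 2 * T + 1 := by positivity
  refine ⟨min 1 (c * c' / (4 * E ^ 2 * R ^ 2 * T + 1)), by positivity,
    fun r m κ W b r0 hr hcm h3 ⟨U, hU⟩ h4 h5 => ?_⟩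
  have m0 : 0 < m := hc.trans_le hcm
  have up : ∀ y, r ^ 2 * W y ≤ E * (h y * κ y) → W y ≤ E / r ^ 2 * (h y * κ y) := fun y k => by
    rw [div_mul_eq_mul_div, le_div_iff₀' (by positivity)]
    exact k
  have fin : ∀ f : Y → ℝ, (∀ᵐ y ∂μ, 0 ≤ f y) → ∫⁻ y, ENNReal.ofReal (f y ^ 4) ∂μ ≠ ⊤ →
      ∫⁻ y, ENNReal.ofReal (χ y ^ 2 * a y * W y * f y) ∂μ ≠ ⊤ := fun f f0 hf => by
    refine ne_top_of_le_ne_top ?_ ((dom hB ?_).trans (tri (f := f) hm (R * (E / r ^ 2) * U)))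
    · finiteness
    filter_upwards [h1, h2, h3, f0] with y ⟨a1, a2, a3, a4, a5⟩ ⟨b1, b2, b3, b4, b5⟩ ⟨c1, c2, c3⟩ d
    refine ⟨fun k => by simp [(a4 k).1], fun k => ?_⟩
    obtain ⟨k1, k2, k3, k4⟩ := c3 k
    have k5 := up y k4
    have k6 := hU y k
    have k7 := b3.trans b4
    have k8 := k1.trans k6
    calc χ y ^ 2 * a y * W y * f y ≤ 1 ^ 2 * R * (E / r ^ 2 * (h y * U)) * f y := by
          gcongr
          exact k5.trans (by gcongr)
      _ = R * (E / r ^ 2) * U * (h y * f y) := by ring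
      _ ≤ _ := by
          gcongr
          exact amg _ _
  refine ⟨fun i => fin _ (h2.mono fun y k => k.2.2.2.2 i)
    (ne_top_of_le_ne_top ENNReal.ofReal_ne_top (hA i)),
    fin _ (h2.mono fun y k => zero_le_one.trans k.2.1) hN,
    ENNReal.ofReal (E⁻¹ / r ^ 2 * (m * c') / 2), ?_, h5.mono fun i ⟨i1, i2⟩ => ?_⟩
  · have p : 0 < E⁻¹ / r ^ 2 * (m * c') := by positivity
    refine ((ENNReal.ofReal_lt_ofReal_iff p).2 (half_lt_self p)).trans_le ?_
    rw [ENNReal.ofReal_mul (by positivity)]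
    refine (mul_le_mul' le_rfl h4).trans ?_
    rw [← lintegral_const_mul' _ _ ENNReal.ofReal_ne_top]
    refine le_trans (setLIntegral_mono_ae' hV ?_) (setLIntegral_le_lintegral V _)
    filter_upwards [h1, h2, h3] with y ⟨a1, a2, a3, a4, a5⟩ ⟨b1, b2, b3, b4, b5⟩ ⟨c1, c2, c3⟩ k
    obtain ⟨k1, k2, k3, k4⟩ := c3 (hVB k)
    rw [← ENNReal.ofReal_mul (by positivity), a5 k]
    refine ENNReal.ofReal_le_ofReal ?_
    have k5 : E⁻¹ / r ^ 2 * (h y * κ y) ≤ W y := by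
      rw [div_mul_eq_mul_div, div_le_iff₀' (by positivity)]
      exact k3
    calc _ = 1 ^ 2 * a y * (E⁻¹ / r ^ 2 * (h y * κ y)) * 1 := by ring
      _ ≤ _ := by gcongr
  · refine (dom (g' := fun y => E / r ^ 2 * (b y * h y * ϖ i y * κ y) +
      E * R ^ 2 * (h y ^ 2 + 1 + ϖ i y ^ 4)) hB ?_).trans ?_
    · filter_upwards [h1, h2, h3] with y ⟨a1, a2, a3, a4, a5⟩ ⟨b1, b2, b3, b4, b5⟩ ⟨c1, c2, c3⟩
      refine ⟨fun k => by simp [(a4 k).1, (a4 k).2], fun k => ?_⟩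
      obtain ⟨k1, k2, k3, k4⟩ := c3 k
      have k5 := up y k4
      have k6 := b5 i
      have k7 := b3.trans b4
      have k8 : χ y ^ 2 * b y ≤ b y := mul_le_of_le_one_left c2 (pow_le_one₀ a1 a2)
      calc (χ y ^ 2 * b y + S y * a y) * W y * ϖ i y
          ≤ (b y + S y * a y) * (E / r ^ 2 * (h y * κ y)) * ϖ i y := by gcongr
        _ = E / r ^ 2 * (b y * h y * ϖ i y * κ y) +
            E / r ^ 2 * (S y * κ y) * a y * (h y * ϖ i y) := by ring
        _ ≤ E / r ^ 2 * (b y * h y * ϖ i y * κ y) +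
            E / r ^ 2 * (r ^ 2 * R) * R * (h y ^ 2 + 1 + ϖ i y ^ 4) := by
          gcongr
          exact amg _ _
        _ = _ := by field_simp
    refine (lintegral_mono fun y => ENNReal.ofReal_add_le).trans ?_
    rw [lintegral_add_left' (i1.const_mul _).ennreal_ofReal]
    simp only [ENNReal.ofReal_mul (show 0 ≤ E / r ^ 2 by positivity)]
    rw [lintegral_const_mul' _ _ ENNReal.ofReal_ne_top]
    refine (add_le_add (mul_le_mul' le_rfl i2) ((tri hm _).trans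
      (mul_le_mul' le_rfl ((add_le_add le_rfl (hA i)).trans hT.ge)))).trans ?_
    rw [← ENNReal.ofReal_mul (by positivity), ← ENNReal.ofReal_mul (by positivity),
      ← ENNReal.ofReal_add (by positivity) (by positivity)]
    refine ENNReal.ofReal_le_ofReal ?_
    have q1 : r * (4 * E ^ 2 * R ^ 2 * T + 1) ≤ c * c' :=
      (le_div_iff₀ D0).1 (hr.trans (min_le_right _ _))
    have q2 : r ^ 2 * (4 * E ^ 2 * R ^ 2 * T) ≤ m * c' :=
      calc _ = r * (r * (4 * E ^ 2 * R ^ 2 * T)) := by ring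
        _ ≤ 1 * (r * (4 * E ^ 2 * R ^ 2 * T + 1)) := by
          gcongr
          exacts [hr.trans (min_le_left _ _), le_add_of_nonneg_right zero_le_one]
        _ ≤ m * c' := by
          rw [one_mul]
          exact q1.trans (by gcongr)
    calc _ = E⁻¹ / r ^ 2 * (m * c' + r ^ 2 * (4 * E ^ 2 * R ^ 2 * T)) / 4 := by field_simp
      _ ≤ E⁻¹ / r ^ 2 * (m * c' + m * c') / 4 := by gcongr
      _ = _ := by ring

end Pool.Agent.Lib.KC
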