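import Pool.Agent.Lib.KC.Blue
import Pool.Agent.Lib.KG67.Sel

/-! Project kc: uniform moments for the normalised measures. -/

open scoped Classical Topology ContDiff ComplexOrder Matrix ENNReal
open Set MeasureTheory Complex Metric Filter

noncomputable section

namespace Pool.Agent.Lib.KC

open Pool.Agent.Lib.SV (E nsq)
open Pool.Agent.Lib.HS32 Pool.Agent.Lib.KH

namespace UM

theorem ua {Ω : Type} [MeasurableSpace Ω] (ν : Measure Ω) {P : Ω → ℝ} {α t K : ℝ} {B : ℝ≥0∞}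
    (ht : 0 < t) (hα : t ≤ α) (hK : 0 < K) (hB : B ≠ ⊤) (hP : AEMeasurable P ν)
    (hb : ∀ᵐ y ∂ν, P y ≤ K) (hI : ∫⁻ y, ng (P y) α ∂ν ≤ B) :
    Ua ν t (ENNReal.ofReal (K ^ α) * B).toReal fun y => P y / K := by
  have m : AEMeasurable (fun y => ng (P y) α) ν := hP.ennreal_ofReal.pow_const _
  have p : ∀ᵐ y ∂ν, 0 < P y := (ae_lt_top' m (ne_top_of_le_ne_top hB hI)).mono fun y h =>
    not_le.1 fun c => h.ne (by
      rw [ng, ENNReal.ofReal_eq_zero.2 c, ENNReal.zero_rpow_of_neg (by linarith)])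
  have q : ∀ᵐ y ∂ν, 0 < P y / K ∧ P y / K ≤ 1 := (p.and hb).mono fun y h =>
    ⟨div_pos h.1 hK, (div_le_one hK).2 h.2⟩
  have n0 : 0 ≤ᵐ[ν] fun y => (P y / K) ^ (-t) := q.mono fun y h => (Real.rpow_pos_of_pos h.1 _).le
  have m' : AEStronglyMeasurable (fun y => (P y / K) ^ (-t)) ν :=
    ((hP.div_const K).pow_const _).aestronglyMeasurable
  have l : ∫⁻ y, ENNReal.ofReal ((P y / K) ^ (-t)) ∂ν ≤ ENNReal.ofReal (K ^ α) * B := by
    refine le_trans (lintegral_mono_ae ((p.and q).mono fun y h => ?_))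
      ((lintegral_const_mul'' _ m).trans_le (mul_le_mul_right hI _))
    rw [ng, ENNReal.ofReal_rpow_of_pos h.1, ← ENNReal.ofReal_mul (Real.rpow_pos_of_pos hK _).le]
    refine ENNReal.ofReal_le_ofReal ((Real.rpow_le_rpow_of_exponent_ge h.2.1 h.2.2
      (neg_le_neg hα)).trans_eq ?_)
    rw [Real.div_rpow h.1.le hK.le, Real.rpow_neg hK.le, div_inv_eq_mul, mul_comm]
  have f : ENNReal.ofReal (K ^ α) * B ≠ ⊤ := ENNReal.mul_ne_top ENNReal.ofReal_ne_top hB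
  refine ⟨hP.div_const K, q, (lintegral_ofReal_ne_top_iff_integrable m' n0).1
    (ne_top_of_le_ne_top f l), ?_⟩
  rw [integral_eq_lintegral_of_nonneg_ae n0 m']
  exact ENNReal.toReal_mono f l

end UM

theorem cUM (hGMK : St_GMK) (hKRK : St_KRK) : St_UM := by
  intro n M _ A D a m α t K y₀ hm hM ht hα hK hb
  obtain ⟨ρ₀, hρ₀, C₀, hC₀, hM⟩ := hM
  obtain ⟨c₁, hc₁, hk⟩ := KG67.kn_int A.k
  have G := hGMK n M A.toBs
  refine ⟨ρ₀, hρ₀, fun C c hc => ⟨(ENNReal.ofReal (K ^ α) *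
    (C₀ * (c₁ + ENNReal.ofReal C) / ENNReal.ofReal c)).toReal,
    fun ρ hρ r hr hc' hj u hu hu' => ?_⟩⟩
  have R := hKRK n M A y₀ ρ r hr
  have c0 : ENNReal.ofReal c ≠ 0 := (ENNReal.ofReal_pos.2 hc).ne'
  have k0 : A.kr y₀ ρ r univ ≠ 0 := fun h => c0 (le_zero_iff.1 (h ▸ hc'))
  have mk : Measurable fun t' => ENNReal.ofReal (kk r (tl (A.s · y₀)) t') :=
    ((KG67.kn_meas A.k r).comp (measurable_id.sub_const _)).ennreal_ofReal
  have ik : ∫⁻ t', ENNReal.ofReal (kk r (tl (A.s · y₀)) t') ≤ c₁ :=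
    (lintegral_sub_right_eq_self (fun y => ENNReal.ofReal (KG67.kn A.k r y)) _).trans_le (hk r hr)
  have h1 := (hM u ρ _ hu mk hρ hu').trans (mul_le_mul_right (add_le_add ik hj) _)
  rw [← R.int, R.nint k0] at h1
  refine UM.ua _ ht hα hK (ENNReal.div_ne_top (ENNReal.mul_ne_top hC₀
    (ENNReal.add_ne_top.2 ⟨hc₁, ENNReal.ofReal_ne_top⟩)) c0) (R.cm ?_)
    ((R.nae _).2 (Eventually.of_forall fun y hy => hb y hy.1 _ (hu' y hy).2)) ?_
  · refine (continuous_normSq.comp_continuousOn (continuousOn_finsetSum _ fun l _ =>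
      ContinuousOn.mul ?_ (G.cnt (hm l)))).mul (A.cp.pow _)
    exact ((continuous_apply l).comp hu).comp_continuousOn
      (continuousOn_pi.2 fun i => G.cnt (A.hs i))
  · rw [ENNReal.le_div_iff_mul_le (.inl c0) (.inl ENNReal.ofReal_ne_top), mul_comm]
    exact (mul_le_mul_left hc' _).trans h1

end Pool.Agent.Lib.KC
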